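import Pool.Agent.V5helper46.GP.Stm3

/-!
# Project GP, job CQ
-/

set_option autoImplicit false

namespace Pool.Agent.V5helper46.GP

theorem t_CQ : S_CQ := by
  intro E m G hG
  set θ : ℝ := 1 / (2 * ((E : ℝ) + 1)) with hθ
  have hE0 : (0 : ℝ) ≤ E := by positivity
  have hθ0 : 0 < θ := by positivity
  have hθE : θ * E ≤ 1 / 2 := by
    rw [hθ, div_mul_eq_mul_div, div_le_iff₀ (by positivity)]
    nlinarith
  have hθ1 : θ ≤ 1 / 2 := by
    rw [hθ]
    exact one_div_le_one_div_of_le (by norm_num) (by nlinarith)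
  refine ⟨θ, 3 ^ E + 4 * m * G, hθ0, by positivity, fun B hB N hN => ?_⟩
  have hN1 : (1 : ℝ) ≤ N := by exact_mod_cast hN
  have hN0 : (0 : ℝ) < N := by linarith
  have hx1 : (1 : ℝ) ≤ (N : ℝ) ^ θ := Real.one_le_rpow hN1 hθ0.le
  obtain ⟨H, hH⟩ : ∃ H, H = ⌊(N : ℝ) ^ θ⌋₊ := ⟨_, rfl⟩
  have hHle : (H : ℝ) ≤ (N : ℝ) ^ θ := by rw [hH]; exact Nat.floor_le (by linarith)
  have hH1 : 1 ≤ H := by rw [hH]; exact Nat.le_floor (by simpa using hx1)
  have hH1' : (1 : ℝ) ≤ H := by exact_mod_cast hH1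
  have hlt : (N : ℝ) ^ θ < H + 1 := by rw [hH]; exact Nat.lt_floor_add_one _
  choose! S hS hSB using fun t (ht : (H + 2) ^ E ≤ t) => hB H t ht
  set S' : ℕ → Finset ℕ := fun t => if (H + 2) ^ E ≤ t then S t else ∅ with hS'
  have hS'c : ∀ t, (S' t).card ≤ m := by
    intro t
    simp only [hS']
    split_ifs with h
    · exact hS t h
    · simp
  set T : Finset ℕ := (Finset.range (N / H + 2) ×ˢ Finset.range G).biUnion
    (fun p => (S' (G * H * p.1 + p.2)).image (fun u => G * H * p.1 + p.2 - G * u)) with hT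
  have hTc : T.card ≤ (N / H + 2) * G * m := by
    rw [hT]
    refine (Finset.card_biUnion_le_card_mul _ _ m fun p _ => ?_).trans (le_of_eq ?_)
    · exact Finset.card_image_le.trans (hS'c _)
    · rw [Finset.card_product, Finset.card_range, Finset.card_range]
  have hsub : {n : ℕ | n ≤ N ∧ n ∈ B} ⊆ ((Finset.range ((H + 2) ^ E) ∪ T : Finset ℕ) : Set ℕ) := by
    rintro n ⟨hnN, hnB⟩
    rw [Finset.coe_union, Set.mem_union]
    rcases lt_or_ge n ((H + 2) ^ E) with h | h
    · left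
      rw [Finset.coe_range]
      exact h
    · right
      have hn0 : 0 < n := (pow_pos (by omega) _).trans_le h
      set q := n / G with hq
      set ρ := n % G with hρ
      have hnq : G * q + ρ = n := Nat.div_add_mod n G
      set u := H - q % H with hu
      have hqH : q % H < H := Nat.mod_lt _ hH1
      have hu1 : 1 ≤ u := by omega
      have huH : u ≤ H := by omega
      have hquv : q + u = H * (q / H + 1) := by
        have := Nat.div_add_mod q H
        rw [mul_add, mul_one]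
        omega
      set t := n + G * u with ht
      have htv : G * H * (q / H + 1) + ρ = t := by
        rw [ht, mul_assoc, ← hquv, mul_add]
        omega
      have htE : (H + 2) ^ E ≤ t := h.trans (by omega)
      have htn : t - G * u = n := by omega
      have hmem := hSB t htE u hu1 huH (by omega) (by rw [htn]; exact hnB)
      rw [hT, Finset.coe_biUnion, Set.mem_iUnion₂]
      refine ⟨(q / H + 1, ρ), ?_, ?_⟩
      · rw [Finset.coe_product, Set.mem_prod, Finset.coe_range, Finset.coe_range]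
        refine ⟨?_, Nat.mod_lt _ hG⟩
        have h1 : q / H ≤ N / H := Nat.div_le_div_right ((Nat.div_le_self _ _).trans hnN)
        exact Set.mem_Iio.2 (show q / H + 1 < N / H + 2 by omega)
      · rw [Finset.coe_image]
        refine ⟨u, ?_, ?_⟩
        · simp only
          rw [htv, hS', Finset.mem_coe]
          simp only
          rw [if_pos htE]
          exact hmem
        · simp only
          rw [htv]
          exact htn
  have hcard : ({n : ℕ | n ≤ N ∧ n ∈ B}.ncard : ℝ) ≤ ((H + 2) ^ E : ℕ) + ((N / H + 2) * G * m : ℕ) := by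
    have h1 := Set.ncard_le_ncard hsub (Finset.finite_toSet _)
    rw [Set.ncard_coe_finset] at h1
    have h2 := h1.trans ((Finset.card_union_le _ _).trans (Nat.add_le_add (Finset.card_range _).le hTc))
    exact_mod_cast h2
  refine hcard.trans ?_
  have hpow1 : (N : ℝ) ^ (1 / 2 : ℝ) ≤ (N : ℝ) ^ (1 - θ) :=
    Real.rpow_le_rpow_of_exponent_le hN1 (by linarith)
  have h1 : (((H + 2) ^ E : ℕ) : ℝ) ≤ 3 ^ E * (N : ℝ) ^ (1 - θ) := by
    push_cast
    calc ((H : ℝ) + 2) ^ E ≤ (3 * (N : ℝ) ^ θ) ^ E := pow_le_pow_left₀ (by positivity) (by linarith) _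
      _ = 3 ^ E * ((N : ℝ) ^ (θ * E)) := by rw [mul_pow, ← Real.rpow_natCast ((N : ℝ) ^ θ), ← Real.rpow_mul hN0.le]
      _ ≤ 3 ^ E * (N : ℝ) ^ (1 / 2 : ℝ) :=
          mul_le_mul_of_nonneg_left (Real.rpow_le_rpow_of_exponent_le hN1 hθE) (by positivity)
      _ ≤ _ := mul_le_mul_of_nonneg_left hpow1 (by positivity)
  have h2 : ((N / H : ℕ) : ℝ) ≤ 2 * (N : ℝ) ^ (1 - θ) := by
    calc ((N / H : ℕ) : ℝ) ≤ (N : ℝ) / H := Nat.cast_div_le
      _ ≤ (N : ℝ) / ((N : ℝ) ^ θ / 2) := by
          refine div_le_div_of_nonneg_left hN0.le (by positivity) ?_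
          linarith
      _ = 2 * (N : ℝ) ^ (1 - θ) := by
          rw [Real.rpow_sub hN0, Real.rpow_one]
          field_simp
  have h3 : (1 : ℝ) ≤ (N : ℝ) ^ (1 - θ) := Real.one_le_rpow hN1 (by linarith)
  have h4 : (((N / H + 2) * G * m : ℕ) : ℝ) ≤ 4 * m * G * (N : ℝ) ^ (1 - θ) := by
    push_cast
    calc (((N / H : ℕ) : ℝ) + 2) * G * m ≤ (2 * (N : ℝ) ^ (1 - θ) + 2 * (N : ℝ) ^ (1 - θ)) * G * m := by
          refine mul_le_mul_of_nonneg_right (mul_le_mul_of_nonneg_right ?_ (by positivity)) (by positivity)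
          linarith
      _ = _ := by ring
  calc (((H + 2) ^ E : ℕ) : ℝ) + (((N / H + 2) * G * m : ℕ) : ℝ) ≤
      3 ^ E * (N : ℝ) ^ (1 - θ) + 4 * m * G * (N : ℝ) ^ (1 - θ) := add_le_add h1 h4
    _ = _ := by ring

end Pool.Agent.V5helper46.GP
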