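import Pool.Agent.V5helper46.GP.Stm
import Pool.Agent.Y120.A.Pts

/-!
# Project GP, job CV: canonical values
-/

set_option autoImplicit false

open Pool.Agent.Y120.J Pool.Agent.Y120.K
open Pool.Agent.TH21.MS (jj)

namespace Pool.Agent.V5helper46.GP

section
variable {K : IntermediateField ℚ ℂ} {q' k B : ℕ}

/-- the variables -/
abbrev CVr (q' k B : ℕ) : Type := Option (Fin q') ⊕ Fin k × Fin B

/-- the logarithm as a polynomial -/
noncomputable def CVl (K : IntermediateField ℚ ℂ) (L : Fin k → Fin q' → ℚ) (M : Fin k → Fin B → ℚ) (i : Fin k) :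
    MvPolynomial (CVr q' k B) K :=
  ∑ l, MvPolynomial.C ((L i l : ℚ) : K) * MvPolynomial.X (Sum.inl (some l)) +
    ∑ j, MvPolynomial.C ((M i j : ℚ) : K) * MvPolynomial.X (Sum.inr (i, j))

lemma CVl_deg (L : Fin k → Fin q' → ℚ) (M : Fin k → Fin B → ℚ) (i : Fin k) : (CVl K L M i).totalDegree ≤ 1 := by
  unfold CVl
  refine dadd ?_ ?_
  · refine MvPolynomial.totalDegree_finsetSum_le fun l _ => ?_
    refine dmul (a := 0) (b := 1) ?_ (dX _)
    rw [MvPolynomial.totalDegree_C]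
  · refine MvPolynomial.totalDegree_finsetSum_le fun l _ => ?_
    refine dmul (a := 0) (b := 1) ?_ (dX _)
    rw [MvPolynomial.totalDegree_C]

lemma CV_aeval_C {σ : Type} (y : σ → ℂ) (x : ℚ) :
    MvPolynomial.aeval y (MvPolynomial.C ((x : ℚ) : K) : MvPolynomial σ K) = (x : ℂ) := by
  rw [MvPolynomial.aeval_C, map_ratCast]

lemma CV_aeval_Cz {σ : Type} (y : σ → ℂ) (x : ℤ) :
    MvPolynomial.aeval y (MvPolynomial.C ((x : ℤ) : K) : MvPolynomial σ K) = (x : ℂ) := by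
  rw [MvPolynomial.aeval_C, map_intCast]

lemma CVl_eval (L : Fin k → Fin q' → ℚ) (M : Fin k → Fin B → ℚ) (i : Fin k) (w' : Fin q' → ℂ) (v : Fin k × Fin B → ℂ) :
    MvPolynomial.aeval (Sum.elim (cs w') v) (CVl K L M i) = ∑ l, (L i l : ℂ) * w' l + ∑ j, (M i j : ℂ) * v (i, j) := by
  unfold CVl
  rw [map_add, map_sum, map_sum]
  congr 1
  · refine Finset.sum_congr rfl fun l _ => ?_
    rw [map_mul, CV_aeval_C, MvPolynomial.aeval_X]
    rfl
  · refine Finset.sum_congr rfl fun l _ => ?_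
    rw [map_mul, CV_aeval_C, MvPolynomial.aeval_X]
    rfl

/-- the period functions as polynomials -/
noncomputable def CVz (K : IntermediateField ℚ ℂ) (L : Fin k → Fin q' → ℚ) (M : Fin k → Fin B → ℚ) (e₃ : Fin 3 → Fin B)
    (s : Bool) (i : Fin k) : Fin 3 → MvPolynomial (CVr q' k B) K :=
  ![MvPolynomial.X (Sum.inl none) * MvPolynomial.X (Sum.inr (i, e₃ 0)) ^ 2,
    MvPolynomial.X (Sum.inr (i, e₃ 0)) * (-MvPolynomial.X (Sum.inr (i, e₃ 2)) -
      CVl K L M i * MvPolynomial.X (Sum.inr (i, e₃ 0))) +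
      MvPolynomial.C (((if s then 0 else 1 / 2 : ℚ) : ℚ) : K) *
        (MvPolynomial.X (Sum.inl none) * MvPolynomial.X (Sum.inr (i, e₃ 0)) ^ 2),
    MvPolynomial.X (Sum.inl none) * (MvPolynomial.X (Sum.inr (i, e₃ 0)) * MvPolynomial.X (Sum.inr (i, e₃ 1)))]

lemma CVz_deg (L : Fin k → Fin q' → ℚ) (M : Fin k → Fin B → ℚ) (e₃ : Fin 3 → Fin B)
    (s : Bool) (i : Fin k) (j : Fin 3) : (CVz K L M e₃ s i j).totalDegree ≤ 3 := by
  have h2 : ∀ v : CVr q' k B, (MvPolynomial.X v ^ 2 : MvPolynomial (CVr q' k B) K).totalDegree ≤ 2 := fun v =>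
    (MvPolynomial.totalDegree_pow _ _).trans (by
      have := dX (R := K) v
      omega)
  have h3 : (MvPolynomial.X (Sum.inl none) * MvPolynomial.X (Sum.inr (i, e₃ 0)) ^ 2 :
      MvPolynomial (CVr q' k B) K).totalDegree ≤ 3 :=
    dmul (a := 1) (b := 2) (dX _) (h2 _)
  fin_cases j
  · exact h3
  · refine dadd ?_ ?_
    · refine dmul (a := 1) (b := 2) (dX _) (dsub ?_ (dmul (a := 1) (b := 1) (CVl_deg _ _ _) (dX _)))
      rw [MvPolynomial.totalDegree_neg]
      exact (dX _).trans (by norm_num)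
    · refine dmul (a := 0) (b := 3) ?_ h3
      rw [MvPolynomial.totalDegree_C]
  · exact dmul (a := 1) (b := 2) (dX _) (dmul (a := 1) (b := 1) (dX _) (dX _))

lemma CVz_eval (L : Fin k → Fin q' → ℚ) (M : Fin k → Fin B → ℚ) (e₃ : Fin 3 → Fin B)
    (s : Bool) (i : Fin k) (w' : Fin q' → ℂ) (v : Fin k × Fin B → ℂ) (ℓ : ℂ)
    (hℓ : ℓ = ∑ l, (L i l : ℂ) * w' l + ∑ j, (M i j : ℂ) * v (i, j)) :
    (fun j => MvPolynomial.aeval (Sum.elim (cs w') v) (CVz K L M e₃ s i j)) =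
      Zo (kp s) ℓ fun j => v (i, e₃ j) := by
  have hC : MvPolynomial.aeval (Sum.elim (cs w') v)
      (MvPolynomial.C (((if s then 0 else 1 / 2 : ℚ) : ℚ) : K) : MvPolynomial (CVr q' k B) K) = kp s := by
    rw [CV_aeval_C]
    unfold kp
    cases s
    · simp
    · simp
  have hl := CVl_eval (K := K) L M i w' v
  rw [← hℓ] at hl
  funext j
  fin_cases j
  · show MvPolynomial.aeval (Sum.elim (cs w') v) (MvPolynomial.X (Sum.inl none) *
      MvPolynomial.X (Sum.inr (i, e₃ 0)) ^ 2) = tpi * v (i, e₃ 0) ^ 2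
    rw [map_mul, map_pow, MvPolynomial.aeval_X, MvPolynomial.aeval_X]
    rfl
  · show MvPolynomial.aeval (Sum.elim (cs w') v) (MvPolynomial.X (Sum.inr (i, e₃ 0)) *
      (-MvPolynomial.X (Sum.inr (i, e₃ 2)) - CVl K L M i * MvPolynomial.X (Sum.inr (i, e₃ 0))) +
      MvPolynomial.C (((if s then 0 else 1 / 2 : ℚ) : ℚ) : K) *
        (MvPolynomial.X (Sum.inl none) * MvPolynomial.X (Sum.inr (i, e₃ 0)) ^ 2)) =
      v (i, e₃ 0) * (-v (i, e₃ 2) - ℓ * v (i, e₃ 0)) + kp s * (tpi * v (i, e₃ 0) ^ 2)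
    rw [map_add, map_mul, map_sub, map_neg, map_mul, map_mul, map_mul, map_pow, hC, hl, MvPolynomial.aeval_X,
      MvPolynomial.aeval_X, MvPolynomial.aeval_X]
    rfl
  · show MvPolynomial.aeval (Sum.elim (cs w') v) (MvPolynomial.X (Sum.inl none) *
      (MvPolynomial.X (Sum.inr (i, e₃ 0)) * MvPolynomial.X (Sum.inr (i, e₃ 1)))) = tpi * (v (i, e₃ 0) * v (i, e₃ 1))
    rw [map_mul, map_mul, MvPolynomial.aeval_X, MvPolynomial.aeval_X, MvPolynomial.aeval_X]
    rfl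

end

section
variable {K : IntermediateField ℚ ℂ} {σ : Type}

/-- the linear form -/
noncomputable def CVu (K : IntermediateField ℚ ℂ) {σ : Type} (c d : ℤ) (Z : Fin 3 → MvPolynomial σ K) : MvPolynomial σ K :=
  MvPolynomial.C ((c : ℤ) : K) * Z 1 + MvPolynomial.C ((d : ℤ) : K) * Z 0

/-- the numerators -/
noncomputable def CVn (K : IntermediateField ℚ ℂ) {σ : Type} (t : ℚ) (a b c d : ℤ) (Z : Fin 3 → MvPolynomial σ K) :
    Fin 3 → MvPolynomial σ K :=
  ![CVu K a b Z, MvPolynomial.C (((-t : ℚ) : ℚ) : K) * CVu K c d Z ^ 2,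
    MvPolynomial.C ((t : ℚ) : K) * CVu K c d Z ^ 3 * (CVu K c d Z * (Z 0 - MvPolynomial.C ((2 : ℤ) : K) * Z 2) -
      MvPolynomial.C (((2 * c : ℤ) : ℤ) : K) * Z 0)]

/-- the denominators -/
noncomputable def CVm (K : IntermediateField ℚ ℂ) {σ : Type} (c d : ℤ) (Z : Fin 3 → MvPolynomial σ K) :
    Fin 3 → MvPolynomial σ K :=
  ![CVu K c d Z, Z 0, Z 0 ^ 3]

lemma CVu_deg (c d : ℤ) {Z : Fin 3 → MvPolynomial σ K} (hZ : ∀ j, (Z j).totalDegree ≤ 3) : (CVu K c d Z).totalDegree ≤ 3 := by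
  unfold CVu
  refine dadd ?_ ?_
  · refine dmul (a := 0) (b := 3) ?_ (hZ _)
    rw [MvPolynomial.totalDegree_C]
  · refine dmul (a := 0) (b := 3) ?_ (hZ _)
    rw [MvPolynomial.totalDegree_C]

lemma CVpow {p : MvPolynomial σ K} {a n : ℕ} (h : p.totalDegree ≤ a) : (p ^ n).totalDegree ≤ n * a :=
  (MvPolynomial.totalDegree_pow _ _).trans (Nat.mul_le_mul_left _ h)

lemma CVn_deg (t : ℚ) (a b c d : ℤ) {Z : Fin 3 → MvPolynomial σ K} (hZ : ∀ j, (Z j).totalDegree ≤ 3) (j : Fin 3) :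
    (CVn K t a b c d Z j).totalDegree ≤ 24 := by
  have hu := CVu_deg (K := K) c d hZ
  fin_cases j
  · exact (CVu_deg a b hZ).trans (by norm_num)
  · refine (dmul (a := 0) (b := 2 * 3) ?_ (CVpow hu)).trans (by norm_num)
    rw [MvPolynomial.totalDegree_C]
  · refine (dmul (a := 0 + 3 * 3) (b := 6) (dmul ?_ (CVpow hu)) (dsub ?_ ?_)).trans (by norm_num)
    · rw [MvPolynomial.totalDegree_C]
    · refine (dmul (a := 3) (b := 3) hu (dsub (hZ _) (dmul (a := 0) (b := 3) ?_ (hZ _))))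
      rw [MvPolynomial.totalDegree_C]
    · refine (dmul (a := 0) (b := 3) ?_ (hZ _)).trans (by norm_num)
      rw [MvPolynomial.totalDegree_C]

lemma CVm_deg (c d : ℤ) {Z : Fin 3 → MvPolynomial σ K} (hZ : ∀ j, (Z j).totalDegree ≤ 3) (j : Fin 3) :
    (CVm K c d Z j).totalDegree ≤ 24 := by
  fin_cases j
  · exact (CVu_deg c d hZ).trans (by norm_num)
  · exact (hZ 0).trans (by norm_num)
  · exact (CVpow (n := 3) (hZ 0)).trans (by norm_num)

lemma CVu_eval (y : σ → ℂ) (c d : ℤ) (Z : Fin 3 → MvPolynomial σ K) :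
    MvPolynomial.aeval y (CVu K c d Z) = c * MvPolynomial.aeval y (Z 1) + d * MvPolynomial.aeval y (Z 0) := by
  unfold CVu
  rw [map_add, map_mul, map_mul, CV_aeval_Cz, CV_aeval_Cz]

lemma CVn_eval (y : σ → ℂ) (t : ℚ) (a b c d : ℤ) (Z : Fin 3 → MvPolynomial σ K) (j : Fin 3) :
    MvPolynomial.aeval y (CVn K t a b c d Z j) =
      Pool.Agent.Y120.A.nv (t : ℂ) a b c d (fun i => MvPolynomial.aeval y (Z i)) j := by
  fin_cases j
  · exact CVu_eval y a b Z
  · show MvPolynomial.aeval y (MvPolynomial.C (((-t : ℚ) : ℚ) : K) * CVu K c d Z ^ 2) =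
      -(t : ℂ) * (c * MvPolynomial.aeval y (Z 1) + d * MvPolynomial.aeval y (Z 0)) ^ 2
    rw [map_mul, map_pow, CV_aeval_C, CVu_eval]
    push_cast
    ring
  · show MvPolynomial.aeval y (MvPolynomial.C ((t : ℚ) : K) * CVu K c d Z ^ 3 *
      (CVu K c d Z * (Z 0 - MvPolynomial.C ((2 : ℤ) : K) * Z 2) - MvPolynomial.C (((2 * c : ℤ) : ℤ) : K) * Z 0)) =
      t * (c * MvPolynomial.aeval y (Z 1) + d * MvPolynomial.aeval y (Z 0)) ^ 3 *
        ((c * MvPolynomial.aeval y (Z 1) + d * MvPolynomial.aeval y (Z 0)) *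
          (MvPolynomial.aeval y (Z 0) - 2 * MvPolynomial.aeval y (Z 2)) - 2 * c * MvPolynomial.aeval y (Z 0))
    rw [map_mul, map_mul, map_pow, map_sub, map_mul, map_mul, map_sub, map_mul, CV_aeval_C, CV_aeval_Cz, CV_aeval_Cz,
      CVu_eval]
    push_cast
    ring

lemma CVm_eval (y : σ → ℂ) (c d : ℤ) (Z : Fin 3 → MvPolynomial σ K) (j : Fin 3) :
    MvPolynomial.aeval y (CVm K c d Z j) =
      Pool.Agent.Y120.A.mv c d (fun i => MvPolynomial.aeval y (Z i)) j := by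
  fin_cases j
  · exact CVu_eval y c d Z
  · rfl
  · show MvPolynomial.aeval y (Z 0 ^ 3) = (MvPolynomial.aeval y (Z 0)) ^ 3
    rw [map_pow]

end

theorem t_CV : S_CV := by
  classical
  intro k q q' B D δ
  obtain ⟨T1, hT1⟩ := all_PT true
  obtain ⟨T2, hT2⟩ := all_PT false
  refine ⟨Fintype.card (Option (Fin q)) * (δ * 24) + Fintype.card (Fin k × Fin 3) * (δ * 24), max 1 (max T1 T2), ?_⟩
  intro e e₃ s r ℓ V w' L M he₃ hM hr hℓ hZo z hz hRel
  obtain ⟨K, hK, hKD, P, hPδ, hP, u₀, hu₀⟩ := hRel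
  -- the points
  have hr1 : ∀ i, (1 : ℝ) ≤ (r i : ℝ) := fun i => (le_max_left _ _).trans (hr i)
  have hr0 : ∀ i, (r i : ℚ) ≠ 0 := fun i h => by
    have := hr1 i
    rw [h] at this
    norm_num at this
  have hpt : ∀ i, ∃ (γ : Matrix.SpecialLinearGroup (Fin 2) ℤ) (w : UpperHalfPlane), z i = γ • w ∧ pS (s i) (r i) 0 ≠ 0 ∧
      (w : ℂ) * pS (s i) (r i) 0 = pS (s i) (r i) 1 ∧ deriv jj w = -(si (s i) * ((r i : ℝ) : ℂ)) * pS (s i) (r i) 0 ∧
      deriv (deriv jj) w = si (s i) * ((r i : ℝ) : ℂ) * (pS (s i) (r i) 0 ^ 2 - 2 * pS (s i) (r i) 0 * pS (s i) (r i) 2) := by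
    intro i
    have hi := hz i
    have hri := hr i
    have hc : ((r i : ℚ) : ℂ) = (((r i : ℚ) : ℝ) : ℂ) := by push_cast; rfl
    rw [hc] at hi
    cases hs : s i
    · rw [hs] at hi
      exact hT2 (r i : ℝ) (z i) ((le_max_right _ _).trans ((le_max_right _ _).trans hri)) hi
    · rw [hs] at hi
      exact hT1 (r i : ℝ) (z i) ((le_max_left _ _).trans ((le_max_right _ _).trans hri)) hi
  choose γ ω hγ hZ0 hω hd1 hd2 using hpt
  obtain ⟨t, ht⟩ : ∃ t : Fin k → ℚ, t = fun i => (si (s i) : ℚ) * r i := ⟨_, rfl⟩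
  have htC : ∀ i, ((t i : ℚ) : ℂ) = ((si (s i) : ℤ) : ℂ) * ((r i : ℚ) : ℂ) := fun i => by
    rw [ht]
    push_cast
    rfl
  have ht0 : ∀ i, ((t i : ℚ) : ℂ) ≠ 0 := by
    intro i
    rw [htC]
    refine mul_ne_zero ?_ (by exact_mod_cast hr0 i)
    unfold si
    split_ifs <;> norm_num
  have hpts := fun i => Pool.Agent.Y120.A.ptsC (t := ((t i : ℚ) : ℂ)) (hZ0 i) (hω i)
    (by rw [hd1 i, htC]; push_cast; ring) (by rw [hd2 i, htC]; push_cast; ring) (γ i) (hγ i)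
  -- the polynomials
  set W : Option (Fin q) → MvPolynomial (CVr q' k B) K := fun o => MvPolynomial.X (Sum.inl (o.map e)) with hW
  set Zp : Fin k → Fin 3 → MvPolynomial (CVr q' k B) K := fun i => CVz K L M e₃ (s i) i with hZp
  set Np : Fin k × Fin 3 → MvPolynomial (CVr q' k B) K := fun v =>
    CVn K (t v.1) (γ v.1 0 0) (γ v.1 0 1) (γ v.1 1 0) (γ v.1 1 1) (Zp v.1) v.2 with hNp
  set Mp : Fin k × Fin 3 → MvPolynomial (CVr q' k B) K := fun v =>
    CVm K (γ v.1 1 0) (γ v.1 1 1) (Zp v.1) v.2 with hMp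
  have hWe : ∀ y : Fin k × Fin B → ℂ, (fun a => MvPolynomial.aeval (Sum.elim (cs w') y) (W a)) = cs (fun a => w' (e a)) := by
    intro y
    funext a
    rw [hW]
    show MvPolynomial.aeval _ (MvPolynomial.X _) = _
    rw [MvPolynomial.aeval_X]
    rcases a with _ | a <;> rfl
  have hZd : ∀ i j, (Zp i j).totalDegree ≤ 3 := fun i j => CVz_deg L M e₃ (s i) i j
  have hdeg : (clr δ W Np Mp P).totalDegree ≤
      Fintype.card (Option (Fin q)) * (δ * 24) + Fintype.card (Fin k × Fin 3) * (δ * 24) :=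
    clr_deg hPδ (fun a => (dX _).trans (by norm_num)) (fun v => CVn_deg _ _ _ _ _ (hZd v.1) v.2)
      fun v => CVm_deg _ _ (hZd v.1) v.2
  refine ⟨K, hK, hKD, clr δ W Np Mp P, hdeg, ?_, ?_⟩
  · -- it vanishes at the values
    have hZe : ∀ i, (fun j => MvPolynomial.aeval (Sum.elim (cs w') fun a : Fin k × Fin B => V a.1 a.2) (Zp i j)) =
        pS (s i) (r i) := by
      intro i
      rw [hZo i]
      exact CVz_eval L M e₃ (s i) i w' _ (ℓ i) (hℓ i)
    have hMne : ∀ b, MvPolynomial.aeval (Sum.elim (cs w') fun a : Fin k × Fin B => V a.1 a.2) (Mp b) ≠ 0 := by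
      intro b
      rw [hMp]
      show MvPolynomial.aeval _ (CVm _ _ _ _ _) ≠ 0
      rw [CVm_eval, hZe]
      exact (hpts b.1).1 b.2
    rw [clr_eval hPδ _ hMne, hWe]
    have e1 : (fun b : Fin k × Fin 3 => MvPolynomial.aeval (Sum.elim (cs w') fun a : Fin k × Fin B => V a.1 a.2) (Np b) /
        MvPolynomial.aeval (Sum.elim (cs w') fun a : Fin k × Fin B => V a.1 a.2) (Mp b)) = fun v => jt (z v.1) v.2 := by
      funext v
      rw [hNp, hMp]
      show MvPolynomial.aeval _ (CVn _ _ _ _ _ _ _ _) / MvPolynomial.aeval _ (CVm _ _ _ _ _) = _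
      rw [CVn_eval, CVm_eval, hZe, (hpts v.1).2 v.2]
    rw [e1, hP, mul_zero]
  · -- it does not vanish somewhere
    let p : MvPolynomial (Fin k × Fin 3) ℂ := MvPolynomial.eval₂Hom (MvPolynomial.C.comp (algebraMap K ℂ))
      (Sum.elim (fun a => MvPolynomial.C (cs (fun a => w' (e a)) a)) MvPolynomial.X) P
    have hp : ∀ u, MvPolynomial.eval u p = MvPolynomial.aeval (Sum.elim (cs fun a => w' (e a)) u) P := by
      intro u
      show MvPolynomial.eval u (MvPolynomial.eval₂Hom _ _ P) = _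
      have e1 : (MvPolynomial.eval u).comp (MvPolynomial.eval₂Hom (MvPolynomial.C.comp (algebraMap K ℂ))
          (Sum.elim (fun a => MvPolynomial.C (cs (fun a => w' (e a)) a)) MvPolynomial.X)) =
          ((MvPolynomial.aeval (Sum.elim (cs fun a => w' (e a)) u) :
            MvPolynomial (Option (Fin q) ⊕ Fin k × Fin 3) K →ₐ[K] ℂ) :
            MvPolynomial (Option (Fin q) ⊕ Fin k × Fin 3) K →+* ℂ) := by
        refine MvPolynomial.ringHom_ext (fun r => ?_) fun i => ?_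
        · simp
        · rcases i with a | b
          · simp
          · simp
      exact RingHom.congr_fun e1 P
    have hpne : p ≠ 0 := by
      intro h0
      apply hu₀
      rw [← hp u₀, h0, map_zero]
    have hex : ∃ u : Fin k × Fin 3 → ℂ, (∀ j, u (j, 1) ≠ 0 ∧ ((γ j 0 0 : ℤ) : ℂ) - (γ j 1 0 : ℤ) * u (j, 0) ≠ 0) ∧
        MvPolynomial.eval u p ≠ 0 := by
      by_contra hcon
      push Not at hcon
      refine hpne (dense_zero (a := fun j => γ j 0 0) (c := fun j => γ j 1 0) (fun j => ?_) fun u hu => hcon u hu)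
      by_contra hcon2
      push Not at hcon2
      have h1 := (γ j).det_coe
      rw [Matrix.det_fin_two, hcon2.1, hcon2.2] at h1
      simp at h1
    obtain ⟨u, hu, hup⟩ := hex
    obtain ⟨ℓ', hℓ'⟩ : ∃ ℓ' : Fin k → ℂ, ℓ' = fun i => ∑ l, (L i l : ℂ) * w' l := ⟨_, rfl⟩
    have hpre : ∀ j, ∃ v : Fin 3 → ℂ,
        (∀ i, Pool.Agent.Y120.A.mv (γ j 1 0) (γ j 1 1) (Zo (kp (s j)) (ℓ' j) v) i ≠ 0) ∧
        ∀ i, u (j, i) = Pool.Agent.Y120.A.nv ((t j : ℚ) : ℂ) (γ j 0 0) (γ j 0 1) (γ j 1 0) (γ j 1 1)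
          (Zo (kp (s j)) (ℓ' j) v) i / Pool.Agent.Y120.A.mv (γ j 1 0) (γ j 1 1) (Zo (kp (s j)) (ℓ' j) v) i := by
      intro j
      have hdet : (γ j 0 0) * (γ j 1 1) - (γ j 0 1) * (γ j 1 0) = 1 := by
        have h1 := (γ j).det_coe
        rw [Matrix.det_fin_two] at h1
        exact h1
      obtain ⟨Z, hZ, h3, h4⟩ := Pool.Agent.Y120.A.exists_ZC (u := fun i => u (j, i)) hdet (ht0 j) (hu j).1 (hu j).2
      obtain ⟨v, hv⟩ := exists_Zo (kp (s j)) (ℓ' j) hZ
      exact ⟨v, by rw [hv]; exact h3, by rw [hv]; exact h4⟩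
    choose v hv1 hv2 using hpre
    -- the new point
    obtain ⟨V', hV'⟩ : ∃ V' : Fin k × Fin B → ℂ, V' = fun a =>
        if h : ∃ j, e₃ j = a.2 then v a.1 h.choose else 0 := ⟨_, rfl⟩
    have hV'1 : ∀ i j, V' (i, e₃ j) = v i j := by
      intro i j
      rw [hV']
      have h : ∃ j', e₃ j' = (i, e₃ j).2 := ⟨j, rfl⟩
      show dite _ _ _ = _
      rw [dif_pos h]
      have h1 : h.choose = j := he₃ h.choose_spec
      rw [h1]
    have hV'2 : ∀ i j, (M i j : ℂ) * V' (i, j) = 0 := by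
      intro i j
      by_cases h : ∃ j', e₃ j' = j
      · obtain ⟨j', rfl⟩ := h
        rw [hM]
        simp
      · rw [hV']
        show _ * dite _ _ _ = _
        rw [dif_neg h, mul_zero]
    have hZe : ∀ i, (fun j => MvPolynomial.aeval (Sum.elim (cs w') V') (Zp i j)) = Zo (kp (s i)) (ℓ' i) (v i) := by
      intro i
      have h1 := CVz_eval (K := K) L M e₃ (s i) i w' V' (ℓ' i) (by
        rw [hℓ', Finset.sum_eq_zero (s := Finset.univ) (f := fun j => (M i j : ℂ) * V' (i, j)) fun j _ => hV'2 i j,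
          add_zero])
      rw [h1]
      congr 1
      funext j
      exact hV'1 i j
    refine ⟨V', ?_⟩
    have hMne : ∀ b, MvPolynomial.aeval (Sum.elim (cs w') V') (Mp b) ≠ 0 := by
      intro b
      rw [hMp]
      show MvPolynomial.aeval _ (CVm _ _ _ _ _) ≠ 0
      rw [CVm_eval, hZe]
      exact hv1 b.1 b.2
    rw [clr_eval hPδ _ hMne, hWe]
    have e1 : (fun b : Fin k × Fin 3 => MvPolynomial.aeval (Sum.elim (cs w') V') (Np b) /
        MvPolynomial.aeval (Sum.elim (cs w') V') (Mp b)) = u := by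
      funext b
      rw [hNp, hMp]
      show MvPolynomial.aeval _ (CVn _ _ _ _ _ _ _ _) / MvPolynomial.aeval _ (CVm _ _ _ _ _) = _
      rw [CVn_eval, CVm_eval, hZe]
      exact (hv2 b.1 b.2).symm
    rw [e1]
    refine mul_ne_zero (Finset.prod_ne_zero_iff.2 fun b _ => pow_ne_zero _ (hMne b)) ?_
    rw [← hp u]
    exact hup

end Pool.Agent.V5helper46.GP
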