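import Pool.Agent.V5helper46.GP.Stm2
import Pool.Agent.V5helper82.GPs.Ev

/-!
# Project GP, job EV
-/

set_option autoImplicit false

open PowerSeries Pool.Agent.Y113 Pool.Agent.Y120.J Pool.Agent.Y120.K

namespace Pool.Agent.V5helper46.GP

theorem SDc_hJ (i : Fin 4) : SDc (hJ i) := by
  have h := hsd
  have h1 : SDc F1 := SDc.X.mul h.1.deriv
  have h2 : SDc G1 := (SDc.X.mul h.2.deriv).add h.1
  fin_cases i
  · exact h.1
  · exact h.2
  · exact h1
  · exact h2

theorem t_EV : S_EV := by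
  intro c d p hd h0
  choose r hr h using fun i : Fin 4 => Pool.Agent.V5helper82.GPs.values c d p hd h0 (SDc_hJ i)
  obtain ⟨ρ, hρ, hρr⟩ : ∃ ρ : ℝ, 0 < ρ ∧ ∀ i, ρ ≤ r i := by
    refine ⟨Finset.univ.inf' Finset.univ_nonempty r, ?_, fun i => Finset.inf'_le _ (Finset.mem_univ i)⟩
    rw [Finset.lt_inf'_iff]
    exact fun i _ => hr i
  refine ⟨2 / ρ, by positivity, fun y hy => ?_⟩
  have hy0 : 0 < y := (by positivity : (0 : ℝ) < 2 / ρ).trans_le hy
  have h1 : |1 / y| < ρ := by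
    rw [abs_of_pos (by positivity), div_lt_iff₀ hy0]
    rw [div_le_iff₀ hρ] at hy
    linarith
  refine ⟨(h 0 _ (h1.trans_le (hρr 0))).1, (h 0 _ (h1.trans_le (hρr 0))).2.1, fun i => ?_⟩
  exact (h i _ (h1.trans_le (hρr i))).2.2

end Pool.Agent.V5helper46.GP
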