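import Pool.Agent.V5helper46.GP.Stm2
import Pool.Agent.Y120.J.Pos
import Pool.Agent.V5helper41.GPO.OD0

/-!
# Project GP, job OD: the differential equation of the composed system
-/

set_option autoImplicit false

open PowerSeries Pool.Agent.Y113 Pool.Agent.Y120.J Pool.Agent.Y120.K
open Filter Topology

namespace Pool.Agent.V5helper46.GP

/-- the ring homomorphism `ps` -/
noncomputable def psH : Polynomial ℤ →+* ℚ⟦X⟧ :=
  (Polynomial.coeToPowerSeries.ringHom (R := ℚ)).comp (Polynomial.mapRingHom (Int.castRingHom ℚ))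

lemma psH_apply (p : Polynomial ℤ) : psH p = ps p := rfl

lemma psH_X : psH Polynomial.X = X := by simp [psH]

lemma psH_C (n : ℤ) : psH (Polynomial.C n) = (n : ℚ⟦X⟧) := by
  have : (Polynomial.C n : Polynomial ℤ) = (n : Polynomial ℤ) := by simp
  rw [this, map_intCast]

lemma psH_der (p : Polynomial ℤ) : psH (Polynomial.derivative p) = d⁄dX ℚ (psH p) := by
  change ((((Polynomial.derivative p).map (Int.castRingHom ℚ) : Polynomial ℚ)) : ℚ⟦X⟧) =
    d⁄dX ℚ ((p.map (Int.castRingHom ℚ) : Polynomial ℚ) : ℚ⟦X⟧)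
  rw [← Polynomial.derivative_map]
  exact (PowerSeries.derivative_coe _).symm

lemma psH_T1 : psH T1 = (1 - 1728 * X) ^ 2 := by
  rw [T1, map_pow, map_sub, map_mul, map_one, psH_X, map_ofNat]

lemma psH_Q1 : psH Q1 = X * (82944 * X - 372) := by
  rw [Q1, map_mul, map_sub, map_mul, psH_X, map_ofNat, map_ofNat]

theorem t_OD : S_OD := by
  intro c d p hd hp
  obtain ⟨o1, o2, o3⟩ := Pool.Agent.Y120.J.hode
  have hP : constantCoeff (psH p) ≠ 0 := by
    rw [← coeff_zero_eq_constantCoeff_apply]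
    change coeff 0 (((p.map (Int.castRingHom ℚ) : Polynomial ℚ)) : ℚ⟦X⟧) ≠ 0
    rw [Polynomial.coeff_coe, Polynomial.coeff_map, eq_intCast]
    exact Int.cast_ne_zero.2 hp
  have hL : Lp p = Pool.Agent.V5helper41.GPO.LL (psH p) := by
    rw [Lp, Pool.Agent.V5helper41.GPO.LL, ← psH_der]
    rfl
  rw [← psH_apply, ← psH_apply, psH_T1, psH_Q1] at o1 o2
  obtain ⟨k1, k2, k3, k4, k5⟩ := Pool.Agent.V5helper41.GPO.od (c := c) (d := d) (P := psH p)
    (F := FF) (G := GG) (F1 := F1) (G1 := G1) hd hP rfl rfl o1 o2 o3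
    (f := hR c d p 0) (g := hR c d p 1) (f1 := hR c d p 2) (g1 := hR c d p 3) (L := Lp p)
    (Z := (c : ℚ⟦X⟧) * X ^ d) rfl rfl rfl rfl hL rfl
  have hpq : psH (Polynomial.C (d : ℤ) * p - Polynomial.X * Polynomial.derivative p) =
      Pool.Agent.V5helper41.GPO.qq d (psH p) := by
    rw [map_sub, map_mul, map_mul, psH_C, psH_X, psH_der, Pool.Agent.V5helper41.GPO.qq]
    push_cast
    rfl
  have hZ : psH (Polynomial.C (1728 * (c : ℤ)) * Polynomial.X ^ d) =
      1728 * ((c : ℚ⟦X⟧) * X ^ d) := by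
    rw [map_mul, map_pow, psH_C, psH_X]
    push_cast
    ring
  have hTM : ps (TM c d p) = psH p * (psH p - 1728 * ((c : ℚ⟦X⟧) * X ^ d)) ^ 2 := by
    rw [← psH_apply, TM, map_mul, map_pow, map_sub, hZ]
  have hA01 : ps (AM c d p 0 1) = Pool.Agent.V5helper41.GPO.qq d (psH p) *
      (psH p - 1728 * ((c : ℚ⟦X⟧) * X ^ d)) ^ 2 := by
    change psH ((Polynomial.C (d : ℤ) * p - Polynomial.X * Polynomial.derivative p) *
      (p - Polynomial.C (1728 * (c : ℤ)) * Polynomial.X ^ d) ^ 2) = _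
    rw [map_mul, map_pow, map_sub psH p, hZ, hpq]
  have hA10 : ps (AM c d p 1 0) = Pool.Agent.V5helper41.GPO.qq d (psH p) *
      ((c : ℚ⟦X⟧) * X ^ d) * (82944 * ((c : ℚ⟦X⟧) * X ^ d) - 372 * psH p) := by
    change psH ((Polynomial.C (d : ℤ) * p - Polynomial.X * Polynomial.derivative p) *
      (Polynomial.C (c : ℤ) * Polynomial.X ^ d) *
      (Polynomial.C (82944 * (c : ℤ)) * Polynomial.X ^ d - Polynomial.C 372 * p)) = _
    have e1 : psH (Polynomial.C (82944 * (c : ℤ)) * Polynomial.X ^ d) =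
        82944 * ((c : ℚ⟦X⟧) * X ^ d) := by
      rw [map_mul psH, map_pow, psH_C, psH_X]
      push_cast
      ring
    have e2 : psH (Polynomial.C (c : ℤ) * Polynomial.X ^ d) = (c : ℚ⟦X⟧) * X ^ d := by
      rw [map_mul psH, map_pow, psH_C, psH_X]
      push_cast
      ring
    have e3 : psH (Polynomial.C 372 * p) = 372 * psH p := by
      rw [map_mul psH, psH_C]
      push_cast
      ring
    rw [map_mul psH, map_mul psH, hpq, map_sub psH, e1, e2, e3]
  have hA00 : ps (AM c d p 0 0) = 0 := by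
    change psH 0 = 0
    exact map_zero _
  have hA11 : ps (AM c d p 1 1) = 0 := by
    change psH 0 = 0
    exact map_zero _
  have H00 : HM c d p 0 0 = hR c d p 0 := rfl
  have H01 : HM c d p 0 1 = hR c d p 1 - hR c d p 0 * Lp p := rfl
  have H10 : HM c d p 1 0 = hR c d p 2 := rfl
  have H11 : HM c d p 1 1 = hR c d p 3 - hR c d p 2 * Lp p := rfl
  have hz : ∀ f : ℚ⟦X⟧, coeff 0 (subst (Rs c d p) f : ℚ⟦X⟧) = coeff 0 f := fun f => by
    have h := Pool.Agent.V5helper41.GPO.sub_zero (c := c) (P := psH p) hd f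
    rw [← coeff_zero_eq_constantCoeff_apply, ← coeff_zero_eq_constantCoeff_apply] at h
    exact h
  have hLz : coeff 0 (Lp p) = 0 := by
    rw [coeff_zero_eq_constantCoeff_apply, hL]
    exact Pool.Agent.V5helper41.GPO.LL_zero
  have hmulz : ∀ f : ℚ⟦X⟧, coeff 0 (f * Lp p) = 0 := fun f => by
    rw [coeff_zero_eq_constantCoeff_apply, map_mul, ← coeff_zero_eq_constantCoeff_apply (Lp p),
      hLz, mul_zero]
  have hu0 : fu 0 = 1 := by simp [fu]
  have ha0 : fa 0 = 1 := by simp [fa]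
  have hb0 : fb 0 = 0 := by simp [fb]
  have hF0 : coeff 0 FF = 1 := by
    rw [FF, coeff_zero_eq_constantCoeff_apply, map_mul, ← coeff_zero_eq_constantCoeff_apply,
      ← coeff_zero_eq_constantCoeff_apply, coeff_mk, coeff_mk, hu0, ha0, mul_one]
  have hG0 : coeff 0 GG = 0 := by
    rw [GG, coeff_zero_eq_constantCoeff_apply, map_mul, ← coeff_zero_eq_constantCoeff_apply,
      ← coeff_zero_eq_constantCoeff_apply, coeff_mk, coeff_mk, hb0, mul_zero, mul_zero]
  have hF10 : coeff 0 F1 = 0 := by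
    rw [F1, coeff_zero_eq_constantCoeff_apply, map_mul, constantCoeff_X, zero_mul]
  have hG10 : coeff 0 G1 = 1 := by
    rw [G1, map_add, hF0, coeff_zero_eq_constantCoeff_apply, map_mul, constantCoeff_X, zero_mul,
      zero_add]
  refine ⟨?_, ?_, ?_⟩
  · ext1 i j
    rw [Matrix.mul_apply, Fin.sum_univ_two]
    have W00 : WM c d p 0 0 = hR c d p 3 - hR c d p 2 * Lp p := rfl
    have W01 : WM c d p 0 1 = -(hR c d p 1 - hR c d p 0 * Lp p) := rfl
    have W10 : WM c d p 1 0 = -hR c d p 2 := rfl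
    have W11 : WM c d p 1 1 = hR c d p 0 := rfl
    fin_cases i <;> fin_cases j
    · change HM c d p 0 0 * WM c d p 0 0 + HM c d p 0 1 * WM c d p 1 0 = 1
      rw [H00, H01, W00, W10]
      linear_combination k1
    · change HM c d p 0 0 * WM c d p 0 1 + HM c d p 0 1 * WM c d p 1 1 = 0
      rw [H00, H01, W01, W11]
      ring
    · change HM c d p 1 0 * WM c d p 0 0 + HM c d p 1 1 * WM c d p 1 0 = 0
      rw [H10, H11, W00, W10]
      ring
    · change HM c d p 1 0 * WM c d p 0 1 + HM c d p 1 1 * WM c d p 1 1 = 1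
      rw [H10, H11, W01, W11]
      linear_combination k1
  · intro i j
    fin_cases i <;> fin_cases j
    · change coeff 0 (subst (Rs c d p) FF : ℚ⟦X⟧) = _
      rw [hz, hF0]
      rfl
    · change coeff 0 ((subst (Rs c d p) GG : ℚ⟦X⟧) - hR c d p 0 * Lp p) = _
      rw [map_sub, hz, hG0, hmulz, sub_zero]
      rfl
    · change coeff 0 (subst (Rs c d p) F1 : ℚ⟦X⟧) = _
      rw [hz, hF10]
      rfl
    · change coeff 0 ((subst (Rs c d p) G1 : ℚ⟦X⟧) - hR c d p 2 * Lp p) = _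
      rw [map_sub, hz, hG10, hmulz, sub_zero]
      rfl
  · have N00 : (!![0, (d : ℚ); 0, 0] : Matrix (Fin 2) (Fin 2) ℚ) 0 0 = 0 := rfl
    have N01 : (!![0, (d : ℚ); 0, 0] : Matrix (Fin 2) (Fin 2) ℚ) 0 1 = d := rfl
    have N10 : (!![0, (d : ℚ); 0, 0] : Matrix (Fin 2) (Fin 2) ℚ) 1 0 = 0 := rfl
    have N11 : (!![0, (d : ℚ); 0, 0] : Matrix (Fin 2) (Fin 2) ℚ) 1 1 = 0 := rfl
    have hCd : C (d : ℚ) = (d : ℚ⟦X⟧) := map_natCast _ _
    intro i j
    rw [Fin.sum_univ_two, Fin.sum_univ_two, hTM]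
    fin_cases i <;> fin_cases j
    · change _ * (X * d⁄dX ℚ (HM c d p 0 0) + (HM c d p 0 0 * C ((!![0, (d : ℚ); 0, 0] :
        Matrix (Fin 2) (Fin 2) ℚ) 0 0) + HM c d p 0 1 * C ((!![0, (d : ℚ); 0, 0] :
        Matrix (Fin 2) (Fin 2) ℚ) 1 0))) = ps (AM c d p 0 0) * HM c d p 0 0 +
        ps (AM c d p 0 1) * HM c d p 1 0
      rw [N00, N10, hA00, hA01, H00, H10, map_zero]
      linear_combination k2
    · change _ * (X * d⁄dX ℚ (HM c d p 0 1) + (HM c d p 0 0 * C ((!![0, (d : ℚ); 0, 0] :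
        Matrix (Fin 2) (Fin 2) ℚ) 0 1) + HM c d p 0 1 * C ((!![0, (d : ℚ); 0, 0] :
        Matrix (Fin 2) (Fin 2) ℚ) 1 1))) = ps (AM c d p 0 0) * HM c d p 0 1 +
        ps (AM c d p 0 1) * HM c d p 1 1
      rw [N01, N11, hA00, hA01, H00, H01, H11, map_zero, hCd]
      linear_combination k3
    · change _ * (X * d⁄dX ℚ (HM c d p 1 0) + (HM c d p 1 0 * C ((!![0, (d : ℚ); 0, 0] :
        Matrix (Fin 2) (Fin 2) ℚ) 0 0) + HM c d p 1 1 * C ((!![0, (d : ℚ); 0, 0] :
        Matrix (Fin 2) (Fin 2) ℚ) 1 0))) = ps (AM c d p 1 0) * HM c d p 0 0 +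
        ps (AM c d p 1 1) * HM c d p 1 0
      rw [N00, N10, hA10, hA11, H00, H10, map_zero]
      linear_combination k4
    · change _ * (X * d⁄dX ℚ (HM c d p 1 1) + (HM c d p 1 0 * C ((!![0, (d : ℚ); 0, 0] :
        Matrix (Fin 2) (Fin 2) ℚ) 0 1) + HM c d p 1 1 * C ((!![0, (d : ℚ); 0, 0] :
        Matrix (Fin 2) (Fin 2) ℚ) 1 1))) = ps (AM c d p 1 0) * HM c d p 0 1 +
        ps (AM c d p 1 1) * HM c d p 1 1
      rw [N01, N11, hA10, hA11, H01, H10, H11, map_zero, hCd]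
      linear_combination k5

end Pool.Agent.V5helper46.GP
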