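import Pool.Agent.V5helper46.GP.Stm2
import Pool.Agent.V5helper82.GPs.Ev

/-!
# Project GP, job SC
-/

set_option autoImplicit false

open PowerSeries Pool.Agent.Y113 Pool.Agent.Y120.J Pool.Agent.Y120.K

namespace Pool.Agent.V5helper46.GP

theorem t_SC : S_SC := by
  intro c d p hd h0
  exact ⟨fun f hf => Pool.Agent.V5helper82.GPs.subst_sdc c d p hd h0 hf,
    Pool.Agent.V5helper82.GPs.SDc.lp p h0⟩

end Pool.Agent.V5helper46.GP
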