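import Pool.Agent.V5helper46.GP.Stm

/-!
# Project GP (helper46), job CT0: continuation of the four series for the shift `0`
-/

set_option autoImplicit false

open PowerSeries Pool.Agent.Y113 Pool.Agent.Y120.J Pool.Agent.Y120.K
open Pool.Agent.Y37.GF (mv mono_indep E SR an_E)
open Pool.Agent.Y239.K.UU (E_fJ bound)
open Filter Topology

namespace Pool.Agent.V5helper46.GP

namespace CTa

/-- a monomial with the given exponents -/
lemma one_mon {Δ a b c d : ℕ} (h : a + b + c + d ≤ Δ) (h' : a = 0 ∨ d = 0) :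
    ∃ e : Ex Δ, ∀ y : Fin 4 → ℝ, mv y e = y 0 ^ a * y 1 ^ b * y 2 ^ c * y 3 ^ d := by
  refine ⟨⟨![⟨a, by omega⟩, ⟨b, by omega⟩, ⟨c, by omega⟩, ⟨d, by omega⟩], ?_, ?_⟩, fun y => ?_⟩
  · rw [Fin.sum_univ_four]
    exact h
  · rcases h' with h1 | h1
    · left
      exact Fin.ext h1
    · right
      exact Fin.ext h1
  · unfold mv
    rw [Fin.prod_univ_four]
    rfl

/-- reduction of the monomials on the surface -/
lemma red {Δ : ℕ} (a : ℕ) : ∀ b c d : ℕ, a + b + c + d ≤ Δ → ∃ co : Ex Δ → ℝ, ∀ y : Fin 4 → ℝ,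
    y 0 * y 3 - y 1 * y 2 = -1 → y 0 ^ a * y 1 ^ b * y 2 ^ c * y 3 ^ d = ∑ e, co e * mv y e := by
  classical
  have single : ∀ a b c d : ℕ, a + b + c + d ≤ Δ → (a = 0 ∨ d = 0) → ∃ co : Ex Δ → ℝ, ∀ y : Fin 4 → ℝ,
      y 0 * y 3 - y 1 * y 2 = -1 → y 0 ^ a * y 1 ^ b * y 2 ^ c * y 3 ^ d = ∑ e, co e * mv y e := by
    intro a b c d h h'
    obtain ⟨e₀, he₀⟩ := one_mon h h'
    refine ⟨fun e => if e = e₀ then 1 else 0, fun y _ => ?_⟩
    rw [Finset.sum_eq_single e₀]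
    · beta_reduce
      rw [if_pos rfl, one_mul, he₀]
    · intro e _ hne
      beta_reduce
      rw [if_neg hne, zero_mul]
    · intro hne
      exact absurd (Finset.mem_univ _) hne
  induction a with
  | zero =>
    intro b c d h
    exact single 0 b c d h (Or.inl rfl)
  | succ a ih =>
    intro b c d h
    rcases d with _ | d
    · exact single (a + 1) b c 0 h (Or.inr rfl)
    · obtain ⟨co1, h1⟩ := ih (b + 1) (c + 1) d (by omega)
      obtain ⟨co2, h2⟩ := ih b c d (by omega)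
      refine ⟨fun e => co1 e - co2 e, fun y hy => ?_⟩
      have h3 : ∑ e, (co1 e - co2 e) * mv y e = ∑ e, co1 e * mv y e - ∑ e, co2 e * mv y e := by
        rw [← Finset.sum_sub_distrib]
        refine Finset.sum_congr rfl fun e _ => ?_
        ring
      rw [h3, ← h1 y hy, ← h2 y hy]
      linear_combination (y 0 ^ a * y 1 ^ b * y 2 ^ c * y 3 ^ d) * hy

/-- combinations of the monomials with coefficients analytic on `J`, on the surface -/
def Dn (J : Set ℝ) (Δ : ℕ) (R : ℝ → (Fin 4 → ℝ) → ℝ) : Prop :=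
  ∃ c : Ex Δ → ℝ → ℝ, (∀ e, ∀ x ∈ J, AnalyticAt ℝ (c e) x) ∧
    ∀ x, ∀ y : Fin 4 → ℝ, y 0 * y 3 - y 1 * y 2 = -1 → R x y = ∑ e, c e x * mv y e

variable {J : Set ℝ} {Δ : ℕ}

lemma Dn.congr {R R' : ℝ → (Fin 4 → ℝ) → ℝ} (h : Dn J Δ R) (hR : ∀ x y, R' x y = R x y) : Dn J Δ R' := by
  obtain ⟨c, hc, hc'⟩ := h
  exact ⟨c, hc, fun x y hy => by rw [hR, hc' x y hy]⟩

lemma Dn.zero : Dn J Δ (fun _ _ => 0) :=
  ⟨fun _ _ => 0, fun _ _ _ => analyticAt_const, fun x y _ => by simp⟩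

lemma Dn.add {R R' : ℝ → (Fin 4 → ℝ) → ℝ} (h : Dn J Δ R) (h' : Dn J Δ R') : Dn J Δ (fun x y => R x y + R' x y) := by
  obtain ⟨c, hc, hc'⟩ := h
  obtain ⟨d, hd, hd'⟩ := h'
  refine ⟨fun e x => c e x + d e x, fun e x hx => (hc e x hx).add (hd e x hx), fun x y hy => ?_⟩
  beta_reduce
  rw [hc' x y hy, hd' x y hy, ← Finset.sum_add_distrib]
  refine Finset.sum_congr rfl fun e _ => ?_
  ring

lemma Dn.smul {R : ℝ → (Fin 4 → ℝ) → ℝ} {f : ℝ → ℝ} (hf : ∀ x ∈ J, AnalyticAt ℝ f x) (h : Dn J Δ R) :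
    Dn J Δ (fun x y => f x * R x y) := by
  obtain ⟨c, hc, hc'⟩ := h
  refine ⟨fun e x => f x * c e x, fun e x hx => (hf x hx).mul (hc e x hx), fun x y hy => ?_⟩
  beta_reduce
  rw [hc' x y hy, Finset.mul_sum]
  refine Finset.sum_congr rfl fun e _ => ?_
  ring

lemma Dn.sum {ι : Type*} (s : Finset ι) {R : ι → ℝ → (Fin 4 → ℝ) → ℝ} (h : ∀ i, Dn J Δ (R i)) :
    Dn J Δ (fun x y => ∑ i ∈ s, R i x y) := by
  classical
  induction s using Finset.induction_on with
  | empty => simpa using Dn.zero (J := J) (Δ := Δ)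
  | insert a s ha ih =>
    simp only [Finset.sum_insert ha]
    exact (h a).add ih

lemma Dn.mon {a b c d : ℕ} (h : a + b + c + d ≤ Δ) : Dn J Δ (fun _ y => y 0 ^ a * y 1 ^ b * y 2 ^ c * y 3 ^ d) := by
  obtain ⟨co, hco⟩ := red a b c d h
  exact ⟨fun e _ => co e, fun _ _ _ => analyticAt_const, fun x y hy => hco y hy⟩

lemma Dn.key {M : ℝ → ℝ} (hM : ∀ x ∈ J, AnalyticAt ℝ M x) (c : ℕ) : ∀ d a b c' d' : ℕ, a + b + c' + d' + c + d ≤ Δ →
    Dn J Δ (fun x y => y 0 ^ a * y 1 ^ b * y 2 ^ c' * y 3 ^ d' * (y 2 + M x * y 0) ^ c * (y 3 + M x * y 1) ^ d) := by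
  induction c with
  | zero =>
    intro d
    induction d with
    | zero =>
      intro a b c' d' h
      refine (Dn.mon (J := J) (Δ := Δ) (a := a) (b := b) (c := c') (d := d') (by omega)).congr fun x y => ?_
      rw [pow_zero, pow_zero, mul_one, mul_one]
    | succ d ih =>
      intro a b c' d' h
      refine ((ih a b c' (d' + 1) (by omega)).add (Dn.smul hM (ih a (b + 1) c' d' (by omega)))).congr fun x y => ?_
      ring
  | succ c ih =>
    intro d a b c' d' h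
    refine ((ih d a b (c' + 1) d' (by omega)).add (Dn.smul hM (ih d (a + 1) b c' d' (by omega)))).congr fun x y => ?_
    ring

/-- the translation -/
def tr (M : ℝ) (y : Fin 4 → ℝ) : Fin 4 → ℝ := ![y 0, y 1, y 2 + M * y 0, y 3 + M * y 1]

lemma tr_surf {M : ℝ} {y : Fin 4 → ℝ} (hy : y 0 * y 3 - y 1 * y 2 = -1) :
    tr M y 0 * tr M y 3 - tr M y 1 * tr M y 2 = -1 := by
  show y 0 * (y 3 + M * y 1) - y 1 * (y 2 + M * y 0) = -1
  linear_combination hy

lemma tr_tr (M : ℝ) (y : Fin 4 → ℝ) : tr M (tr (-M) y) = y := by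
  funext i
  fin_cases i
  · rfl
  · rfl
  · show y 2 + -M * y 0 + M * y 0 = y 2
    ring
  · show y 3 + -M * y 1 + M * y 1 = y 3
    ring

lemma mv_tr (M : ℝ) (y : Fin 4 → ℝ) (e : Ex Δ) :
    mv (tr M y) e = y 0 ^ (e.1 0 : ℕ) * y 1 ^ (e.1 1 : ℕ) * (y 2 + M * y 0) ^ (e.1 2 : ℕ) * (y 3 + M * y 1) ^ (e.1 3 : ℕ) := by
  unfold mv
  rw [Fin.prod_univ_four]
  rfl

/-- relations for the translated functions -/
lemma Dn.tr {M : ℝ → ℝ} (hM : ∀ x ∈ J, AnalyticAt ℝ M x) {c : Ex Δ → ℝ → ℝ} (hc : ∀ e, ∀ x ∈ J, AnalyticAt ℝ (c e) x) :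
    Dn J Δ (fun x y => ∑ e, c e x * mv (tr (M x) y) e) := by
  refine Dn.sum Finset.univ fun e => Dn.smul (hc e) ?_
  have h1 : (e.1 0 : ℕ) + (e.1 1 : ℕ) + 0 + 0 + (e.1 2 : ℕ) + (e.1 3 : ℕ) ≤ Δ := by
    have := e.2.1
    rw [Fin.sum_univ_four] at this
    omega
  refine (Dn.key (J := J) (Δ := Δ) hM (e.1 2 : ℕ) (e.1 3 : ℕ) (e.1 0 : ℕ) (e.1 1 : ℕ) 0 0 h1).congr fun x y => ?_
  rw [mv_tr]
  ring

end CTa

open CTa in
theorem t_CT0 : S_CT0 := by
  obtain ⟨hUa, hUe, hUs⟩ := hu true 1 le_rfl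
  have hSB := hsb true 1 le_rfl
  have hz1 : z1 true 1 = 1 / 1729 := by
    unfold z1 Js
    norm_num
  rw [hz1] at hUa hUs
  obtain ⟨φ, hφ⟩ : ∃ φ : ℝ → ℝ, ∀ x, φ x = x / (1 + x) := ⟨_, fun _ => rfl⟩
  obtain ⟨ψ, hψ⟩ : ∃ ψ : ℝ → ℝ, ∀ x, ψ x = x / (1 - x) := ⟨_, fun _ => rfl⟩
  have hφan : ∀ x : ℝ, 0 ≤ x → AnalyticAt ℝ φ x := by
    intro x hx
    have h1 : AnalyticAt ℝ (fun x : ℝ => x / (1 + x)) x :=
      analyticAt_id.div (analyticAt_const.add analyticAt_id) (show (1 : ℝ) + x ≠ 0 by linarith)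
    refine h1.congr (Filter.Eventually.of_forall fun w => (hφ w).symm)
  have hψan : ∀ x : ℝ, x < 1 → AnalyticAt ℝ ψ x := by
    intro x hx
    have h1 : AnalyticAt ℝ (fun x : ℝ => x / (1 - x)) x :=
      analyticAt_id.div (analyticAt_const.sub analyticAt_id) (show (1 : ℝ) - x ≠ 0 by linarith)
    refine h1.congr (Filter.Eventually.of_forall fun w => (hψ w).symm)
  have hφ0 : φ 0 = 0 := by rw [hφ]; simp
  have hψ0 : ψ 0 = 0 := by rw [hψ]; simp
  have hψφ : ∀ x : ℝ, 0 ≤ x → ψ (φ x) = x := by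
    intro x hx
    rw [hψ, hφ]
    have h1 : (1 + x) ≠ 0 := by linarith
    have h2 : 1 - x / (1 + x) = 1 / (1 + x) := by field_simp; ring
    rw [h2]
    field_simp
  have hφψ : ∀ x : ℝ, 0 ≤ x → x < 1 → φ (ψ x) = x := by
    intro x hx hx1
    rw [hψ, hφ]
    have h1 : (1 - x) ≠ 0 := by linarith
    have h2 : 1 + x / (1 - x) = 1 / (1 - x) := by field_simp; ring
    rw [h2]
    field_simp
  have hφpos : ∀ x : ℝ, 0 < x → 0 < φ x := by
    intro x hx
    rw [hφ]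
    positivity
  have hφlt : ∀ x : ℝ, 0 ≤ x → x < 1 / 1728 → φ x < 1 / 1729 := by
    intro x hx hx1
    rw [hφ, div_lt_div_iff₀ (by linarith) (by norm_num)]
    linarith
  have hφle : ∀ x : ℝ, 0 ≤ x → φ x ≤ x := by
    intro x hx
    rw [hφ, div_le_iff₀ (by linarith)]
    nlinarith
  -- the functions
  obtain ⟨u, hudef⟩ : ∃ u : ℝ → Fin 4 → ℝ, ∀ x, u x = tr (Real.log (1 + x)) (ut true 1 (φ x)) := ⟨_, fun _ => rfl⟩
  have hlogan : ∀ x : ℝ, 0 ≤ x → AnalyticAt ℝ (fun x : ℝ => Real.log (1 + x)) x := by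
    intro x hx
    apply AnalyticAt.log
    · exact analyticAt_const.add analyticAt_id
    · show 0 < 1 + x
      linarith
  have hφmem : ∀ x ∈ Set.Ico (0 : ℝ) (1 / 1728), φ x ∈ Set.Ico (0 : ℝ) (1 / 1729) := by
    intro x hx
    refine ⟨?_, hφlt x hx.1 hx.2⟩
    have := hx.1
    rw [hφ]
    positivity
  have hua : ∀ x ∈ Set.Ico (0 : ℝ) (1 / 1728), ∀ i, AnalyticAt ℝ (fun x => u x i) x := by
    intro x hx i
    have hy : ∀ i, AnalyticAt ℝ (fun x => ut true 1 (φ x) i) x := fun i =>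
      AnalyticAt.comp (g := fun x => ut true 1 x i) (f := φ) (hUa (φ x) (hφmem x hx) i) (hφan x hx.1)
    have hM := hlogan x hx.1
    simp only [hudef]
    fin_cases i
    · exact hy 0
    · exact hy 1
    · exact (hy 2).add (hM.mul (hy 0))
    · exact (hy 3).add (hM.mul (hy 1))
  have hz0 : (0 : ℝ) < 1 / 1728 := by norm_num
  refine ⟨1 / 1728, u, hz0, hua, ?_, ?_⟩
  · -- values near zero
    obtain ⟨C, hC, hb⟩ := bound Pool.Agent.Y120.J.hsd true
    -- analyticity of the series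
    have hC0 : (0 : ℝ) < max (C + 1) 8 := lt_of_lt_of_le (by norm_num) (le_max_right _ _)
    have hE : ∀ i, AnalyticAt ℝ (E (fJ true 0 i)) 0 := by
      intro i
      have hrp : 0 < 1 / max (C + 1) 8 := by positivity
      have h2 : ((0 : ℕ) : ℝ) + C < 1 / (1 / max (C + 1) 8) := by
        rw [one_div_one_div]
        push_cast
        exact lt_of_lt_of_le (by linarith) (le_max_left _ _)
      have h3 : 1 / max (C + 1) 8 ≤ 1 / (((0 : ℕ) : ℝ) + 8) := by
        refine one_div_le_one_div_of_le (by norm_num) ?_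
        push_cast
        rw [zero_add]
        exact le_max_right _ _
      exact an_E hrp ((E_fJ true hC hb 0 hrp h2 h3).1 i)
    -- equality for small positive `x`
    have hpos : ∀ᶠ x in 𝓝[>] (0 : ℝ), ∀ i, u x i = E (fJ true 0 i) x := by
      have hφt : Tendsto φ (𝓝[>] 0) (𝓝 0) := by
        have h1 : Tendsto φ (𝓝 0) (𝓝 (φ 0)) := (hφan 0 le_rfl).continuousAt
        rw [hφ0] at h1
        exact h1.mono_left nhdsWithin_le_nhds
      have hsmall : ∀ᶠ x in 𝓝[>] (0 : ℝ), x < 1 / (C + 10) := by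
        refine mem_nhdsWithin_of_mem_nhds (Iio_mem_nhds ?_)
        positivity
      filter_upwards [hφt.eventually hUe, hsmall, self_mem_nhdsWithin] with x hx hxs hx0
      have hx0' : 0 < x := hx0
      have hCx : C + 10 < 1 / x := by
        rw [lt_div_iff₀ hx0']
        rw [lt_div_iff₀ (by linarith)] at hxs
        linarith
      have hφx := hφpos x hx0'
      have hinv : 1 / φ x = 1 / x + 1 := by
        rw [hφ]
        field_simp
      have hC1 : ((1 : ℕ) : ℝ) + C < 1 / φ x := by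
        rw [hinv]
        push_cast
        linarith
      have h81 : φ x ≤ 1 / (((1 : ℕ) : ℝ) + 8) := by
        rw [le_div_iff₀ (by norm_num)]
        have h1 := hφle x hx0'.le
        rw [lt_div_iff₀ (by linarith)] at hxs
        push_cast
        nlinarith
      have h80 : x ≤ 1 / (((0 : ℕ) : ℝ) + 8) := by
        rw [le_div_iff₀ (by norm_num)]
        rw [lt_div_iff₀ (by linarith)] at hxs
        push_cast
        nlinarith
      obtain ⟨-, a0, a1, a2, a3⟩ := E_fJ true hC hb 1 hφx hC1 h81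
      obtain ⟨-, b0, b1, b2, b3⟩ := E_fJ true hC hb 0 hx0' (by push_cast; linarith) h80
      have p1 : 1 / (1 / φ x - ((1 : ℕ) : ℝ)) = x := by
        rw [hinv]
        push_cast
        rw [add_sub_cancel_right, one_div_one_div]
      have p0 : 1 / (1 / x - ((0 : ℕ) : ℝ)) = x := by
        push_cast
        rw [sub_zero, one_div_one_div]
      have l0 : Real.log (1 - ((0 : ℕ) : ℝ) * x) = 0 := by simp
      have l1 : Real.log (1 - ((1 : ℕ) : ℝ) * φ x) = -Real.log (1 + x) := by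
        have h1 : 1 - ((1 : ℕ) : ℝ) * φ x = (1 + x)⁻¹ := by
          rw [hφ]
          push_cast
          field_simp
          ring
        rw [h1, Real.log_inv]
      rw [p1] at a0 a1 a2 a3
      rw [p0] at b0 b1 b2 b3
      rw [l1] at a2 a3
      rw [l0] at b2 b3
      intro i
      rw [hudef]
      fin_cases i
      · show ut true 1 (φ x) 0 = E (fJ true 0 0) x
        rw [hx 0, a0, b0]
      · show ut true 1 (φ x) 1 = E (fJ true 0 1) x
        rw [hx 1, a1, b1]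
      · show ut true 1 (φ x) 2 + Real.log (1 + x) * ut true 1 (φ x) 0 = E (fJ true 0 2) x
        rw [hx 2, hx 0, a2, a0, b2]
        ring
      · show ut true 1 (φ x) 3 + Real.log (1 + x) * ut true 1 (φ x) 1 = E (fJ true 0 3) x
        rw [hx 3, hx 1, a3, a1, b3]
        ring
    rw [Filter.eventually_all]
    intro i
    have h1 : ∃ᶠ x in 𝓝[≠] (0 : ℝ), u x i = E (fJ true 0 i) x := by
      have h2 : ∀ᶠ x in 𝓝[>] (0 : ℝ), u x i = E (fJ true 0 i) x := hpos.mono fun x hx => hx i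
      exact h2.frequently.filter_mono (nhdsWithin_mono _ fun x hx => ne_of_gt hx)
    exact ((hua 0 ⟨le_rfl, hz0⟩ i).frequently_eq_iff_eventually_eq (hE i)).1 h1
  · -- independence
    intro Δ c hc hrel x hx
    obtain ⟨M, hM⟩ : ∃ M : ℝ → ℝ, ∀ x, M x = Real.log (1 + ψ x) := ⟨_, fun _ => rfl⟩
    have hψmem : ∀ w ∈ Set.Icc (0 : ℝ) (1 / 1729), ψ w ∈ Set.Icc (0 : ℝ) (1 / 1728) := by
      intro w hw
      obtain ⟨hw0, hw1⟩ := hw
      have h1 : 0 < 1 - w := by linarith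
      rw [hψ]
      refine ⟨by positivity, ?_⟩
      rw [div_le_div_iff₀ h1 (by norm_num)]
      linarith
    have hψan' : ∀ w ∈ Set.Icc (0 : ℝ) (1 / 1729), AnalyticAt ℝ ψ w := fun w hw =>
      hψan w (lt_of_le_of_lt hw.2 (by norm_num))
    have hMan : ∀ w ∈ Set.Icc (0 : ℝ) (1 / 1729), AnalyticAt ℝ M w := by
      intro w hw
      have h1 : AnalyticAt ℝ (fun w => Real.log (1 + ψ w)) w :=
        AnalyticAt.comp (g := fun x : ℝ => Real.log (1 + x)) (f := ψ) (hlogan _ (hψmem w hw).1) (hψan' w hw)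
      exact h1.congr (Filter.Eventually.of_forall fun w => (hM w).symm)
    have hcan : ∀ e, ∀ w ∈ Set.Icc (0 : ℝ) (1 / 1729), AnalyticAt ℝ (fun w => c e (ψ w)) w := fun e w hw =>
      AnalyticAt.comp (g := c e) (f := ψ) (hc e _ (hψmem w hw)) (hψan' w hw)
    obtain ⟨c', hc', hc''⟩ := Dn.tr hMan hcan
    have hzero := hSB Δ c' (by rw [hz1]; exact hc') (by
      have hψt : Tendsto ψ (𝓝[>] 0) (𝓝[>] 0) := by
        refine tendsto_nhdsWithin_iff.2 ⟨?_, ?_⟩
        · have h1 : Tendsto ψ (𝓝 0) (𝓝 (ψ 0)) := (hψan 0 (by norm_num)).continuousAt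
          rw [hψ0] at h1
          exact h1.mono_left nhdsWithin_le_nhds
        · have h2 : ∀ᶠ w in 𝓝[>] (0 : ℝ), w < 1 / 1729 :=
            mem_nhdsWithin_of_mem_nhds (Iio_mem_nhds (by norm_num))
          filter_upwards [h2, self_mem_nhdsWithin] with w hw hw0
          have hw0' : 0 < w := hw0
          have h3 : 0 < 1 - w := by linarith
          rw [Set.mem_Ioi, hψ]
          positivity
      have h2 : ∀ᶠ w in 𝓝[>] (0 : ℝ), w < 1 / 1729 :=
        mem_nhdsWithin_of_mem_nhds (Iio_mem_nhds (by norm_num))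
      filter_upwards [hψt.eventually hrel, h2, self_mem_nhdsWithin] with w hw hw1 hw0
      have hw0' : 0 < w := hw0
      rw [← hc'' w (ut true 1 w) (hUs w ⟨hw0', hw1⟩).2.2.2.2.2]
      rw [← hw]
      refine Finset.sum_congr rfl fun e _ => ?_
      rw [hudef, hφψ w hw0'.le (by linarith), hM])
    rw [hz1] at hzero
    -- the coefficients at `x`
    have hw : φ x ∈ Set.Ioo (0 : ℝ) (1 / 1729) := ⟨hφpos x hx.1, hφlt x hx.1.le hx.2⟩
    have h1 : ∀ y : Fin 4 → ℝ, y 0 * y 3 - y 1 * y 2 = -1 → ∑ e, c e x * mv y e = 0 := by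
      intro y hy
      have h2 := hc'' (φ x) (tr (-(M (φ x))) y) (tr_surf hy)
      beta_reduce at h2
      rw [tr_tr, hψφ x hx.1.le] at h2
      rw [h2]
      refine Finset.sum_eq_zero fun e _ => ?_
      rw [hzero _ hw e, zero_mul]
    exact mono_indep (fun e => c e x) h1

end Pool.Agent.V5helper46.GP
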