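import Pool.Agent.V5helper46.GP.Stm
import Pool.Agent.Y120.K.WinK

/-!
# Project GP (helper46), job PS: the period functions at the points `± (t - g)`, `t` real
-/

set_option autoImplicit false

open PowerSeries Pool.Agent.Y113 Pool.Agent.Y120.GF Pool.Agent.Y120.GH Pool.Agent.Y120.J Pool.Agent.Y120.K
open Pool.Agent.Y120.R

namespace Pool.Agent.V5helper46.GP

namespace PSa

lemma nrm (y : ℝ) : ‖((y : ℝ) : ℂ)‖ = |y| := by
  rw [Complex.norm_real, Real.norm_eq_abs]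

/-- the shift at a real point of either sign -/
lemma ev_sf {f : ℚ⟦X⟧} {C : ℝ} (hC : 0 ≤ C) (hf : ∀ m, |((coeff m f : ℚ) : ℝ)| ≤ C ^ (m + 1)) {g : ℕ} {y : ℝ}
    (h : (g : ℝ) + C < |y|) : ev y (sf g f) = ev (y - g) f := by
  have h1 := ou_shift hC hf g (t := ((y : ℝ) : ℂ)) (by rw [nrm]; exact h)
  have h2 : ((y : ℝ) : ℂ) - (g : ℂ) = (((y - g : ℝ)) : ℂ) := by
    push_cast
    ring
  rw [h2, ou_ev, ou_ev] at h1
  exact_mod_cast h1

lemma mem_sf {f : ℚ⟦X⟧} {C : ℝ} (hC : 0 ≤ C) (hf : ∀ m, |((coeff m f : ℚ) : ℝ)| ≤ C ^ (m + 1)) (g : ℕ) :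
    cx (sf g f) ∈ Cw ((g : ℝ) + C) := cx_mem_of_Cv fun _ ht => cx_sf_cv hC hf g ht

lemma mem_lg {C : ℝ} (hC : 0 ≤ C) (g : ℕ) : cx (lg g) ∈ Cw ((g : ℝ) + C) :=
  cx_mem_of_Cv fun _ ht => lg_cv (by linarith)

lemma ev_mul' {ρ y : ℝ} (hρ : 0 ≤ ρ) (hy : ρ < |y|) {f f' : ℚ⟦X⟧} (hf : cx f ∈ Cw ρ) (hf' : cx f' ∈ Cw ρ) :
    ev y (f * f') = ev y f * ev y f' := by
  have h1 := ou_mul hρ hf hf' (z := ((y : ℝ) : ℂ)) (by rw [nrm]; exact hy)
  rw [← map_mul, ou_ev, ou_ev, ou_ev] at h1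
  exact_mod_cast h1

lemma ev_add' {ρ y : ℝ} (hρ : 0 ≤ ρ) (hy : ρ < |y|) {f f' : ℚ⟦X⟧} (hf : cx f ∈ Cw ρ) (hf' : cx f' ∈ Cw ρ) :
    ev y (f + f') = ev y f + ev y f' := by
  have h1 := ou_add hρ hf hf' (z := ((y : ℝ) : ℂ)) (by rw [nrm]; exact hy)
  rw [← map_add, ou_ev, ou_ev, ou_ev] at h1
  exact_mod_cast h1

lemma ev_neg (y : ℝ) (f : ℚ⟦X⟧) : ev y (-f) = -ev y f := by
  unfold ev
  rw [← tsum_neg]
  refine tsum_congr fun m => ?_
  rw [map_neg]
  push_cast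
  ring

lemma ev_lg' {g : ℕ} {y : ℝ} (h : (g : ℝ) < |y|) : ev y (lg g) = Real.log (1 - g / y) := by
  have hy0 : 0 < |y| := lt_of_le_of_lt (by positivity) h
  have h1 : |(g : ℝ) / y| < 1 := by
    rw [abs_div, Nat.abs_cast, div_lt_one hy0]
    exact h
  have h2 := Real.hasSum_pow_div_log_of_abs_lt_one h1
  unfold ev
  have h3 : HasSum (fun m : ℕ => ((coeff m (lg g) : ℚ) : ℝ) * (1 / y) ^ m) (Real.log (1 - g / y)) := by
    rw [← hasSum_nat_add_iff' 1]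
    rw [Finset.sum_range_one]
    have h4 : ((coeff 0 (lg g) : ℚ) : ℝ) * (1 / y) ^ 0 = 0 := by
      rw [lg, coeff_mk]
      simp
    rw [h4, sub_zero]
    have h5 := h2.neg
    rw [neg_neg] at h5
    have h6 : (fun m : ℕ => ((coeff (m + 1) (lg g) : ℚ) : ℝ) * (1 / y) ^ (m + 1)) =
        fun m : ℕ => -(((g : ℝ) / y) ^ (m + 1) / ((m : ℝ) + 1)) := by
      funext m
      rw [lg, coeff_mk]
      push_cast
      rw [div_pow, div_pow, one_pow]
      ring
    rw [h6]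
    exact h5
  exact h3.tsum_eq

lemma ev_res (x : ℝ) (f : ℚ⟦X⟧) : ev x (PowerSeries.rescale (-1 : ℚ) f) = ev (-x) f := by
  unfold ev
  refine tsum_congr fun m => ?_
  rw [PowerSeries.coeff_rescale]
  push_cast
  have h1 : (1 / -x) ^ m = (-1 : ℝ) ^ m * (1 / x) ^ m := by
    rw [← mul_pow]
    congr 1
    rw [neg_one_mul, one_div, one_div, inv_neg]
  rw [h1]
  ring

lemma hS_sg (s fl : Bool) (i : Fin 4) (x : ℝ) : ev x (hS (sg s fl) i) = ev ((dr fl : ℝ) * x) (hS s i) := by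
  cases fl
  · have h1 : (dr false : ℝ) = 1 := by
      show (((1 : ℤ)) : ℝ) = 1
      norm_num
    rw [h1, one_mul]
    rfl
  · have h1 : (dr true : ℝ) = -1 := by
      show (((-1 : ℤ)) : ℝ) = -1
      norm_num
    rw [h1, neg_one_mul]
    cases s
    · show ev x (hJ i) = ev (-x) (PowerSeries.rescale (-1 : ℚ) (hJ i))
      rw [ev_res, neg_neg]
    · show ev x (PowerSeries.rescale (-1 : ℚ) (hJ i)) = ev (-x) (hJ i)
      rw [ev_res]

lemma dr_sq (fl : Bool) : (dr fl : ℝ) * (dr fl : ℝ) = 1 := by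
  cases fl
  · show (((1 : ℤ)) : ℝ) * (((1 : ℤ)) : ℝ) = 1
    norm_num
  · show (((-1 : ℤ)) : ℝ) * (((-1 : ℤ)) : ℝ) = 1
    norm_num

lemma dr_abs (fl : Bool) : |(dr fl : ℝ)| = 1 := by
  have h := dr_sq fl
  have h1 : |(dr fl : ℝ)| * |(dr fl : ℝ)| = 1 := by rw [← abs_mul, h, abs_one]
  have h2 := abs_nonneg (dr fl : ℝ)
  nlinarith

/-- the period functions from the values of the four series -/
lemma pS_val (σ : Bool) (x : ℝ) (ℓ : ℝ) (v : Fin 3 → ℂ) (h0 : v 0 = ((ev x (hS σ 0) : ℝ) : ℂ))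
    (h1 : v 1 = ((ev x (hS σ 2) : ℝ) : ℂ))
    (h2 : v 2 = ((-(ev x (hS σ 1) - ev x (hS σ 0) * (Real.log x - ℓ)) : ℝ) : ℂ)) :
    pS σ x = Zo (kp σ) (ℓ : ℂ) v := by
  have hq : ∀ j, pS σ x j = MvPolynomial.aeval (p1 (hS σ) x) (qS σ j) := fun _ => rfl
  set f : ℝ := ev x (hS σ 0) with hf
  set G : ℝ := ev x (hS σ 1) with hG
  set f1 : ℝ := ev x (hS σ 2) with hf1
  have a0 : MvPolynomial.aeval (p1 (hS σ) x) (qJ 0) = tpi * ((f : ℂ) * f) := by
    show MvPolynomial.aeval _ (MvPolynomial.C tpi * (MvPolynomial.X (some 0) * MvPolynomial.X (some 0))) = _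
    rw [map_mul, map_mul, MvPolynomial.aeval_X, MvPolynomial.aeval_C]
    rfl
  have a1 : MvPolynomial.aeval (p1 (hS σ) x) (qJ 1) =
      (f : ℂ) * ((G : ℂ) - ((Real.log x : ℝ) : ℂ) * f) := by
    show MvPolynomial.aeval _ (MvPolynomial.X (some 0) * (MvPolynomial.X (some 1) - MvPolynomial.X none * MvPolynomial.X (some 0))) = _
    rw [map_mul, map_sub, map_mul, MvPolynomial.aeval_X, MvPolynomial.aeval_X, MvPolynomial.aeval_X]
    rfl
  have a2 : MvPolynomial.aeval (p1 (hS σ) x) (qJ 2) = tpi * ((f : ℂ) * f1) := by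
    show MvPolynomial.aeval _ (MvPolynomial.C tpi * (MvPolynomial.X (some 0) * MvPolynomial.X (some 2))) = _
    rw [map_mul, map_mul, MvPolynomial.aeval_X, MvPolynomial.aeval_X, MvPolynomial.aeval_C]
    rfl
  funext j
  rw [hq]
  cases σ
  · fin_cases j
    · show MvPolynomial.aeval _ (qJ 0) = tpi * v 0 ^ 2
      rw [a0, h0]
      ring
    · show MvPolynomial.aeval _ (qJ 1 + MvPolynomial.C (1 / 2) * qJ 0) =
        v 0 * (-v 2 - (ℓ : ℂ) * v 0) + (if false = true then 0 else 1 / 2) * (tpi * v 0 ^ 2)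
      have h2' : (algebraMap ℂ ℂ) (1 / 2) = 1 / 2 := rfl
      rw [map_add, map_mul, MvPolynomial.aeval_C, h2', a0, a1, h0, h2, if_neg Bool.false_ne_true]
      push_cast
      ring
    · show MvPolynomial.aeval _ (qJ 2) = tpi * (v 0 * v 1)
      rw [a2, h0, h1]
  · fin_cases j
    · show MvPolynomial.aeval _ (qJ 0) = tpi * v 0 ^ 2
      rw [a0, h0]
      ring
    · show MvPolynomial.aeval _ (qJ 1) =
        v 0 * (-v 2 - (ℓ : ℂ) * v 0) + (if true = true then 0 else 1 / 2) * (tpi * v 0 ^ 2)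
      rw [a1, h0, h2, if_pos rfl]
      push_cast
      ring
    · show MvPolynomial.aeval _ (qJ 2) = tpi * (v 0 * v 1)
      rw [a2, h0, h1]

end PSa

open PSa in
theorem t_PS : S_PS := by
  intro s fl g
  obtain ⟨C, hC, hsz⟩ := size_hS s
  refine ⟨g + C + 1, fun m hm => ?_⟩
  have hg0 : (0 : ℝ) ≤ g := by positivity
  have hm0 : 0 < m := by linarith
  set y : ℝ := (dr fl : ℝ) * m with hy
  have hya : |y| = m := by rw [hy, abs_mul, dr_abs, one_mul, abs_of_pos hm0]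
  have hlt : (g : ℝ) + C < |y| := by rw [hya]; linarith
  have hlt' : (g : ℝ) < |y| := by linarith
  have hρ : 0 ≤ (g : ℝ) + C := by positivity
  have hx : (dr fl : ℝ) * (m - (dr fl : ℝ) * g) = y - g := by
    have := dr_sq fl
    rw [hy]
    linear_combination (-(g : ℝ)) * this
  have hval : ∀ i, ev y (sf g (hS s i)) = ev (m - (dr fl : ℝ) * g) (hS (sg s fl) i) := by
    intro i
    rw [ev_sf hC (hsz i) hlt, hS_sg, hx]
  have hlog : Real.log (m - (dr fl : ℝ) * g) - Real.log m = Real.log (1 - g / y) := by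
    have h1 : m - (dr fl : ℝ) * g = m * (1 - g / y) := by
      have h2 := dr_sq fl
      have h3 : (dr fl : ℝ) ≠ 0 := by
        intro h0
        rw [h0] at h2
        norm_num at h2
      rw [hy]
      field_simp
      linear_combination (-(g : ℝ)) * h2
    have h4 : 1 - (g : ℝ) / y ≠ 0 := by
      intro h0
      have h5 : |(g : ℝ) / y| = 1 := by
        have : (g : ℝ) / y = 1 := by linarith
        rw [this, abs_one]
      have h6 : |(g : ℝ) / y| < 1 := by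
        rw [abs_div, Nat.abs_cast, div_lt_one (by linarith)]
        exact hlt'
      linarith
    rw [h1, Real.log_mul hm0.ne' h4]
    ring
  refine pS_val _ _ _ _ ?_ ?_ ?_
  · show ((ev y (sf g (hS s 0)) : ℝ) : ℂ) = _
    rw [hval]
  · show ((ev y (sf g (hS s 2)) : ℝ) : ℂ) = _
    rw [hval]
  · show ((ev y (-(sf g (hS s 1) - sf g (hS s 0) * lg g)) : ℝ) : ℂ) = _
    have m0 := mem_sf hC (hsz 0) g
    have m1 := mem_sf hC (hsz 1) g
    have ml := mem_lg hC g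
    rw [ev_neg, sub_eq_add_neg, ev_add' hρ hlt m1 (by rw [map_neg, map_mul]; exact (Cw _).neg_mem ((Cw _).mul_mem m0 ml)),
      ev_neg, ev_mul' hρ hlt m0 ml, ev_lg' hlt', hval, hval, hlog]
    rfl

end Pool.Agent.V5helper46.GP
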