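import Pool.Agent.V5helper46.GP.Tup

/-!
# Project GP: the theorem on tuples of S-integers, from the jobs
-/

set_option autoImplicit false

open Pool.Agent.Y118.UL Pool.Agent.Y120.K Pool.Agent.Y120.J
open Pool.Agent.TH21.MS (jj)

namespace Pool.Agent.V5helper46.GP

/-- the canonical values of the coordinate `j` -/
noncomputable def Vn {k : ℕ} (x : Fin k → Dat) (j n : ℕ) : Fin 3 → ℂ := if h : j < k then (x ⟨j, h⟩).V n else 0

/-- conversion for large arguments -/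
theorem conv (hps : S_PS) (hcv : S_CV) {k : ℕ} (x : Fin k → Dat) (q D δ Mx : ℕ)
    (hMx : ∀ i, (x i).a₁ < Mx ∧ (x i).a₂ < Mx) : ∃ δ' n₀ : ℕ, ∀ (w : Fin q → ℂ) (n : Fin k → ℕ), (∀ i, n₀ ≤ n i) →
    (∀ i, ∀ l : ℕ, l.Prime → l ∣ n i → l < Mx) → ∀ z : Fin k → UpperHalfPlane,
    (∀ i, jj (z i) = ((si (x i).e : ℤ) : ℂ) * (((x i).r (n i) : ℚ) : ℂ)) →
    Rel D δ w (fun a : Fin k × Fin 3 => jt (z a.1) a.2) →
    Rel D δ' (ext Mx w) (fun a : Fin k × Fin 3 => (x a.1).V (n a.1) a.2) := by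
  classical
  obtain ⟨δ', T₀, h⟩ := hcv k q (q + Mx) 3 D δ
  choose C₀ hC₀ using fun i => hps (x i).s (x i).fl (x i).g
  -- the bound
  have hb : ∀ i, ∃ n₀ : ℕ, 1 ≤ n₀ ∧ ∀ n : ℕ, n₀ ≤ n → T₀ ≤ (((x i).r n : ℚ) : ℝ) ∧ C₀ i ≤ ((x i).a₁ : ℝ) * n / (x i).a₂ := by
    intro i
    have p1 : (1 : ℝ) ≤ (x i).a₁ := by exact_mod_cast (x i).h₁
    have p2 : (1 : ℝ) ≤ (x i).a₂ := by exact_mod_cast (x i).h₂
    obtain ⟨m, hm⟩ := exists_nat_ge ((|T₀| + |C₀ i| + (x i).g + 1) * (x i).a₂)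
    refine ⟨m + 1, by omega, fun n hn => ?_⟩
    have h1 : (m : ℝ) ≤ n := by exact_mod_cast (by omega : m ≤ n)
    have h2 : |T₀| + |C₀ i| + (x i).g + 1 ≤ ((x i).a₁ : ℝ) * n / (x i).a₂ := by
      rw [le_div_iff₀ (by linarith)]
      refine hm.trans (h1.trans ?_)
      nlinarith [(Nat.cast_nonneg n : (0 : ℝ) ≤ n)]
    have h3 : ((((x i).r n : ℚ)) : ℝ) = ((x i).a₁ : ℝ) * n / (x i).a₂ - ((dr (x i).fl : ℤ) : ℝ) * (x i).g := by
      unfold Dat.r
      push_cast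
      rfl
    have h4 : ((dr (x i).fl : ℤ) : ℝ) * (x i).g ≤ (x i).g := by
      have hg : (0 : ℝ) ≤ (x i).g := Nat.cast_nonneg _
      cases (x i).fl
      · simp [dr]
      · simp only [dr, if_true]
        push_cast
        linarith
    have h5 := le_abs_self T₀
    have h6 := le_abs_self (C₀ i)
    have h7 := abs_nonneg T₀
    have h8 := abs_nonneg (C₀ i)
    have hg : (0 : ℝ) ≤ (x i).g := Nat.cast_nonneg _
    refine ⟨?_, ?_⟩
    · rw [h3]
      linarith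
    · linarith
  choose N₀ hN1 hN₀ using hb
  refine ⟨δ', ∑ i, N₀ i, fun w n hn hpr z hz hR => ?_⟩
  have hle : ∀ i, N₀ i ≤ n i := fun i => (Finset.single_le_sum (fun _ _ => Nat.zero_le _) (Finset.mem_univ i)).trans (hn i)
  choose L hL using fun i => log_main w (x i) (hMx i).1 (hMx i).2 (n := n i)
    (by have := hN1 i; have := hle i; omega) (hpr i)
  refine h (Fin.castAdd Mx) id (fun i => (x i).e) (fun i => (x i).r (n i))
    (fun i => ((Real.log (((x i).a₁ : ℝ) * n i / (x i).a₂) : ℝ) : ℂ)) (fun i => (x i).V (n i)) (ext Mx w) L 0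
    Function.injective_id (fun _ _ => rfl) (fun i => (hN₀ i _ (hle i)).1) (fun i => ?_) (fun i => ?_) z hz ?_
  · rw [hL i]
    simp
  · have h1 := hC₀ i _ ((hN₀ i _ (hle i)).2)
    have h3 : ((((x i).r (n i) : ℚ)) : ℝ) = ((x i).a₁ : ℝ) * n i / (x i).a₂ - ((dr (x i).fl : ℤ) : ℝ) * (x i).g := by
      unfold Dat.r
      push_cast
      rfl
    rw [h3]
    exact h1
  · have h1 : (fun a => ext Mx w (Fin.castAdd Mx a)) = w := by
      funext a
      unfold ext
      rw [Fin.append_left]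
    rw [h1]
    exact hR

/-- **the theorem on tuples** -/
theorem fin1 (h0 : S_CT0) (hnr : S_NR) (hps : S_PS) (hcv : S_CV) (hin : S_IN) (hcn : S_CN) (hnu : S_NU) (htu : S_TU)
    (p : Finset ℕ) {k : ℕ} (x : Fin k → Dat) (q D δ : ℕ) :
    ∃ C : ℝ, ∀ (w : Fin q → ℂ) (X : ℝ), 16 ≤ X →
      {n : Fin k → ℕ | (∀ i, (n i : ℝ) ≤ X ∧ SNum p (n i)) ∧ ∃ z : Fin k → UpperHalfPlane,
        (∀ i, jj (z i) = ((si (x i).e : ℤ) : ℂ) * (((x i).r (n i) : ℚ) : ℂ)) ∧
        Rel D δ w (fun a : Fin k × Fin 3 => jt (z a.1) a.2)}.Finite ∧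
      ({n : Fin k → ℕ | (∀ i, (n i : ℝ) ≤ X ∧ SNum p (n i)) ∧ ∃ z : Fin k → UpperHalfPlane,
        (∀ i, jj (z i) = ((si (x i).e : ℤ) : ℂ) * (((x i).r (n i) : ℚ) : ℂ)) ∧
        Rel D δ w (fun a : Fin k × Fin 3 => jt (z a.1) a.2)}.ncard : ℝ) ≤
        C * Real.log X ^ (p.card * (k - 1)) * Real.log (Real.log X) := by
  classical
  -- the bound for the primes
  obtain ⟨Mx, hMp, hMa⟩ : ∃ Mx : ℕ, (∀ l ∈ p, l < Mx) ∧ ∀ i, (x i).a₁ < Mx ∧ (x i).a₂ < Mx := by
    refine ⟨∑ l ∈ p, l + ∑ i, ((x i).a₁ + (x i).a₂) + 1, fun l hl => ?_, fun i => ?_⟩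
    · have := Finset.single_le_sum (f := fun l : ℕ => l) (fun _ _ => Nat.zero_le _) hl
      beta_reduce at this
      omega
    · have := Finset.single_le_sum (f := fun i => (x i).a₁ + (x i).a₂) (fun _ _ => Nat.zero_le _) (Finset.mem_univ i)
      beta_reduce at this
      omega
  obtain ⟨δ', n₀, hconv⟩ := conv hps hcv x q D δ Mx hMa
  -- one point
  choose C₁ hC₁ using fun i : Fin k => one h0 hnr hcn p (x i) (q + Mx + i * 3) D δ'
  obtain ⟨CA, hCA⟩ := hnu p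
  set Cs : ℝ := ∑ i, |C₁ i| with hCs
  have hCs0 : 0 ≤ Cs := Finset.sum_nonneg fun i _ => abs_nonneg _
  refine ⟨k * |CA| ^ (k - 1) * (n₀ + Cs), fun w X hX => ?_⟩
  obtain ⟨hl1, hl2⟩ := loglog hX
  obtain ⟨hAf, hAc⟩ := hCA X hX
  set A : Finset ℕ := hAf.toFinset with hA
  have hmem : ∀ n : ℕ, n ∈ A ↔ (n : ℝ) ≤ X ∧ SNum p n := fun n => by
    rw [hA, Set.Finite.mem_toFinset]
    rfl
  have hAcard : (A.card : ℝ) ≤ |CA| * Real.log X ^ p.card := by
    rw [hA, ← Set.ncard_eq_toFinset_card _ hAf]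
    exact hAc.trans (mul_le_mul_of_nonneg_right (le_abs_self _) (by positivity))
  set M : ℝ := (n₀ + Cs) * Real.log (Real.log X) with hM
  have hM0 : 0 ≤ M := by positivity
  set Bad : (j : ℕ) → (Fin j → ℕ) → Prop := fun j m => (∃ i, m i < n₀) ∨
    Rel D δ' (ext Mx w) (fun a : Fin j × Fin 3 => Vn x a.1 (m a.1) a.2) with hBad
  have key := htu k A M Bad hM0 (fun m => ?_) (fun j hj m hm hmB => ?_)
  · -- the final count
    have hsub : {n : Fin k → ℕ | (∀ i, (n i : ℝ) ≤ X ∧ SNum p (n i)) ∧ ∃ z : Fin k → UpperHalfPlane,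
        (∀ i, jj (z i) = ((si (x i).e : ℤ) : ℂ) * (((x i).r (n i) : ℚ) : ℂ)) ∧
        Rel D δ w (fun a : Fin k × Fin 3 => jt (z a.1) a.2)} ⊆ {n : Fin k → ℕ | (∀ i, n i ∈ A) ∧ Bad k n} := by
      rintro n ⟨hn, z, hz, hR⟩
      refine ⟨fun i => (hmem _).2 (hn i), ?_⟩
      by_cases hs : ∃ i, n i < n₀
      · exact Or.inl hs
      · right
        push Not at hs
        have h1 := hconv w n hs (fun i l hl hd => hMp l ((hn i).2.2 l hl hd)) z hz hR
        have h2 : (fun a : Fin k × Fin 3 => Vn x a.1 (n a.1) a.2) = fun a : Fin k × Fin 3 => (x a.1).V (n a.1) a.2 := by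
          funext a
          unfold Vn
          rw [dif_pos a.1.2]
        rw [h2]
        exact h1
    have hfin : {n : Fin k → ℕ | (∀ i, n i ∈ A) ∧ Bad k n}.Finite := by
      refine (Fintype.piFinset fun _ : Fin k => A).finite_toSet.subset fun n hn => ?_
      rw [Finset.mem_coe, Fintype.mem_piFinset]
      exact hn.1
    refine ⟨hfin.subset hsub, ?_⟩
    have h1 : ({n : Fin k → ℕ | (∀ i, (n i : ℝ) ≤ X ∧ SNum p (n i)) ∧ ∃ z : Fin k → UpperHalfPlane,
        (∀ i, jj (z i) = ((si (x i).e : ℤ) : ℂ) * (((x i).r (n i) : ℚ) : ℂ)) ∧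
        Rel D δ w (fun a : Fin k × Fin 3 => jt (z a.1) a.2)}.ncard : ℝ) ≤
        ({n : Fin k → ℕ | (∀ i, n i ∈ A) ∧ Bad k n}.ncard : ℝ) := by
      exact_mod_cast Set.ncard_le_ncard hsub hfin
    refine h1.trans (key.trans ?_)
    have h2 : (A.card : ℝ) ^ (k - 1) ≤ (|CA| * Real.log X ^ p.card) ^ (k - 1) :=
      pow_le_pow_left₀ (Nat.cast_nonneg _) hAcard _
    calc (k : ℝ) * (A.card : ℝ) ^ (k - 1) * M ≤ k * (|CA| * Real.log X ^ p.card) ^ (k - 1) * M := by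
          refine mul_le_mul_of_nonneg_right (mul_le_mul_of_nonneg_left h2 (Nat.cast_nonneg _)) hM0
      _ = _ := by
          rw [mul_pow, ← pow_mul, hM]
          ring
  · -- the empty tuple
    rintro (⟨i, -⟩ | ⟨K, -, -, P, -, h1, u, hu⟩)
    · exact i.elim0
    · apply hu
      have h2 : u = fun a : Fin 0 × Fin 3 => Vn x a.1 (m a.1) a.2 := funext fun a => a.1.elim0
      rw [h2]
      exact h1
  · -- one more coordinate
    have hj' : j < k := hj
    have hsub : {n : ℕ | n ∈ A ∧ Bad (j + 1) (Fin.snoc m n)} ⊆ ((Finset.range n₀ : Finset ℕ) : Set ℕ) ∪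
        {n : ℕ | (n : ℝ) ≤ X ∧ SNum p n ∧ Rel D δ' (Fin.append (ext Mx w) fun i : Fin (j * 3) =>
          Vn x (finProdFinEquiv.symm i).1 (m (finProdFinEquiv.symm i).1) (finProdFinEquiv.symm i).2)
          ((x ⟨j, hj'⟩).V n)} := by
      rintro n ⟨hnA, hB⟩
      have hnA' := (hmem n).1 hnA
      have hms : ¬ ∃ i, m i < n₀ := fun h => hmB (Or.inl h)
      rcases hB with ⟨i, hi⟩ | hR
      · revert hi
        refine Fin.lastCases ?_ (fun i => ?_) i
        · intro hi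
          rw [Fin.snoc_last] at hi
          left
          rw [Finset.mem_coe, Finset.mem_range]
          exact hi
        · intro hi
          rw [Fin.snoc_castSucc] at hi
          exact absurd ⟨i, hi⟩ hms
      · right
        have h1 := hin 3 j (q + Mx) D δ' (ext Mx w)
          (fun i : Fin (j + 1) => Vn x i ((Fin.snoc m n : Fin (j + 1) → ℕ) i)) hR
        simp only [Fin.snoc_castSucc, Fin.snoc_last, Fin.val_castSucc, Fin.val_last] at h1
        rcases h1 with h1 | h1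
        · exact absurd (Or.inr h1) hmB
        · refine ⟨hnA'.1, hnA'.2, ?_⟩
          have h2 : Vn x j n = (x ⟨j, hj'⟩).V n := by
            unfold Vn
            rw [dif_pos hj']
          rw [← h2]
          exact h1
    have h3 := hC₁ ⟨j, hj'⟩ (Fin.append (ext Mx w) fun i : Fin (j * 3) =>
          Vn x (finProdFinEquiv.symm i).1 (m (finProdFinEquiv.symm i).1) (finProdFinEquiv.symm i).2) X hX
    have hfin : {n : ℕ | (n : ℝ) ≤ X ∧ SNum p n ∧ Rel D δ' (Fin.append (ext Mx w) fun i : Fin (j * 3) =>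
          Vn x (finProdFinEquiv.symm i).1 (m (finProdFinEquiv.symm i).1) (finProdFinEquiv.symm i).2)
          ((x ⟨j, hj'⟩).V n)}.Finite := hAf.subset fun n hn => ⟨hn.1, hn.2.1⟩
    have h4 := (Set.ncard_le_ncard hsub ((Finset.finite_toSet _).union hfin)).trans (Set.ncard_union_le _ _)
    rw [Set.ncard_coe_finset, Finset.card_range] at h4
    have h5 : |C₁ ⟨j, hj'⟩| ≤ Cs := Finset.single_le_sum (f := fun i => |C₁ i|) (fun i _ => abs_nonneg _)
      (Finset.mem_univ (⟨j, hj'⟩ : Fin k))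
    have h6 : (({n : ℕ | n ∈ A ∧ Bad (j + 1) (Fin.snoc m n)}.ncard : ℕ) : ℝ) ≤
        n₀ + C₁ ⟨j, hj'⟩ * Real.log (Real.log X) := by
      have h7 := (Nat.cast_le (α := ℝ)).2 h4
      rw [Nat.cast_add] at h7
      exact h7.trans (add_le_add le_rfl h3)
    calc (({n : ℕ | n ∈ A ∧ Bad (j + 1) (Fin.snoc m n)}.ncard : ℕ) : ℝ) ≤
          n₀ + C₁ ⟨j, hj'⟩ * Real.log (Real.log X) := h6
      _ ≤ n₀ * Real.log (Real.log X) + Cs * Real.log (Real.log X) := by
          refine add_le_add ?_ (mul_le_mul_of_nonneg_right ((le_abs_self _).trans h5) (by linarith))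
          exact le_mul_of_one_le_right (Nat.cast_nonneg _) hl2
      _ = M := by
          rw [hM]
          ring

end Pool.Agent.V5helper46.GP
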