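import Pool.Agent.V5helper46.GP.One2

/-!
# Project GP, second part: tuples of values of polynomials
-/

set_option autoImplicit false

open Pool.Agent.Y118.UL Pool.Agent.Y120.K Pool.Agent.Y120.J
open Pool.Agent.TH21.MS (jj)
open Filter Topology

namespace Pool.Agent.V5helper46.GP

lemma v_real (x : Dat2) (n : ℕ) : ((x.v n : ℚ) : ℝ) = (n : ℝ) ^ x.d * Polynomial.aeval (1 / (n : ℝ)) x.p / x.c := by
  have h1 : ((Polynomial.aeval (1 / (n : ℚ)) x.p : ℚ) : ℝ) = Polynomial.aeval (1 / (n : ℝ)) x.p := by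
    have h2 : (1 / (n : ℝ)) = algebraMap ℚ ℝ (1 / (n : ℚ)) := by
      rw [eq_ratCast]
      push_cast
      rfl
    rw [h2, Polynomial.aeval_algebraMap_apply, eq_ratCast]
  unfold Dat2.v
  push_cast
  rw [h1]

/-- the invariants tend to infinity -/
lemma v_large (x : Dat2) (T : ℝ) : ∀ᶠ n : ℕ in atTop, T ≤ |((x.v n : ℚ) : ℝ)| := by
  have hc : (0 : ℝ) < x.c := by exact_mod_cast x.hc
  set a : ℝ := |((x.p.coeff 0 : ℤ) : ℝ)| with ha
  have ha0 : 0 < a := abs_pos.2 (by exact_mod_cast x.hp)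
  have h1 : Tendsto (fun n : ℕ => |Polynomial.aeval (1 / (n : ℝ)) x.p|) atTop (𝓝 a) := by
    have h2 : Tendsto (fun n : ℕ => (1 : ℝ) / n) atTop (𝓝 0) := tendsto_one_div_atTop_nhds_zero_nat
    have h3 : Continuous fun y : ℝ => |Polynomial.aeval y x.p| := (Polynomial.continuous_aeval x.p).abs
    have h4 := (h3.tendsto 0).comp h2
    have h5 : |Polynomial.aeval (0 : ℝ) x.p| = a := by
      rw [ha, Polynomial.aeval_def, Polynomial.eval₂_at_zero]
      simp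
    rw [h5] at h4
    exact h4
  have h2 : ∀ᶠ n : ℕ in atTop, a / 2 < |Polynomial.aeval (1 / (n : ℝ)) x.p| :=
    h1.eventually (lt_mem_nhds (by linarith))
  obtain ⟨m, hm⟩ := exists_nat_ge (|T| * x.c * 2 / a)
  filter_upwards [h2, eventually_ge_atTop (max m 1)] with n hn hnm
  rw [v_real, abs_div, abs_mul, abs_pow, abs_of_pos hc, le_div_iff₀ hc]
  have hn1 : (1 : ℝ) ≤ n := by exact_mod_cast (le_max_right m 1).trans hnm
  have hnm' : (m : ℝ) ≤ n := by exact_mod_cast (le_max_left m 1).trans hnm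
  have h3 : (n : ℝ) ≤ |(n : ℝ)| ^ x.d := by
    rw [abs_of_nonneg (by linarith)]
    exact le_self_pow₀ hn1 (by have := x.hd; omega)
  have h4 : |T| * x.c ≤ n * (a / 2) := by
    have h5 := hm.trans hnm'
    rw [div_le_iff₀ ha0] at h5
    linarith
  calc T * x.c ≤ |T| * x.c := mul_le_mul_of_nonneg_right (le_abs_self T) hc.le
    _ ≤ n * (a / 2) := h4
    _ ≤ |(n : ℝ)| ^ x.d * |Polynomial.aeval (1 / (n : ℝ)) x.p| :=
        mul_le_mul h3 hn.le (by positivity) (by positivity)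

/-- the canonical values of the coordinate `j` -/
noncomputable def Vn2 {k : ℕ} (x : Fin k → Dat2) (j n : ℕ) : Fin 4 → ℂ := if h : j < k then (x ⟨j, h⟩).V n else 0

/-- conversion for large arguments -/
theorem conv2 (hpq : S_PQ) (hcv : S_CV) {k : ℕ} (x : Fin k → Dat2) (q D δ Mx : ℕ)
    (hMx : ∀ i, (x i).c < Mx ∧ ((x i).p.coeff 0).natAbs < Mx) : ∃ δ' n₀ : ℕ, ∀ (w : Fin q → ℂ) (n : Fin k → ℕ),
    (∀ i, n₀ ≤ n i) → ∀ z : Fin k → UpperHalfPlane, (∀ i, jj (z i) = (((x i).v (n i) : ℚ) : ℂ)) →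
    Rel D δ w (fun a : Fin k × Fin 3 => jt (z a.1) a.2) →
    Rel D δ' (ext Mx w) (fun a : Fin k × Fin 4 => (x a.1).V (n a.1) a.2) := by
  classical
  obtain ⟨δ', T₀, h⟩ := hcv k q (q + Mx) 4 D δ
  have hs : ∀ i, ∃ s : Bool, (s = true ↔ 0 < (x i).p.coeff 0) := fun i => by
    by_cases h0 : 0 < (x i).p.coeff 0
    · exact ⟨true, by simp [h0]⟩
    · exact ⟨false, by simp [h0]⟩
  choose s hs using hs
  choose C₀ hC₀ hPQ using fun i => hpq (x i).c (x i).d (x i).p (x i).hc (x i).hd (x i).hp (s i) (hs i)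
  have hb : ∀ i, ∃ n₀ : ℕ, ∀ n : ℕ, n₀ ≤ n → T₀ ≤ |(((x i).v n : ℚ) : ℝ)| ∧ C₀ i ≤ (n : ℝ) := by
    intro i
    exact eventually_atTop.1 ((v_large (x i) T₀).and (tendsto_natCast_atTop_atTop.eventually_ge_atTop (C₀ i)))
  choose N₀ hN₀ using hb
  refine ⟨δ', ∑ i, N₀ i, fun w n hn z hz hR => ?_⟩
  have hle : ∀ i, N₀ i ≤ n i := fun i => (Finset.single_le_sum (fun _ _ => Nat.zero_le _) (Finset.mem_univ i)).trans (hn i)
  -- the logarithms
  have hL : ∀ i, ∃ L : Fin (q + Mx) → ℚ, ((Real.log (|(((x i).p.coeff 0 : ℤ) : ℝ)| / (x i).c) : ℝ) : ℂ) =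
      ∑ l, (L l : ℂ) * ext Mx w l := by
    intro i
    obtain ⟨L1, e1⟩ := log_small w (hMx i).2
    obtain ⟨L2, e2⟩ := log_small w (hMx i).1
    refine ⟨fun l => L1 l - L2 l, ?_⟩
    have p1 : (0 : ℝ) < |(((x i).p.coeff 0 : ℤ) : ℝ)| := abs_pos.2 (by exact_mod_cast (x i).hp)
    have p2 : (0 : ℝ) < (x i).c := by exact_mod_cast (x i).hc
    have p3 : |(((x i).p.coeff 0 : ℤ) : ℝ)| = ((((x i).p.coeff 0).natAbs : ℕ) : ℝ) := by
      rw [Nat.cast_natAbs, Int.cast_abs]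
    rw [Real.log_div p1.ne' p2.ne', p3, Complex.ofReal_sub, e1, e2, ← Finset.sum_sub_distrib]
    push_cast
    exact Finset.sum_congr rfl fun l _ => by ring
  choose L hL using hL
  have hr : ∀ i, ((|(x i).v (n i)| : ℚ) : ℝ) = |(n i : ℝ) ^ (x i).d * Polynomial.aeval (1 / (n i : ℝ)) (x i).p / (x i).c| := by
    intro i
    rw [Rat.cast_abs, v_real]
  refine h (Fin.castAdd Mx) Fin.castSucc s (fun i => |(x i).v (n i)|)
    (fun i => ((x i).d : ℂ) * ((Real.log (n i) : ℝ) : ℂ) + ((Real.log (|(((x i).p.coeff 0 : ℤ) : ℝ)| / (x i).c) : ℝ) : ℂ))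
    (fun i => (x i).V (n i)) (ext Mx w) L (fun i j => if j = Fin.last 3 then ((x i).d : ℚ) else 0)
    (Fin.castSucc_injective 3) (fun i j => if_neg (Fin.castSucc_lt_last j).ne) (fun i => ?_) (fun i => ?_) (fun i => ?_) z
    (fun i => ?_) ?_
  · rw [Rat.cast_abs]
    exact (hN₀ i _ (hle i)).1
  · rw [← hL i, add_comm]
    congr 1
    rw [Finset.sum_eq_single (Fin.last 3)]
    · rw [if_pos rfl]
      unfold Dat2.V
      rw [Fin.snoc_last]
      push_cast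
      rfl
    · intro j _ hj
      rw [if_neg hj]
      simp
    · intro h
      exact absurd (Finset.mem_univ _) h
  · obtain ⟨-, h2⟩ := hPQ i (n i) (hN₀ i _ (hle i)).2
    rw [hr i, h2]
    congr 1
    funext j
    unfold Dat2.V
    rw [Fin.snoc_castSucc]
  · obtain ⟨h1, -⟩ := hPQ i (n i) (hN₀ i _ (hle i)).2
    rw [← hr i, ← v_real] at h1
    rw [hz i]
    have h2 : ((((x i).v (n i) : ℚ) : ℝ) : ℂ) = ((((si (s i) : ℤ) : ℝ) * ((|(x i).v (n i)| : ℚ) : ℝ) : ℝ) : ℂ) :=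
      congrArg _ h1
    rw [Complex.ofReal_mul, Complex.ofReal_ratCast, Complex.ofReal_ratCast, Complex.ofReal_intCast] at h2
    exact h2
  · have h1 : (fun a => ext Mx w (Fin.castAdd Mx a)) = w := by
      funext a
      unfold ext
      rw [Fin.append_left]
    rw [h1]
    exact hR

/-- **the theorem on tuples of values of polynomials** -/
theorem fin2 (hnq : S_NQ) (hcq : S_CQ) (hpq : S_PQ) (hcv : S_CV) (hin : S_IN) (htu : S_TU)
    {k : ℕ} (hk : 1 ≤ k) (x : Fin k → Dat2) (q D δ : ℕ) :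
    ∃ c C : ℝ, 0 < c ∧ ∀ (w : Fin q → ℂ) (N : ℕ), 1 ≤ N →
      {n : Fin k → ℕ | (∀ i, n i ≤ N) ∧ ∃ z : Fin k → UpperHalfPlane, (∀ i, jj (z i) = (((x i).v (n i) : ℚ) : ℂ)) ∧
        Rel D δ w (fun a : Fin k × Fin 3 => jt (z a.1) a.2)}.Finite ∧
      ({n : Fin k → ℕ | (∀ i, n i ≤ N) ∧ ∃ z : Fin k → UpperHalfPlane, (∀ i, jj (z i) = (((x i).v (n i) : ℚ) : ℂ)) ∧
        Rel D δ w (fun a : Fin k × Fin 3 => jt (z a.1) a.2)}.ncard : ℝ) ≤ C * (N : ℝ) ^ ((k : ℝ) - c) := by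
  classical
  obtain ⟨Mx, hMa⟩ : ∃ Mx : ℕ, ∀ i, (x i).c < Mx ∧ ((x i).p.coeff 0).natAbs < Mx := by
    refine ⟨∑ i, ((x i).c + ((x i).p.coeff 0).natAbs) + 1, fun i => ?_⟩
    have := Finset.single_le_sum (f := fun i => (x i).c + ((x i).p.coeff 0).natAbs) (fun _ _ => Nat.zero_le _) (Finset.mem_univ i)
    beta_reduce at this
    omega
  obtain ⟨δ', n₀, hconv⟩ := conv2 hpq hcv x q D δ Mx hMa
  choose c₁ C₁ hc₁ hC₁ hcount using fun i : Fin k => one2 hnq hcq (x i) (q + Mx + i * 4) D δ'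
  have hne : (Finset.univ : Finset (Fin k)).Nonempty := ⟨⟨0, hk⟩, Finset.mem_univ _⟩
  obtain ⟨i₀, -, hi₀⟩ := Finset.exists_min_image Finset.univ c₁ hne
  set c : ℝ := min (c₁ i₀) 1 with hc
  have hc0 : 0 < c := lt_min (hc₁ i₀) one_pos
  have hc1 : c ≤ 1 := min_le_right _ _
  have hcj : ∀ j, c ≤ c₁ j := fun j => (min_le_left _ _).trans (hi₀ j (Finset.mem_univ _))
  set Cs : ℝ := ∑ i, C₁ i with hCs
  have hCs0 : 0 ≤ Cs := Finset.sum_nonneg fun i _ => hC₁ i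
  refine ⟨c, k * 2 ^ (k - 1) * (n₀ + Cs), hc0, fun w N hN => ?_⟩
  have hN1 : (1 : ℝ) ≤ N := by exact_mod_cast hN
  have hN0 : (0 : ℝ) < N := by linarith
  set A : Finset ℕ := Finset.range (N + 1) with hA
  have hmem : ∀ n : ℕ, n ∈ A ↔ n ≤ N := fun n => by
    rw [hA, Finset.mem_range]
    omega
  have hAcard : (A.card : ℝ) ≤ 2 * N := by
    rw [hA, Finset.card_range]
    push_cast
    linarith
  set M : ℝ := (n₀ + Cs) * (N : ℝ) ^ (1 - c) with hM
  have hM0 : 0 ≤ M := by positivity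
  set Bad : (j : ℕ) → (Fin j → ℕ) → Prop := fun j m => (∃ i, m i < n₀) ∨
    Rel D δ' (ext Mx w) (fun a : Fin j × Fin 4 => Vn2 x a.1 (m a.1) a.2) with hBad
  have key := htu k A M Bad hM0 (fun m => ?_) (fun j hj m hm hmB => ?_)
  · have hsub : {n : Fin k → ℕ | (∀ i, n i ≤ N) ∧ ∃ z : Fin k → UpperHalfPlane,
        (∀ i, jj (z i) = (((x i).v (n i) : ℚ) : ℂ)) ∧
        Rel D δ w (fun a : Fin k × Fin 3 => jt (z a.1) a.2)} ⊆ {n : Fin k → ℕ | (∀ i, n i ∈ A) ∧ Bad k n} := by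
      rintro n ⟨hn, z, hz, hR⟩
      refine ⟨fun i => (hmem _).2 (hn i), ?_⟩
      by_cases hs : ∃ i, n i < n₀
      · exact Or.inl hs
      · right
        push Not at hs
        have h1 := hconv w n hs z hz hR
        have h2 : (fun a : Fin k × Fin 4 => Vn2 x a.1 (n a.1) a.2) = fun a : Fin k × Fin 4 => (x a.1).V (n a.1) a.2 := by
          funext a
          unfold Vn2
          rw [dif_pos a.1.2]
        rw [h2]
        exact h1
    have hfin : {n : Fin k → ℕ | (∀ i, n i ∈ A) ∧ Bad k n}.Finite := by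
      refine (Fintype.piFinset fun _ : Fin k => A).finite_toSet.subset fun n hn => ?_
      rw [Finset.mem_coe, Fintype.mem_piFinset]
      exact hn.1
    refine ⟨hfin.subset hsub, ?_⟩
    have h1 : ({n : Fin k → ℕ | (∀ i, n i ≤ N) ∧ ∃ z : Fin k → UpperHalfPlane,
        (∀ i, jj (z i) = (((x i).v (n i) : ℚ) : ℂ)) ∧
        Rel D δ w (fun a : Fin k × Fin 3 => jt (z a.1) a.2)}.ncard : ℝ) ≤
        ({n : Fin k → ℕ | (∀ i, n i ∈ A) ∧ Bad k n}.ncard : ℝ) := by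
      exact_mod_cast Set.ncard_le_ncard hsub hfin
    refine h1.trans (key.trans ?_)
    have h2 : (A.card : ℝ) ^ (k - 1) ≤ (2 * N) ^ (k - 1) := pow_le_pow_left₀ (Nat.cast_nonneg _) hAcard _
    have h3 : (N : ℝ) ^ (k - 1) * (N : ℝ) ^ (1 - c) = (N : ℝ) ^ ((k : ℝ) - c) := by
      rw [← Real.rpow_natCast, ← Real.rpow_add hN0]
      congr 1
      rw [Nat.cast_sub hk]
      push_cast
      ring
    calc (k : ℝ) * (A.card : ℝ) ^ (k - 1) * M ≤ k * (2 * N) ^ (k - 1) * M := by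
          refine mul_le_mul_of_nonneg_right (mul_le_mul_of_nonneg_left h2 (Nat.cast_nonneg _)) hM0
      _ = k * 2 ^ (k - 1) * (n₀ + Cs) * ((N : ℝ) ^ (k - 1) * (N : ℝ) ^ (1 - c)) := by
          rw [mul_pow, hM]
          ring
      _ = _ := by rw [h3]
  · rintro (⟨i, -⟩ | ⟨K, -, -, P, -, h1, u, hu⟩)
    · exact i.elim0
    · apply hu
      have h2 : u = fun a : Fin 0 × Fin 4 => Vn2 x a.1 (m a.1) a.2 := funext fun a => a.1.elim0
      rw [h2]
      exact h1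
  · have hj' : j < k := hj
    have hsub : {n : ℕ | n ∈ A ∧ Bad (j + 1) (Fin.snoc m n)} ⊆ ((Finset.range n₀ : Finset ℕ) : Set ℕ) ∪
        {n : ℕ | n ≤ N ∧ Rel D δ' (Fin.append (ext Mx w) fun i : Fin (j * 4) =>
          Vn2 x (finProdFinEquiv.symm i).1 (m (finProdFinEquiv.symm i).1) (finProdFinEquiv.symm i).2)
          ((x ⟨j, hj'⟩).V n)} := by
      rintro n ⟨hnA, hB⟩
      have hms : ¬ ∃ i, m i < n₀ := fun h => hmB (Or.inl h)
      rcases hB with ⟨i, hi⟩ | hR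
      · revert hi
        refine Fin.lastCases ?_ (fun i => ?_) i
        · intro hi
          rw [Fin.snoc_last] at hi
          left
          rw [Finset.mem_coe, Finset.mem_range]
          exact hi
        · intro hi
          rw [Fin.snoc_castSucc] at hi
          exact absurd ⟨i, hi⟩ hms
      · right
        have h1 := hin 4 j (q + Mx) D δ' (ext Mx w)
          (fun i : Fin (j + 1) => Vn2 x i ((Fin.snoc m n : Fin (j + 1) → ℕ) i)) hR
        simp only [Fin.snoc_castSucc, Fin.snoc_last, Fin.val_castSucc, Fin.val_last] at h1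
        rcases h1 with h1 | h1
        · exact absurd (Or.inr h1) hmB
        · refine ⟨(hmem n).1 hnA, ?_⟩
          have h2 : Vn2 x j n = (x ⟨j, hj'⟩).V n := by
            unfold Vn2
            rw [dif_pos hj']
          rw [← h2]
          exact h1
    have h3 := hcount ⟨j, hj'⟩ (Fin.append (ext Mx w) fun i : Fin (j * 4) =>
          Vn2 x (finProdFinEquiv.symm i).1 (m (finProdFinEquiv.symm i).1) (finProdFinEquiv.symm i).2) N hN
    have hfin : {n : ℕ | n ≤ N ∧ Rel D δ' (Fin.append (ext Mx w) fun i : Fin (j * 4) =>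
          Vn2 x (finProdFinEquiv.symm i).1 (m (finProdFinEquiv.symm i).1) (finProdFinEquiv.symm i).2)
          ((x ⟨j, hj'⟩).V n)}.Finite := (Set.finite_Iic N).subset fun n hn => hn.1
    have h4 := (Set.ncard_le_ncard hsub ((Finset.finite_toSet _).union hfin)).trans (Set.ncard_union_le _ _)
    rw [Set.ncard_coe_finset, Finset.card_range] at h4
    have h5 : C₁ ⟨j, hj'⟩ ≤ Cs := Finset.single_le_sum (f := fun i => C₁ i) (fun i _ => hC₁ i)
      (Finset.mem_univ (⟨j, hj'⟩ : Fin k))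
    have h6 : (({n : ℕ | n ∈ A ∧ Bad (j + 1) (Fin.snoc m n)}.ncard : ℕ) : ℝ) ≤
        n₀ + C₁ ⟨j, hj'⟩ * (N : ℝ) ^ (1 - c₁ ⟨j, hj'⟩) := by
      have h7 := (Nat.cast_le (α := ℝ)).2 h4
      rw [Nat.cast_add] at h7
      exact h7.trans (add_le_add le_rfl h3)
    have h8 : (1 : ℝ) ≤ (N : ℝ) ^ (1 - c) := Real.one_le_rpow hN1 (by linarith)
    have h9 : (N : ℝ) ^ (1 - c₁ ⟨j, hj'⟩) ≤ (N : ℝ) ^ (1 - c) :=
      Real.rpow_le_rpow_of_exponent_le hN1 (by have := hcj ⟨j, hj'⟩; linarith)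
    calc (({n : ℕ | n ∈ A ∧ Bad (j + 1) (Fin.snoc m n)}.ncard : ℕ) : ℝ) ≤
          n₀ + C₁ ⟨j, hj'⟩ * (N : ℝ) ^ (1 - c₁ ⟨j, hj'⟩) := h6
      _ ≤ n₀ * (N : ℝ) ^ (1 - c) + Cs * (N : ℝ) ^ (1 - c) := by
          refine add_le_add ?_ (mul_le_mul h5 h9 (by positivity) hCs0)
          exact le_mul_of_one_le_right (Nat.cast_nonneg _) h8
      _ = M := by
          rw [hM]
          ring

end Pool.Agent.V5helper46.GP
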