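import Pool.Agent.V5helper46.GP.Win

/-!
# Project GP: one point, counting
-/

set_option autoImplicit false

open Pool.Agent.Y118.UL Pool.Agent.Y120.K

namespace Pool.Agent.V5helper46.GP

/-- the data of one coordinate: `j = si (sg s fl) * (a n - dr fl * g)`, `a = a₁ / a₂` -/
structure Dat where
  s : Bool
  fl : Bool
  g : ℕ
  a₁ : ℕ
  a₂ : ℕ
  h₁ : 1 ≤ a₁
  h₂ : 1 ≤ a₂
  ok : 1 ≤ g ∨ s = true

/-- the canonical values at `n` -/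
noncomputable def Dat.V (x : Dat) (n : ℕ) : Fin 3 → ℂ := vC x.s x.g ((dr x.fl : ℝ) * ((x.a₁ : ℝ) * n / x.a₂))

/-- all families have analytic continuations -/
theorem cont_ok (h0 : S_CT0) {s : Bool} {g : ℕ} (h : 1 ≤ g ∨ s = true) :
    ∃ (z : ℝ) (u : ℝ → Fin 4 → ℝ), Cont (fJ s g) z u := by
  rcases Nat.eq_zero_or_pos g with h1 | h1
  · rcases h with h2 | h2
    · omega
    · subst h1 h2
      exact h0
  · refine ⟨z1 s g, ut s g, ?_, fun x hx i => ((hu s g h1).1 x hx i), (hu s g h1).2.1, hsb s g h1⟩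
    exact Pool.Agent.Y167.K.z1_pos s h1

lemma dr_sq (fl : Bool) : ((dr fl : ℤ) : ℝ) * ((dr fl : ℤ) : ℝ) = 1 := by
  cases fl <;> norm_num [dr]

/-- the value at a quotient -/
lemma V_div (x : Dat) {N β : ℕ} (hβ : 1 ≤ β) (hd : β ∣ N) :
    vB x.s x.fl x.g (x.a₁ * N) (x.a₂ * β) = x.V (N / β) := by
  obtain ⟨n, rfl⟩ := hd
  have h2 : (0 : ℝ) < x.a₂ := by exact_mod_cast x.h₂
  have hβ' : (0 : ℝ) < β := by exact_mod_cast hβ
  unfold vB Dat.V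
  rw [Nat.mul_div_cancel_left n (by omega)]
  congr 1
  have h3 : max (x.a₂ * β) 1 = x.a₂ * β := max_eq_left (Nat.mul_pos x.h₂ hβ)
  unfold sc
  rw [h3]
  have h4 := dr_sq x.fl
  have h5 : ((dr x.fl : ℤ) : ℝ) ≠ 0 := by
    intro h
    rw [h] at h4
    norm_num at h4
  push_cast
  rw [div_eq_iff (mul_ne_zero h5 (mul_ne_zero h2.ne' hβ'.ne'))]
  field_simp
  linear_combination (-(x.a₁ : ℝ) * n) * h4

theorem one (h0 : S_CT0) (hnr : S_NR) (hcn : S_CN) (p : Finset ℕ) (x : Dat) (q D δ : ℕ) : ∃ C : ℝ, ∀ w : Fin q → ℂ,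
    ∀ X : ℝ, 16 ≤ X → ({n : ℕ | (n : ℝ) ≤ X ∧ SNum p n ∧ Rel D δ w (x.V n)}.ncard : ℝ) ≤ C * Real.log (Real.log X) := by
  classical
  obtain ⟨E, hE⟩ := win1 (hnr x.s x.fl x.g (cont_ok h0 x.ok)) q D δ
  obtain ⟨C, hC⟩ := hcn p (E * (x.a₂ + 1)) (q + 1)
  refine ⟨C, fun w X hX => hC {n | Rel D δ w (x.V n)} (fun N H hN => ?_) X hX⟩
  have hb : x.a₂ * H + 2 ≤ (H + 2) ^ (x.a₂ + 1) := by
    have h1 : x.a₂ + 1 ≤ 2 ^ x.a₂ := Nat.lt_two_pow_self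
    have h2 : 2 ^ x.a₂ ≤ (H + 2) ^ x.a₂ := Nat.pow_le_pow_left (by omega) _
    have h3 : (x.a₂ + 1) * (H + 2) ≤ (H + 2) ^ (x.a₂ + 1) := by
      rw [pow_succ]
      exact Nat.mul_le_mul_right _ (h1.trans h2)
    nlinarith [x.h₂]
  have ht : (x.a₂ * H + 2) ^ E ≤ x.a₁ * N := by
    calc (x.a₂ * H + 2) ^ E ≤ ((H + 2) ^ (x.a₂ + 1)) ^ E := Nat.pow_le_pow_left hb _
      _ = (H + 2) ^ (E * (x.a₂ + 1)) := by rw [← pow_mul, mul_comm]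
      _ ≤ N := hN
      _ ≤ x.a₁ * N := Nat.le_mul_of_pos_left _ x.h₁
  obtain ⟨S, hS, h⟩ := hE (x.a₂ * H) (x.a₁ * N) ht w
  refine ⟨S.image fun b => b / x.a₂, Finset.card_image_le.trans hS, fun β h1 hH hd hB => ?_⟩
  rw [Finset.mem_image]
  by_contra hcon
  push Not at hcon
  have h2 := x.h₂
  have h3 : x.a₂ * β ∉ S := fun h3 => hcon _ h3 (Nat.mul_div_cancel_left β (by omega))
  refine h (x.a₂ * β) (Nat.mul_pos x.h₂ h1) (Nat.mul_le_mul_left _ hH) h3 ?_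
  rw [V_div x h1 hd]
  exact hB

end Pool.Agent.V5helper46.GP
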