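import Pool.Agent.V5helper46.GP.Stm

/-!
# Project GP, second part (helper46), problem MP_ede373_nt: invariants `P (n)`, `P` a nonconstant polynomial

`1 / P(1 / x) = R(x) = c x ^ d / p(x)`, `c, d ≥ 1`, `p ∈ ℤ[x]`, `p(0) ≠ 0` (so `P(y) = y ^ d p(1 / y) / c`; `P` is a polynomial
if `deg p ≤ d`, but this is not needed). The functions are `F(R(x))`, `θF(R(x))`, `-(G(R(x)) - F(R(x)) log (p(x) / p(0)))` at the
points `x = 1 / (t - G u)` (shift windows of the general theorem `Pool.Agent.Y118.UL.fam`).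
-/

set_option autoImplicit false

open PowerSeries Pool.Agent.Y113 Pool.Agent.Y120.J Pool.Agent.Y120.K
open Filter Topology

namespace Pool.Agent.V5helper46.GP

/-- the series `R = c x ^ d / p(x)` -/
noncomputable def Rs (c d : ℕ) (p : Polynomial ℤ) : ℚ⟦X⟧ := C (c : ℚ) * X ^ d * (ps p)⁻¹

/-- the series `log (p(x) / p(0))` -/
noncomputable def Lp (p : Polynomial ℤ) : ℚ⟦X⟧ :=
  PowerSeries.mk fun n => if n = 0 then 0 else coeff (n - 1) (ps (Polynomial.derivative p) * (ps p)⁻¹) / (n : ℚ)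

/-- `F`, `G`, `θF`, `θG + F` at `R` (`hJ = ![FF, GG, F1, G1]`) -/
noncomputable def hR (c d : ℕ) (p : Polynomial ℤ) (i : Fin 4) : ℚ⟦X⟧ := PowerSeries.subst (Rs c d p) (hJ i)

/-- the fundamental matrix without `x ^ (d N)` -/
noncomputable def HM (c d : ℕ) (p : Polynomial ℤ) : Matrix (Fin 2) (Fin 2) ℚ⟦X⟧ :=
  !![hR c d p 0, hR c d p 1 - hR c d p 0 * Lp p; hR c d p 2, hR c d p 3 - hR c d p 2 * Lp p]

/-- its inverse -/
noncomputable def WM (c d : ℕ) (p : Polynomial ℤ) : Matrix (Fin 2) (Fin 2) ℚ⟦X⟧ :=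
  !![hR c d p 3 - hR c d p 2 * Lp p, -(hR c d p 1 - hR c d p 0 * Lp p); -hR c d p 2, hR c d p 0]

/-- the denominator of the differential equation `θ H = (A / T) H - H (d N)` -/
noncomputable def TM (c d : ℕ) (p : Polynomial ℤ) : Polynomial ℤ :=
  p * (p - Polynomial.C (1728 * (c : ℤ)) * Polynomial.X ^ d) ^ 2

/-- the matrix of the differential equation -/
noncomputable def AM (c d : ℕ) (p : Polynomial ℤ) : Fin 2 → Fin 2 → Polynomial ℤ :=
  let q : Polynomial ℤ := Polynomial.C (d : ℤ) * p - Polynomial.X * Polynomial.derivative p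
  ![![0, q * (p - Polynomial.C (1728 * (c : ℤ)) * Polynomial.X ^ d) ^ 2],
    ![q * (Polynomial.C (c : ℤ) * Polynomial.X ^ d) * (Polynomial.C (82944 * (c : ℤ)) * Polynomial.X ^ d - Polynomial.C 372 * p), 0]]

/-- the three canonical series -/
noncomputable def kP (c d : ℕ) (p : Polynomial ℤ) : Fin 3 → ℚ⟦X⟧ :=
  ![hR c d p 0, hR c d p 2, -(hR c d p 1 - hR c d p 0 * Lp p)]

/-- the canonical values at `y`: the three series at `1 / y` -/
noncomputable def vP (c d : ℕ) (p : Polynomial ℤ) (y : ℝ) (i : Fin 3) : ℂ := ((ev y (kP c d p i) : ℝ) : ℂ)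

/-- the values at the shift `G u`, and the logarithm `log (1 - G u / t)` -/
noncomputable def vQ (c d : ℕ) (p : Polynomial ℤ) (G t u : ℕ) : Fin 4 → ℂ :=
  Fin.snoc (vP c d p ((t - G * u : ℕ) : ℝ)) ((Real.log (1 - ((G * u : ℕ) : ℝ) / t) : ℝ) : ℂ)

/-- Job SC. Sizes and denominators are preserved by the substitution; `SDc` of the logarithm. -/
def S_SC : Prop := ∀ (c d : ℕ) (p : Polynomial ℤ), 1 ≤ d → p.coeff 0 ≠ 0 →
  (∀ f : ℚ⟦X⟧, SDc f → SDc (PowerSeries.subst (Rs c d p) f)) ∧ SDc (Lp p)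

/-- Job EV. The values at small arguments. -/
def S_EV : Prop := ∀ (c d : ℕ) (p : Polynomial ℤ), 1 ≤ d → p.coeff 0 ≠ 0 → ∃ C₀ : ℝ, 0 < C₀ ∧ ∀ y : ℝ, C₀ ≤ y →
  0 < Polynomial.aeval (1 / y) p / ((p.coeff 0 : ℤ) : ℝ) ∧
  ev y (Lp p) = Real.log (Polynomial.aeval (1 / y) p / ((p.coeff 0 : ℤ) : ℝ)) ∧
  ∀ i, ev y (PowerSeries.subst (Rs c d p) (hJ i)) =
    Pool.Agent.Y37.GF.E (hJ i) (c * (1 / y) ^ d / Polynomial.aeval (1 / y) p)

/-- Job OD. The differential equation (from `T_ODE = Pool.Agent.Y120.J.hode`; `θ = X d⁄dX`, `θ R = (d - x p' / p) R`,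
`θ (Lp p) = x p' / p`, `1 - 1728 R = (p - 1728 c x ^ d) / p`). -/
def S_OD : Prop := ∀ (c d : ℕ) (p : Polynomial ℤ), 1 ≤ d → p.coeff 0 ≠ 0 →
  HM c d p * WM c d p = 1 ∧ (∀ i j, coeff 0 (HM c d p i j) = if i = j then 1 else 0) ∧
  ∀ i j, ps (TM c d p) * (X * d⁄dX ℚ (HM c d p i j) + ∑ k, HM c d p i k * C ((!![0, (d : ℚ); 0, 0] : Matrix (Fin 2) (Fin 2) ℚ) k j)) =
    ∑ k, ps (AM c d p i k) * HM c d p k j

/-- Job AI. The three series are algebraically independent over the rational functions. Ax-Schanuel: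
`Pool.Agent.Y776.AxJ.exists_loc` with `n = 1`, `s = 1`, `U` a small disc around a large real `y₀`, `τ` the local inverse of `j`
with `j (τ (y)) = 1 / R(1 / y)` (`T_RAY`, `deriv jj ≠ 0`), `w = log y`: `τ`, `j'(τ)`, `j''(τ)`, `log y` are algebraically
independent over `ℂ(y)` (four of the six functions `τ`, `j(τ)`, `j'(τ)`, `j''(τ)`, `w`, `exp w` are, and `j(τ)`, `exp w` are
algebraic over `ℂ(y)`). By `T_ANC` (`Pool.Agent.Y120.J.hanc`) these are, up to rational functions, `F`, `θF` and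
`2 π i τ = -log|…| + G / F` at `1 / j`; `-(G(R) - F(R) Lp) = -F(R) (2 π i τ + d log y + const)`. The identity theorem
gives the relation on `U` from the relation of the power series (real points near `0`: `ev`, `S_EV`; then real points up to
`y₀` large is not needed: take `y₀` in the range where the series converge). -/
def S_AI : Prop := ∀ (c d : ℕ) (p : Polynomial ℤ), 1 ≤ c → 1 ≤ d → p.coeff 0 ≠ 0 →
  AlgebraicIndependent (Polynomial ℚ) (kP c d p)

/-- Job NQ. No relations of bounded degree: `Pool.Agent.Y118.UL.fam` for the four entries of `HM` (`gsysL`, `qu_gen` in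
`Y119/J/Gen.lean` from `S_OD`, `S_SC`), with `B₀` the words of the monomials in the three series (independent by `S_AI`);
adaptation of `Y118/UL/Nor.lean` or `Y929/K/Nrj.lean`. -/
def S_NQ : Prop := ∀ (c d : ℕ) (p : Polynomial ℤ), 1 ≤ c → 1 ≤ d → p.coeff 0 ≠ 0 → ∃ G : ℕ, 1 ≤ G ∧
  Pool.Agent.Y118.UL.NoRel (vQ c d p G)

/-- Job PQ. The period functions at the point with `|j| = r = |P (y)|`, `P (y) = y ^ d p (1 / y) / c`, from `S_EV`
(compare `S_PS`, `pS_eq` in `Y120/K/Pre.lean`); `s` is the sign of `p(0)`. -/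
def S_PQ : Prop := ∀ (c d : ℕ) (p : Polynomial ℤ), 1 ≤ c → 1 ≤ d → p.coeff 0 ≠ 0 → ∀ s : Bool,
  (s = true ↔ 0 < p.coeff 0) → ∃ C₀ : ℝ, 0 < C₀ ∧ ∀ y : ℝ, C₀ ≤ y →
  y ^ d * Polynomial.aeval (1 / y) p / c = ((si s : ℤ) : ℝ) * |y ^ d * Polynomial.aeval (1 / y) p / c| ∧
  pS s |y ^ d * Polynomial.aeval (1 / y) p / c| =
    Zo (kp s) ((d : ℂ) * ((Real.log y : ℝ) : ℂ) + ((Real.log (|((p.coeff 0 : ℤ) : ℝ)| / c) : ℝ) : ℂ)) (vP c d p y)

end Pool.Agent.V5helper46.GP
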