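import Mathlib

/-!
# Project GP (helper46): counting in shift windows
-/

set_option autoImplicit false

namespace Pool.Agent.V5helper46.GP

/-- Job CQ. A set which contains at most `m` of the numbers `t - G u`, `1 ≤ u ≤ H`, whenever `(H + 2) ^ E ≤ t`, contains
`O(N ^ (1 - c))` of the integers `≤ N`. With `θ = 1 / (2 (E + 1))`, `H = ⌊N ^ θ⌋ - 2` and `N ^ (1/2) ≤ n ≤ N` choose
`u ∈ [1, H]` with `H ∣ n / G + u` (`n / G` the integral part) and `t = n + G u`; there are at most `N / H + 2 G` such `t`. -/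
def S_CQ : Prop := ∀ E m G : ℕ, 1 ≤ G → ∃ c C : ℝ, 0 < c ∧ 0 ≤ C ∧ ∀ B : Set ℕ,
  (∀ H t : ℕ, (H + 2) ^ E ≤ t → ∃ S : Finset ℕ, S.card ≤ m ∧ ∀ u : ℕ, 1 ≤ u → u ≤ H → G * u < t → t - G * u ∈ B → u ∈ S) →
  ∀ N : ℕ, 1 ≤ N → ({n : ℕ | n ≤ N ∧ n ∈ B}.ncard : ℝ) ≤ C * (N : ℝ) ^ (1 - c)

end Pool.Agent.V5helper46.GP
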