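import Pool.Agent.V5helper46.GP.Tup
import Pool.Agent.V5helper46.GP.Stm2
import Pool.Agent.V5helper46.GP.Stm3

/-!
# Project GP, second part: one point
-/

set_option autoImplicit false

open Pool.Agent.Y118.UL Pool.Agent.Y120.K Pool.Agent.Y120.J
open Pool.Agent.TH21.MS (jj)

namespace Pool.Agent.V5helper46.GP

/-- the data of one coordinate: the invariant `y ^ d p(1 / y) / c` -/
structure Dat2 where
  c : ℕ
  d : ℕ
  p : Polynomial ℤ
  hc : 1 ≤ c
  hd : 1 ≤ d
  hp : p.coeff 0 ≠ 0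

/-- the invariant at `n` -/
noncomputable def Dat2.v (x : Dat2) (n : ℕ) : ℚ := (n : ℚ) ^ x.d * Polynomial.aeval (1 / (n : ℚ)) x.p / x.c

/-- the canonical values at `n` -/
noncomputable def Dat2.V (x : Dat2) (n : ℕ) : Fin 4 → ℂ :=
  Fin.snoc (vP x.c x.d x.p (n : ℝ)) ((Real.log n : ℝ) : ℂ)

section
variable {σ ρ : Type*} {R : Type*} [CommRing R]

/-- a substitution of degree `1` does not increase the degree -/
theorem aeval_deg1 {Q : MvPolynomial σ R} {Δ : ℕ} (hQ : Q.totalDegree ≤ Δ) {L : σ → MvPolynomial ρ R}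
    (hL : ∀ i, (L i).totalDegree ≤ 1) : (MvPolynomial.aeval L Q).totalDegree ≤ Δ := by
  rw [MvPolynomial.aeval_def, MvPolynomial.eval₂_eq]
  refine MvPolynomial.totalDegree_finsetSum_le fun s hs => ?_
  refine (MvPolynomial.totalDegree_mul _ _).trans ?_
  rw [MvPolynomial.algebraMap_eq, MvPolynomial.totalDegree_C, zero_add]
  refine (MvPolynomial.totalDegree_finsetProd _ _).trans ?_
  refine (Finset.sum_le_sum fun i _ => (MvPolynomial.totalDegree_pow _ _).trans (Nat.mul_le_mul_left _ (hL i))).trans ?_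
  rw [← Finset.sum_mul, mul_one]
  exact (MvPolynomial.le_totalDegree hs).trans hQ

end

/-- the relation for `log n = log t + log (1 - G u / t)` -/
lemma rel_shift {q D δ : ℕ} {w : Fin q → ℂ} {v : Fin 3 → ℂ} {a b : ℂ}
    (h : Rel D δ w (Fin.snoc v (a + b) : Fin 4 → ℂ)) :
    Rel D δ (Fin.snoc w a : Fin (q + 1) → ℂ) (Fin.snoc v b : Fin 4 → ℂ) := by
  classical
  obtain ⟨K, hK, hKD, P, hP, h0, u, hu⟩ := h
  let L : Option (Fin q) ⊕ Fin 4 → MvPolynomial (Option (Fin (q + 1)) ⊕ Fin 4) K :=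
    Sum.elim (fun o => MvPolynomial.X (Sum.inl (o.map Fin.castSucc))) fun j => MvPolynomial.X (Sum.inr j) +
      if j = Fin.last 3 then MvPolynomial.X (Sum.inl (some (Fin.last q))) else 0
  have hL : ∀ v, (L v).totalDegree ≤ 1 := by
    rintro (o | j)
    · show (MvPolynomial.X _ : MvPolynomial _ K).totalDegree ≤ 1
      rw [MvPolynomial.totalDegree_X]
    · show (MvPolynomial.X _ + _ : MvPolynomial _ K).totalDegree ≤ 1
      refine (MvPolynomial.totalDegree_add _ _).trans (max_le ?_ ?_)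
      · rw [MvPolynomial.totalDegree_X]
      · split_ifs
        · rw [MvPolynomial.totalDegree_X]
        · simp
  have he : ∀ y : Fin 4 → ℂ, MvPolynomial.aeval (Sum.elim (cs (Fin.snoc w a : Fin (q + 1) → ℂ)) y)
      (MvPolynomial.aeval L P) = MvPolynomial.aeval (Sum.elim (cs w) fun j => y j + if j = Fin.last 3 then a else 0) P := by
    intro y
    have h1 : (MvPolynomial.aeval (Sum.elim (cs (Fin.snoc w a : Fin (q + 1) → ℂ)) y) :
        MvPolynomial (Option (Fin (q + 1)) ⊕ Fin 4) K →ₐ[K] ℂ).comp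
        (MvPolynomial.aeval L : MvPolynomial (Option (Fin q) ⊕ Fin 4) K →ₐ[K] MvPolynomial (Option (Fin (q + 1)) ⊕ Fin 4) K) =
        (MvPolynomial.aeval (Sum.elim (cs w) fun j => y j + if j = Fin.last 3 then a else 0) :
        MvPolynomial (Option (Fin q) ⊕ Fin 4) K →ₐ[K] ℂ) := by
      apply MvPolynomial.algHom_ext
      intro v
      rw [AlgHom.comp_apply, MvPolynomial.aeval_X, MvPolynomial.aeval_X]
      rcases v with o | j
      · show MvPolynomial.aeval _ (MvPolynomial.X _) = _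
        rw [MvPolynomial.aeval_X, Sum.elim_inl, Sum.elim_inl]
        rcases o with _ | o
        · rfl
        · show (Fin.snoc w a : Fin (q + 1) → ℂ) (Fin.castSucc o) = w o
          rw [Fin.snoc_castSucc]
      · show MvPolynomial.aeval _ (MvPolynomial.X _ + _) = _
        rw [map_add, MvPolynomial.aeval_X, Sum.elim_inr, Sum.elim_inr]
        congr 1
        split_ifs
        · rw [MvPolynomial.aeval_X, Sum.elim_inl]
          show (Fin.snoc w a : Fin (q + 1) → ℂ) (Fin.last q) = a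
          rw [Fin.snoc_last]
        · rw [map_zero]
    exact DFunLike.congr_fun h1 P
  refine ⟨K, hK, hKD, MvPolynomial.aeval L P, aeval_deg1 hP hL, ?_, fun j => u j - if j = Fin.last 3 then a else 0, ?_⟩
  · rw [he]
    have h3 : (fun j : Fin 4 => (Fin.snoc v b : Fin 4 → ℂ) j + if j = Fin.last 3 then a else 0) =
        (Fin.snoc v (a + b) : Fin 4 → ℂ) := by
      funext j
      refine Fin.lastCases ?_ (fun j => ?_) j
      · rw [if_pos rfl, Fin.snoc_last, Fin.snoc_last, add_comm]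
      · rw [if_neg (Fin.castSucc_lt_last j).ne, Fin.snoc_castSucc, Fin.snoc_castSucc, add_zero]
    rw [h3]
    exact h0
  · rw [he]
    have h2 : (fun j => (u j - if j = Fin.last 3 then a else 0) + if j = Fin.last 3 then a else 0) = u := by
      funext j
      ring
    rw [h2]
    exact hu

theorem one2 (hnq : S_NQ) (hcq : S_CQ) (x : Dat2) (q D δ : ℕ) : ∃ c C : ℝ, 0 < c ∧ 0 ≤ C ∧ ∀ w : Fin q → ℂ,
    ∀ N : ℕ, 1 ≤ N → ({n : ℕ | n ≤ N ∧ Rel D δ w (x.V n)}.ncard : ℝ) ≤ C * (N : ℝ) ^ (1 - c) := by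
  classical
  obtain ⟨G, hG, hn⟩ := hnq x.c x.d x.p x.hc x.hd x.hp
  obtain ⟨E, hE⟩ := win1 hn (q + 1) D δ
  obtain ⟨c, C, hc, hC, h⟩ := hcq E (q + 1 + 1) G hG
  refine ⟨c, C, hc, hC, fun w N hN => h {n | Rel D δ w (x.V n)} (fun H t ht => ?_) N hN⟩
  obtain ⟨S, hS, hS'⟩ := hE H t ht (Fin.snoc w ((Real.log t : ℝ) : ℂ))
  refine ⟨S, hS, fun u hu1 huH hut hB => ?_⟩
  by_contra hcon
  refine hS' u hu1 huH hcon (rel_shift ?_)
  have h1 : x.V (t - G * u) = (Fin.snoc (vP x.c x.d x.p ((t - G * u : ℕ) : ℝ))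
      (((Real.log t : ℝ) : ℂ) + ((Real.log (1 - ((G * u : ℕ) : ℝ) / t) : ℝ) : ℂ)) : Fin 4 → ℂ) := by
    unfold Dat2.V
    congr 1
    have ht0 : (0 : ℝ) < t := by
      have : 0 < t := by omega
      exact_mod_cast this
    have hgt : ((G * u : ℕ) : ℝ) < t := by exact_mod_cast hut
    have h2 : (((t - G * u : ℕ)) : ℝ) = t * (1 - ((G * u : ℕ) : ℝ) / t) := by
      rw [Nat.cast_sub hut.le]
      field_simp
    rw [h2, Real.log_mul ht0.ne' (by
      have h3 : ((G * u : ℕ) : ℝ) / t < 1 := (div_lt_one ht0).2 hgt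
      linarith)]
    push_cast
    rfl
  have hB' : Rel D δ w (x.V (t - G * u)) := hB
  rw [h1] at hB'
  exact hB'

end Pool.Agent.V5helper46.GP
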