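import Pool.Agent.V5helper46.GP.Fin1

/-!
# Project GP: the first theorem in terms of the modular invariant of the results files, from the jobs
-/

set_option autoImplicit false

open Pool.Agent.Y118.UL Pool.Agent.Y120.K Pool.Agent.Y120.J

namespace Pool.Agent.V5helper46.GP

/-- the normalised Eisenstein series of weight `4` -/
noncomputable def E4 (τ : ℂ) : ℂ :=
  1 + 240 * ∑' m : ℕ, ((ArithmeticFunction.sigma 3 (m + 1) : ℕ) : ℂ) *
    Complex.exp (2 * (Real.pi : ℂ) * Complex.I * ((m : ℂ) + 1) * τ)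

/-- the normalised Eisenstein series of weight `6` -/
noncomputable def E6 (τ : ℂ) : ℂ :=
  1 - 504 * ∑' m : ℕ, ((ArithmeticFunction.sigma 5 (m + 1) : ℕ) : ℂ) *
    Complex.exp (2 * (Real.pi : ℂ) * Complex.I * ((m : ℂ) + 1) * τ)

/-- the modular invariant `j = q⁻¹ + 744 + 196884 q + ⋯` -/
noncomputable def J (τ : ℂ) : ℂ := 1728 * E4 τ ^ 3 / (E4 τ ^ 3 - E6 τ ^ 2)

/-- the numbers `z`, `j'(z)`, `j''(z)` -/
noncomputable def numbers (z : ℂ) : Fin 3 → ℂ := ![z, deriv J z, deriv (deriv J) z]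

/-- The numbers `2 π i, w_1, …, w_q` and `numbers (z_1), …, numbers (z_k)`. -/
noncomputable def values {q k : ℕ} (w : Fin q → ℂ) (z : Fin k → ℂ) : Option (Fin q) ⊕ Fin k × Fin 3 → ℂ :=
  Sum.elim (fun o => o.elim (2 * Real.pi * Complex.I) w) fun v => numbers (z v.1) v.2

/-- The numbers `2 π i, w_1, …, w_q` and `3 k` variables. -/
noncomputable def generic {q k : ℕ} (w : Fin q → ℂ) :
    Option (Fin q) ⊕ Fin k × Fin 3 → MvPolynomial (Fin k × Fin 3) ℂ :=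
  Sum.elim (fun o => MvPolynomial.C (o.elim (2 * Real.pi * Complex.I) w)) MvPolynomial.X

/-- For some points `z_1, …, z_k` of the upper half-plane with `j(z_i) = t_i` there is a polynomial `P` of degree at most
`δ` over a number field of degree at most `d` which vanishes at `2 π i, w_1, …, w_q` and the `3 k` numbers `z_i`, `j'(z_i)`,
`j''(z_i)` and does not become zero by the substitution of `2 π i, w_1, …, w_q`. -/
def Exceptional {q k : ℕ} (d δ : ℕ) (w : Fin q → ℂ) (t : Fin k → ℚ) : Prop :=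
  ∃ z : Fin k → ℂ, (∀ i, 0 < (z i).im ∧ J (z i) = t i) ∧
    ∃ K : IntermediateField ℚ ℂ, FiniteDimensional ℚ K ∧ Module.finrank ℚ K ≤ d ∧
      ∃ P : MvPolynomial (Option (Fin q) ⊕ Fin k × Fin 3) K, P.totalDegree ≤ δ ∧
        MvPolynomial.aeval (values w z) P = 0 ∧ MvPolynomial.aeval (generic (k := k) w) P ≠ 0

lemma J_eq : J = Pool.Agent.TH21.MS.jj := by
  have h4 : E4 = Pool.Agent.TH21.MS.E4 := funext Pool.Agent.Y120.J.E4_same
  have h6 : E6 = Pool.Agent.TH21.MS.E6 := funext Pool.Agent.Y120.J.E6_same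
  funext τ
  unfold J Pool.Agent.TH21.MS.jj
  rw [h4, h6]

lemma values_eq {q k : ℕ} (w : Fin q → ℂ) (z : Fin k → ℂ) :
    values w z = Sum.elim (cs w) fun v : Fin k × Fin 3 => Pool.Agent.Y120.J.jt (z v.1) v.2 := by
  unfold values cs numbers Pool.Agent.Y120.J.jt
  rw [J_eq]

lemma gen_eval {q k : ℕ} (K : IntermediateField ℚ ℂ) (w : Fin q → ℂ) (u : Fin k × Fin 3 → ℂ)
    (P : MvPolynomial (Option (Fin q) ⊕ Fin k × Fin 3) K) :
    MvPolynomial.eval u (MvPolynomial.aeval (generic (k := k) w) P) = MvPolynomial.aeval (Sum.elim (cs w) u) P := by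
  have h2 : ((MvPolynomial.aeval u : MvPolynomial (Fin k × Fin 3) ℂ →ₐ[ℂ] ℂ).restrictScalars K).comp
      (MvPolynomial.aeval (generic (k := k) w) : MvPolynomial (Option (Fin q) ⊕ Fin k × Fin 3) K →ₐ[K] MvPolynomial (Fin k × Fin 3) ℂ)
      = MvPolynomial.aeval (Sum.elim (cs w) u) := by
    apply MvPolynomial.algHom_ext
    intro v
    rw [AlgHom.comp_apply, MvPolynomial.aeval_X, MvPolynomial.aeval_X, AlgHom.restrictScalars_apply]
    rcases v with o | v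
    · rw [generic, Sum.elim_inl, Sum.elim_inl, MvPolynomial.aeval_C]
      rcases o with _ | o <;> rfl
    · rw [generic, Sum.elim_inr, Sum.elim_inr, MvPolynomial.aeval_X]
  rw [← h2, AlgHom.comp_apply, AlgHom.restrictScalars_apply]
  rfl

/-- exceptional tuples in terms of `Rel` -/
lemma exc_rel {q k d δ : ℕ} {w : Fin q → ℂ} {t : Fin k → ℚ} (h : Exceptional d δ w t) :
    ∃ z : Fin k → UpperHalfPlane, (∀ i, Pool.Agent.TH21.MS.jj (z i) = ((t i : ℚ) : ℂ)) ∧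
      Rel d δ w (fun a : Fin k × Fin 3 => jt (z a.1) a.2) := by
  obtain ⟨z, hz, K, hK, hKd, P, hP, hP0, hPg⟩ := h
  refine ⟨fun i => ⟨z i, (hz i).1⟩, fun i => ?_, K, hK, hKd, P, hP, ?_, ?_⟩
  · have h1 := (hz i).2
    rw [J_eq] at h1
    exact h1
  · rw [values_eq] at hP0
    exact hP0
  · by_contra hcon
    push Not at hcon
    apply hPg
    refine MvPolynomial.funext fun u => ?_
    rw [map_zero, gen_eval]
    exact hcon u

/-- the first theorem, from the jobs -/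
theorem res1 (h0 : S_CT0) (hnr : S_NR) (hps : S_PS) (hcv : S_CV) (hin : S_IN) (hcn : S_CN) (hnu : S_NU) (htu : S_TU)
    (p : Finset ℕ) (k : ℕ) (a : Fin k → ℚ) (c : Fin k → ℤ) (ha : ∀ i, a i ≠ 0) (q d δ : ℕ) :
    ∃ C : ℝ, ∀ (w : Fin q → ℂ) (X : ℝ), 16 ≤ X →
      {n : Fin k → ℕ | (∀ i, (n i : ℝ) ≤ X ∧ n i ≠ 0 ∧ (n i).primeFactors ⊆ p) ∧
        Exceptional d δ w fun i => a i * n i + c i}.Finite ∧
      ({n : Fin k → ℕ | (∀ i, (n i : ℝ) ≤ X ∧ n i ≠ 0 ∧ (n i).primeFactors ⊆ p) ∧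
        Exceptional d δ w fun i => a i * n i + c i}.ncard : ℝ) ≤
        C * Real.log X ^ (p.card * (k - 1)) * Real.log (Real.log X) := by
  choose x hx using fun i => exists_dat (a i) (ha i) (c i)
  obtain ⟨C, hC⟩ := fin1 h0 hnr hps hcv hin hcn hnu htu p x q d δ
  refine ⟨C, fun w X hX => ?_⟩
  obtain ⟨h1, h2⟩ := hC w X hX
  have hsub : {n : Fin k → ℕ | (∀ i, (n i : ℝ) ≤ X ∧ n i ≠ 0 ∧ (n i).primeFactors ⊆ p) ∧
        Exceptional d δ w fun i => a i * n i + c i} ⊆ {n : Fin k → ℕ | (∀ i, (n i : ℝ) ≤ X ∧ SNum p (n i)) ∧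
        ∃ z : Fin k → UpperHalfPlane,
        (∀ i, Pool.Agent.TH21.MS.jj (z i) = ((si (x i).e : ℤ) : ℂ) * (((x i).r (n i) : ℚ) : ℂ)) ∧
        Rel d δ w (fun a : Fin k × Fin 3 => jt (z a.1) a.2)} := by
    rintro n ⟨hn, he⟩
    obtain ⟨z, hz, hR⟩ := exc_rel he
    refine ⟨fun i => ⟨(hn i).1, (hn i).2.1, fun l hl hd => (hn i).2.2 (Nat.mem_primeFactors.2 ⟨hl, hd, (hn i).2.1⟩)⟩, z,
      fun i => ?_, hR⟩
    rw [hz i, hx i]
    push_cast
    ring
  refine ⟨h1.subset hsub, le_trans ?_ h2⟩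
  exact_mod_cast Set.ncard_le_ncard hsub h1

end Pool.Agent.V5helper46.GP
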