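import Pool.Agent.V5helper46.GP.Res1
import Pool.Agent.V5helper46.GP.Fin2

/-!
# Project GP: the second theorem in terms of the modular invariant of the results files, from the jobs
-/

set_option autoImplicit false

open Pool.Agent.Y118.UL Pool.Agent.Y120.K Pool.Agent.Y120.J

namespace Pool.Agent.V5helper46.GP

/-- every nonconstant polynomial with rational coefficients gives data -/
theorem exists_dat2 (P : Polynomial ℚ) (hP : 1 ≤ P.natDegree) : ∃ x : Dat2, ∀ n : ℕ, 1 ≤ n → x.v n = P.eval (n : ℚ) := by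
  obtain ⟨b, hb⟩ := IsLocalization.integerNormalization_map_to_map (nonZeroDivisors ℤ) P
  have hb0 : (b : ℤ) ≠ 0 := nonZeroDivisors.ne_zero b.2
  set Q : Polynomial ℤ := Polynomial.C (b : ℤ) * IsLocalization.integerNormalization (nonZeroDivisors ℤ) P with hQ
  have hQm : Q.map (algebraMap ℤ ℚ) = Polynomial.C ((b : ℤ) * (b : ℤ) : ℚ) * P := by
    rw [hQ, Polynomial.map_mul, Polynomial.map_C, hb, Polynomial.C_mul, mul_assoc]
    congr 1
    rw [zsmul_eq_mul]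
    simp
  have hbb : ((b : ℤ) * (b : ℤ) : ℚ) ≠ 0 := by
    have : ((b : ℤ) : ℚ) ≠ 0 := by exact_mod_cast hb0
    exact mul_ne_zero this this
  have hdeg : Q.natDegree = P.natDegree := by
    rw [← Polynomial.natDegree_map_eq_of_injective (algebraMap ℤ ℚ).injective_int Q, hQm,
      Polynomial.natDegree_C_mul hbb]
  have hQ0 : Q ≠ 0 := by
    intro h
    rw [h, Polynomial.natDegree_zero] at hdeg
    omega
  have hc1 : 1 ≤ ((b : ℤ) * (b : ℤ)).natAbs := Nat.one_le_iff_ne_zero.2 (Int.natAbs_ne_zero.2 (mul_ne_zero hb0 hb0))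
  have hc2 : ((((b : ℤ) * (b : ℤ)).natAbs : ℕ) : ℚ) = (b : ℤ) * (b : ℤ) := by
    have h1 : ((((b : ℤ) * (b : ℤ)).natAbs : ℕ) : ℤ) = (b : ℤ) * (b : ℤ) := Int.natAbs_of_nonneg (mul_self_nonneg _)
    rw [← Int.cast_natCast, h1, Int.cast_mul]
  refine ⟨⟨((b : ℤ) * (b : ℤ)).natAbs, Q.natDegree, Q.reverse, hc1, by omega, ?_⟩, fun n hn => ?_⟩
  · rw [Polynomial.coeff_zero_reverse]
    exact Polynomial.leadingCoeff_ne_zero.2 hQ0
  have hn0 : (n : ℚ) ≠ 0 := by
    have : n ≠ 0 := by omega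
    exact_mod_cast this
  haveI : Invertible (n : ℚ) := invertibleOfNonzero hn0
  have h1 := Polynomial.eval₂_reverse_mul_pow (algebraMap ℤ ℚ) (n : ℚ) Q
  rw [invOf_eq_inv] at h1
  show (n : ℚ) ^ Q.natDegree * Polynomial.aeval (1 / (n : ℚ)) Q.reverse / ((((b : ℤ) * (b : ℤ)).natAbs : ℕ) : ℚ) = _
  rw [Polynomial.aeval_def, one_div, mul_comm, h1, hc2, ← Polynomial.eval_map, hQm, Polynomial.eval_mul, Polynomial.eval_C,
    mul_div_cancel_left₀ _ hbb]

/-- the second theorem, from the jobs -/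
theorem res2 (hnq : S_NQ) (hcq : S_CQ) (hpq : S_PQ) (hcv : S_CV) (hin : S_IN) (htu : S_TU)
    {k : ℕ} (hk : 1 ≤ k) (P : Fin k → Polynomial ℚ) (hP : ∀ i, 1 ≤ (P i).natDegree) (q d δ : ℕ) :
    ∃ c C : ℝ, 0 < c ∧ ∀ (w : Fin q → ℂ) (N : ℕ), 1 ≤ N →
      {n : Fin k → ℤ | (∀ i, |n i| ≤ N) ∧ Exceptional d δ w fun i => (P i).eval (n i : ℚ)}.Finite ∧
      ({n : Fin k → ℤ | (∀ i, |n i| ≤ N) ∧ Exceptional d δ w fun i => (P i).eval (n i : ℚ)}.ncard : ℝ) ≤
        C * (N : ℝ) ^ ((k : ℝ) - c) := by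
  classical
  have hQ : ∀ (ε : Fin k → Bool) (i : Fin k), 1 ≤ ((P i).comp (if ε i then -Polynomial.X else
      Polynomial.X - Polynomial.C 1)).natDegree := by
    intro ε i
    rw [Polynomial.natDegree_comp]
    split_ifs
    · rw [Polynomial.natDegree_neg, Polynomial.natDegree_X, mul_one]
      exact hP i
    · rw [Polynomial.natDegree_X_sub_C, mul_one]
      exact hP i
  choose x hx using fun (ε : Fin k → Bool) (i : Fin k) => exists_dat2 _ (hQ ε i)
  choose c₁ C₁ hc₁ hC using fun ε : Fin k → Bool => fin2 hnq hcq hpq hcv hin htu hk (x ε) q d δ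
  obtain ⟨ε₀, -, hε₀⟩ := Finset.exists_min_image (Finset.univ : Finset (Fin k → Bool)) c₁ Finset.univ_nonempty
  set c : ℝ := min (c₁ ε₀) 1 with hc
  have hc0 : 0 < c := lt_min (hc₁ ε₀) one_pos
  have hc1 : c ≤ 1 := min_le_right _ _
  have hce : ∀ ε, c ≤ c₁ ε := fun ε => (min_le_left _ _).trans (hε₀ ε (Finset.mem_univ _))
  refine ⟨c, ∑ ε, |C₁ ε| * 2 ^ (k : ℝ), hc0, fun w N hN => ?_⟩
  have hN1 : (1 : ℝ) ≤ N := by exact_mod_cast hN
  set A : (Fin k → Bool) → Set (Fin k → ℕ) := fun ε => {n : Fin k → ℕ | (∀ i, n i ≤ N + 1) ∧ ∃ z : Fin k → UpperHalfPlane,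
    (∀ i, Pool.Agent.TH21.MS.jj (z i) = (((x ε i).v (n i) : ℚ) : ℂ)) ∧
        Rel d δ w (fun a : Fin k × Fin 3 => jt (z a.1) a.2)} with hA
  set φ : (Fin k → Bool) → (Fin k → ℕ) → (Fin k → ℤ) := fun ε m i => if ε i then -(m i : ℤ) else (m i : ℤ) - 1 with hφ
  have hfin : ∀ ε, (A ε).Finite := fun ε => (hC ε w (N + 1) (by omega)).1
  have hcard : ∀ ε, ((A ε).ncard : ℝ) ≤ |C₁ ε| * 2 ^ (k : ℝ) * (N : ℝ) ^ ((k : ℝ) - c) := by
    intro ε
    have hN2 : (1 : ℝ) ≤ ((N + 1 : ℕ) : ℝ) := by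
      push_cast
      linarith
    have hk1 : (1 : ℝ) ≤ k := by exact_mod_cast hk
    calc ((A ε).ncard : ℝ) ≤ C₁ ε * ((N + 1 : ℕ) : ℝ) ^ ((k : ℝ) - c₁ ε) := (hC ε w (N + 1) (by omega)).2
      _ ≤ |C₁ ε| * ((N + 1 : ℕ) : ℝ) ^ ((k : ℝ) - c₁ ε) := by gcongr; exact le_abs_self _
      _ ≤ |C₁ ε| * ((N + 1 : ℕ) : ℝ) ^ ((k : ℝ) - c) := by
        have := hce ε
        gcongr
      _ ≤ |C₁ ε| * (2 * (N : ℝ)) ^ ((k : ℝ) - c) := by
        have h1 : ((N + 1 : ℕ) : ℝ) ≤ 2 * (N : ℝ) := by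
          push_cast
          linarith
        have h2 : (0 : ℝ) ≤ (k : ℝ) - c := by linarith
        gcongr
      _ = |C₁ ε| * (2 ^ ((k : ℝ) - c) * (N : ℝ) ^ ((k : ℝ) - c)) := by
        rw [Real.mul_rpow (by norm_num) (by linarith)]
      _ ≤ |C₁ ε| * (2 ^ (k : ℝ) * (N : ℝ) ^ ((k : ℝ) - c)) := by
        gcongr
        · norm_num
        · linarith
      _ = |C₁ ε| * 2 ^ (k : ℝ) * (N : ℝ) ^ ((k : ℝ) - c) := by ring
  have hsub : {n : Fin k → ℤ | (∀ i, |n i| ≤ N) ∧ Exceptional d δ w fun i => (P i).eval (n i : ℚ)} ⊆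
      ⋃ ε ∈ (Finset.univ : Finset (Fin k → Bool)), φ ε '' A ε := by
    rintro n ⟨hn, he⟩
    obtain ⟨z, hz, hR⟩ := exc_rel he
    let ε : Fin k → Bool := fun i => decide (n i < 0)
    let m : Fin k → ℕ := fun i => if n i < 0 then (-n i).toNat else (n i + 1).toNat
    have hm1 : ∀ i, 1 ≤ m i := by
      intro i
      show 1 ≤ if n i < 0 then (-n i).toNat else (n i + 1).toNat
      split_ifs with h <;> omega
    have hm2 : ∀ i, m i ≤ N + 1 := by
      intro i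
      have h1 := abs_le.1 (hn i)
      show (if n i < 0 then (-n i).toNat else (n i + 1).toNat) ≤ N + 1
      split_ifs with h <;> omega
    have hm3 : ∀ i, n i = if ε i then -(m i : ℤ) else (m i : ℤ) - 1 := by
      intro i
      show n i = if decide (n i < 0) = true then -((if n i < 0 then (-n i).toNat else (n i + 1).toNat : ℕ) : ℤ) else
        ((if n i < 0 then (-n i).toNat else (n i + 1).toNat : ℕ) : ℤ) - 1
      by_cases h : n i < 0
      · rw [if_pos (by simpa using h), if_pos h]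
        omega
      · rw [if_neg (by simpa using h), if_neg h]
        omega
    refine Set.mem_iUnion₂.2 ⟨ε, Finset.mem_univ _, m, ⟨hm2, z, fun i => ?_, hR⟩, funext fun i => (hm3 i).symm⟩
    rw [hz i, hx ε i (m i) (hm1 i), Polynomial.eval_comp]
    congr 2
    rw [hm3 i]
    split_ifs <;> simp
  have hfinU : (⋃ ε ∈ (Finset.univ : Finset (Fin k → Bool)), φ ε '' A ε).Finite :=
    Set.Finite.biUnion (Finset.univ : Finset (Fin k → Bool)).finite_toSet fun ε _ => (hfin ε).image _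
  refine ⟨hfinU.subset hsub, ?_⟩
  have h1 : ({n : Fin k → ℤ | (∀ i, |n i| ≤ N) ∧ Exceptional d δ w fun i => (P i).eval (n i : ℚ)}.ncard : ℝ) ≤
      ∑ ε : Fin k → Bool, ((A ε).ncard : ℝ) := by
    have h2 : {n : Fin k → ℤ | (∀ i, |n i| ≤ N) ∧ Exceptional d δ w fun i => (P i).eval (n i : ℚ)}.ncard ≤
        ∑ ε : Fin k → Bool, (A ε).ncard := by
      refine (Set.ncard_le_ncard hsub hfinU).trans ?_
      refine (Finset.set_ncard_biUnion_le _ _).trans ?_
      exact Finset.sum_le_sum fun ε _ => Set.ncard_image_le (hfin ε)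
    exact_mod_cast h2
  refine h1.trans ?_
  rw [Finset.sum_mul]
  exact Finset.sum_le_sum fun ε _ => hcard ε

end Pool.Agent.V5helper46.GP
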