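import Pool.Agent.V5helper46.GP.Stm0
import Pool.Agent.Y120.K.All
import Pool.Agent.Y120.K.Clr
import Pool.Agent.Y120.K.Pre
import Pool.Agent.Y118.UL.Liv

/-!
# Project GP (helper46), problem MP_ede373_nt: invariants `a n + c`, `n` an integer with prime factors in a finite set

Scale windows: instead of the shifts `j = ± (t - g)` of the starting library (`Pool.Agent.Y120.K`) we take the points
`j = ± (t / b ± g)`, `g` fixed, `b = 1, …, H`. The functions are `f (± b x)`, `f = fJ s g i` at `x = 1 / t`.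
Below: definitions, then the statements `S_...` of the jobs.
-/

set_option autoImplicit false

open PowerSeries Pool.Agent.Y113 Pool.Agent.Y120.J Pool.Agent.Y120.K
open Pool.Agent.Y37.GF (mv)
open Filter Topology

namespace Pool.Agent.V5helper46.GP

/-! ### Definitions -/

/-- the direction -/
def dr (fl : Bool) : ℤ := if fl then -1 else 1

/-- the sign of the invariant -/
def sg (s fl : Bool) : Bool := if fl then !s else s

/-- the scale `± max b 1` -/
def sc (fl : Bool) (b : ℕ) : ℤ := dr fl * (max b 1 : ℕ)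

/-- the rescaled monomials -/
noncomputable def monB (s fl : Bool) (g : ℕ) {Δ : ℕ} (b : ℕ) (e : Ex Δ) : ℚ⟦X⟧ :=
  PowerSeries.rescale (sc fl b : ℚ) (monJ s g e)

/-- the values of `F`, `θF`, `- (G - F log (1 - g / y))` at `1 / y`; the point is `j = si s * (y - g)` -/
noncomputable def vC (s : Bool) (g : ℕ) (y : ℝ) (i : Fin 3) : ℂ := ((ev y (fJ s g i.castSucc) : ℝ) : ℂ)

/-- the values at `x = 1 / t` of the functions rescaled by `± b` -/
noncomputable def vB (s fl : Bool) (g : ℕ) (t b : ℕ) : Fin 3 → ℂ := vC s g ((t : ℝ) / (sc fl b : ℝ))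

/-- the offset of the real part -/
noncomputable def kp (s : Bool) : ℂ := if s then 0 else 1 / 2

/-- the analytic continuation `u` of the four series `f` to `[0, z)`; the monomials are linearly independent over the
functions which are analytic on the closed interval `[0, z]` -/
def Cont (f : Fin 4 → ℚ⟦X⟧) (z : ℝ) (u : ℝ → Fin 4 → ℝ) : Prop :=
  0 < z ∧ (∀ x ∈ Set.Ico 0 z, ∀ i, AnalyticAt ℝ (fun x => u x i) x) ∧
  (∀ᶠ x in 𝓝 (0 : ℝ), ∀ i, u x i = Pool.Agent.Y37.GF.E (f i) x) ∧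
  ∀ (Δ : ℕ) (c : Ex Δ → ℝ → ℝ), (∀ e, ∀ x ∈ Set.Icc 0 z, AnalyticAt ℝ (c e) x) →
    (∀ᶠ x in 𝓝[>] (0 : ℝ), ∑ e, c e x * mv (u x) e = 0) → ∀ x ∈ Set.Ioo 0 z, ∀ e, c e x = 0

/-- the monomials of four series -/
noncomputable def mon {Δ : ℕ} (f : Fin 4 → ℚ⟦X⟧) (e : Ex Δ) : ℚ⟦X⟧ := ∏ i, f i ^ (e.1 i : ℕ)

/-! ### The jobs -/

/-- Job CT0. The case `g = 0`, `s = true` (here `fJ true 0 = ![F, θF, -G, -(θG + F)]`). From the library:
`Pool.Agent.Y120.K.hu true` (`T_U`), `hsb true` (`T_SB`) and, if preferred, `hvan true` (`T_VAN`) at `g = 1`, by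
`φ x = x / (1 + x)` (`1 / φ x - 1 = 1 / x`), `z = 1 / 1728` (`φ z = z1 true 1 = 1 / 1729`):
`u x = ![y 0, y 1, y 2 + M y 0, y 3 + M y 1]` with `y = ut true 1 (φ x)`, `M = log (1 + x) = - log (1 - φ x)`.
(1) near `0`: `E (sf 1 h) (φ x) = E h x` for `h = hS true i` (see `ou_shift`, `cx_sf_cv` and their use in `Y120/K/Pre.lean`,
`pS_eq`), `E (lg 1) (φ x) = log (1 - φ x)` (`ev_lg`), `fJ true 1 2 = -(sf 1 G - sf 1 F * lg 1)`; `sf 0 f = f`, `lg 0 = 0`.
(2) the last property: `mv (u x) e` is a combination of the `mv y e'` with coefficients polynomials in `M`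
(`reduce`/`word_exp` in `Y113`, used in `Y109/K/Mon.lean`; `y 0 * y 3 - y 1 * y 2 = -1` by `T_U`), so that a relation for `u`
gives one for `ut true 1` with the coefficients `c' (x') = ∑_e c_e (ψ x') P_{e,e'} (M (ψ x'))`, `ψ x' = x' / (1 - x')`, which
are analytic on `[0, 1/1729]`; `T_SB` says `c' = 0`, and the matrix `P (M)` is invertible (inverse `P (-M)`, or by
`mono_indep`). Alternative: `T_VAN` for `g = 0` from `T_VAN` for `g = 1` by the same substitution (`log (1/x) = log (1/φ x) -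
log (1 + x)`) and then the proof of `Y259/K/SB.lean`, `SBa.lean` (`core` with `1 - g x` replaced by `1`). -/
def S_CT0 : Prop := ∃ (z : ℝ) (u : ℝ → Fin 4 → ℝ), Cont (fJ true 0) z u

/-- Job LI. Adaptation of `Y167/K/Lij.lean` (`multi`, `t_lij`): instead of the shifts the scales `b`; the functions
`u (b l * x)` are analytic on `[0, z / b l)`, the largest `b` has the smallest interval. -/
def S_LI : Prop := ∀ (f : Fin 4 → ℚ⟦X⟧) (z : ℝ) (u : ℝ → Fin 4 → ℝ), (∀ i, SDc (f i)) → Cont f z u →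
  ∀ (k Δ : ℕ) (b : Fin k → ℕ), Function.Injective b → (∀ l, 1 ≤ b l) →
    LinearIndependent (Polynomial ℚ) (fun e : Fin k → Ex Δ => ∏ l, PowerSeries.rescale (b l : ℚ) (mon f (e l)))

/-- Job LR. `Pool.Agent.Y118.UL.liR` with a weaker condition on the denominators (the same proof: only `g ≤ H` and
`(H + 2) ^ E ≤ t` are used). -/
def S_LR : Prop := ∀ (σ : Type) [Fintype σ] (F : ℕ → σ → ℚ⟦X⟧) (Tg : ℕ → Polynomial ℤ) (q₀ E₀ c : ℕ) (b₀ : σ),
  (∀ g, F g b₀ = 1) → (∀ g : ℕ, GSys q₀ (((g : ℝ) + 2) ^ E₀) (Tg g) (F g)) →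
  (∀ g t : ℕ, (g + 2) ^ c ≤ t → Polynomial.aeval (1 / (t : ℝ)) (Tg g) ≠ 0) → ∀ N : ℕ,
  ∃ E : ℕ, ∀ (H t : ℕ), (H + 2) ^ E ≤ t → ∀ g : Fin N → ℕ, (∀ l, g l ≤ H) →
    LinearIndependent (Polynomial ℚ) (fun b : Fin N → σ => ∏ l, F (g l) (b l)) →
    LinearIndependent ℚ (fun b : Fin N → σ => ∏ l, ev (t : ℝ) (F (g l) (b l)))

/-- Job NR. No relations of bounded degree between the values for different scales. Adaptation of `Y929/K/Nrj.lean`
(`t_nrj`); use `hmon s` (`T_MONJ`) at the fixed `g` and `S_GS` with `σ = sc fl b`, the polynomial `Tg g` is not zero and so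
`Tg g (σ / t) ≠ 0` for `t ≥ (|σ| + 2) ^ c`; the linear independence from `S_LI` (and `S_FL` for `fl = true`) for
`f = fJ s g` (`SDE_fJ` in `Y167/K/Lij.lean` gives `SDc (fJ s g i)`). Note `1 ≤ b i` in `NoRel`, so `sc fl b = ± b`. -/
def S_NR : Prop := ∀ (s fl : Bool) (g : ℕ), (∃ (z : ℝ) (u : ℝ → Fin 4 → ℝ), Cont (fJ s g) z u) →
  Pool.Agent.Y118.UL.NoRel (vB s fl g)

/-- Job PS. The period functions at the point `j = si (sg s fl) * (m - dr fl * g)` for real `m`; adaptation of `pS_eq` in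
`Y120/K/Pre.lean` (there `m = t`, `fl = false`). With `y = dr fl * m`: `m - dr fl * g = dr fl * (y - g)`,
`ev (dr fl * (y - g)) (hS (sg s fl) i) = ev (y - g) (hS s i) = ev y (sf g (hS s i))`, `ev y (lg g) = log (1 - g / y)`,
`log (m - dr fl * g) = log m + log (1 - g / y)`. -/
def S_PS : Prop := ∀ (s fl : Bool) (g : ℕ), ∃ C₀ : ℝ, ∀ m : ℝ, C₀ ≤ m →
  pS (sg s fl) (m - (dr fl : ℝ) * g) = Zo (kp (sg s fl)) ((Real.log m : ℝ) : ℂ) (vC s g ((dr fl : ℝ) * m))

/-- Job CV. From the numbers `z, j'(z), j''(z)` to canonical values `V i : Fin B → ℂ`, three of which (`V i (e₃ 0)`,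
`V i (e₃ 1)`, `V i (e₃ 2)`) are `F`, `θF`, `-G + ...`; the logarithm `ℓ i` of the invariant is a rational combination of the
constants `w'` and of the other canonical values. Adaptation of the proof of `winK` in `Y120/K/WinK.lean` (`clr`,
`dense_zero`, `exists_Zo`), with `nv`, `mv`, `ptsC`, `exists_ZC` of `Y120/A/Pts.lean` for the rational invariants (polynomials
over `K` with coefficient `algebraMap ℚ K (r i)`), and `all_PT` (`T_PT`). Given `u` with nonzero value, choose `V'` with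
`V' i (e₃ j)` from `exists_Zo` and the other coordinates `0`. -/
def S_CV : Prop := ∀ k q q' B D δ : ℕ, ∃ (δ' : ℕ) (T₀ : ℝ), ∀ (e : Fin q → Fin q') (e₃ : Fin 3 → Fin B) (s : Fin k → Bool)
  (r : Fin k → ℚ) (ℓ : Fin k → ℂ) (V : Fin k → Fin B → ℂ) (w' : Fin q' → ℂ) (L : Fin k → Fin q' → ℚ)
  (M : Fin k → Fin B → ℚ), Function.Injective e₃ → (∀ i j, M i (e₃ j) = 0) → (∀ i, T₀ ≤ (r i : ℝ)) →
  (∀ i, ℓ i = ∑ l, (L i l : ℂ) * w' l + ∑ j, (M i j : ℂ) * V i j) →
  (∀ i, pS (s i) (r i) = Zo (kp (s i)) (ℓ i) (fun j => V i (e₃ j))) →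
  ∀ z : Fin k → UpperHalfPlane, (∀ i, Pool.Agent.TH21.MS.jj (z i) = ((si (s i) : ℤ) : ℂ) * ((r i : ℚ) : ℂ)) →
  Rel D δ (fun a => w' (e a)) (fun a : Fin k × Fin 3 => jt (z a.1) a.2) →
  Rel D δ' w' (fun a : Fin k × Fin B => V a.1 a.2)

end Pool.Agent.V5helper46.GP
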