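import Mathlib
import Pool.Agent.Y113.Defs

/-!
# Project GP (helper46), problem MP_ede373_nt: elementary jobs
-/

set_option autoImplicit false

open PowerSeries Pool.Agent.Y113

namespace Pool.Agent.V5helper46.GP

/-- the constants `2 π i` and `w` -/
noncomputable def cs {q : ℕ} (w : Fin q → ℂ) (o : Option (Fin q)) : ℂ := o.elim (2 * Real.pi * Complex.I) w

/-- a nontrivial relation of degree `≤ δ` over a number field of degree `≤ D` between `2 π i`, `w` and `v` -/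
def Rel {q : ℕ} {ι : Type} (D δ : ℕ) (w : Fin q → ℂ) (v : ι → ℂ) : Prop :=
  ∃ K : IntermediateField ℚ ℂ, FiniteDimensional ℚ K ∧ Module.finrank ℚ K ≤ D ∧
    ∃ P : MvPolynomial (Option (Fin q) ⊕ ι) K, P.totalDegree ≤ δ ∧
      MvPolynomial.aeval (Sum.elim (cs w) v) P = 0 ∧ ∃ u : ι → ℂ, MvPolynomial.aeval (Sum.elim (cs w) u) P ≠ 0

/-- the integers with all prime factors in `p` -/
def SNum (p : Finset ℕ) (n : ℕ) : Prop := n ≠ 0 ∧ ∀ l : ℕ, l.Prime → l ∣ n → l ∈ p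

/-- Job FL. The substitution `x ↦ -x`. -/
def S_FL : Prop := ∀ (κ : Type) [Fintype κ] (y : κ → ℚ⟦X⟧), LinearIndependent (Polynomial ℚ) y →
  LinearIndependent (Polynomial ℚ) (fun j => PowerSeries.rescale (-1 : ℚ) (y j))

/-- Job GS. A rescaled G-system is a G-system. `hd s (rescale σ y) = σ ^ s • rescale σ (hd s y)`,
`ps (T.comp (C σ * X)) = rescale σ (ps T)`; the new `G` is `σ ^ s * G.comp (C σ * X)`. -/
def S_GS : Prop := ∀ (ι : Type) [Fintype ι] (q : ℕ) (C : ℝ) (T : Polynomial ℤ) (y : ι → ℚ⟦X⟧), GSys q C T y →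
  ∀ σ : ℤ, σ ≠ 0 → GSys q (C * |(σ : ℝ)| ^ (q + 1)) (T.comp (Polynomial.C σ * Polynomial.X))
    (fun i => PowerSeries.rescale (σ : ℚ) (y i))

/-- Job IN. Splitting a relation: if it stays nontrivial (as a polynomial in the last block) after the substitution of the
first blocks, the last block satisfies a relation over the first blocks; otherwise all coefficients (with respect to the
monomials in the last block) vanish at the first blocks, and one of them is a nontrivial relation. -/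
def S_IN : Prop := ∀ (B k q D δ : ℕ) (w : Fin q → ℂ) (v : Fin (k + 1) → Fin B → ℂ),
  Rel D δ w (fun a : Fin (k + 1) × Fin B => v a.1 a.2) →
  Rel D δ w (fun a : Fin k × Fin B => v a.1.castSucc a.2) ∨
  Rel D δ (Fin.append w fun i : Fin (k * B) => v (finProdFinEquiv.symm i).1.castSucc (finProdFinEquiv.symm i).2)
    (v (Fin.last k))

/-- Job CN. Counting: a set which contains at most `m` of the quotients `N / β`, `β ≤ H`, whenever `(H + 2) ^ E ≤ N`,
contains at most `C log log X` of the integers `n ≤ X` with prime factors in `p`. For `log n ∈ [R, 2 R]` round the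
exponents of `n = ∏ l ^ e_l` up to multiples of `L = ⌊R / E'⌋`; this gives boundedly many `N` with `n = N / β`,
`β ≤ (∏ p) ^ L`. (The elements of `p` need not be primes.) -/
def S_CN : Prop := ∀ (p : Finset ℕ) (E m : ℕ), ∃ C : ℝ, ∀ B : Set ℕ,
  (∀ N H : ℕ, (H + 2) ^ E ≤ N → ∃ S : Finset ℕ, S.card ≤ m ∧ ∀ β : ℕ, 1 ≤ β → β ≤ H → β ∣ N → N / β ∈ B → β ∈ S) →
  ∀ X : ℝ, 16 ≤ X → ({n : ℕ | (n : ℝ) ≤ X ∧ SNum p n ∧ n ∈ B}.ncard : ℝ) ≤ C * Real.log (Real.log X)

/-- Job NU. The number of these integers. -/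
def S_NU : Prop := ∀ p : Finset ℕ, ∃ C : ℝ, ∀ X : ℝ, 16 ≤ X → {n : ℕ | (n : ℝ) ≤ X ∧ SNum p n}.Finite ∧
  ({n : ℕ | (n : ℝ) ≤ X ∧ SNum p n}.ncard : ℝ) ≤ C * Real.log X ^ p.card

/-- Job TU. Counting tuples by induction on the length. -/
def S_TU : Prop := ∀ (K : ℕ) (A : Finset ℕ) (M : ℝ) (Bad : (j : ℕ) → (Fin j → ℕ) → Prop), 0 ≤ M →
  (∀ m : Fin 0 → ℕ, ¬ Bad 0 m) →
  (∀ j < K, ∀ m : Fin j → ℕ, (∀ i, m i ∈ A) → ¬ Bad j m → ({n : ℕ | n ∈ A ∧ Bad (j + 1) (Fin.snoc m n)}.ncard : ℝ) ≤ M) →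
  ({n : Fin K → ℕ | (∀ i, n i ∈ A) ∧ Bad K n}.ncard : ℝ) ≤ K * (A.card : ℝ) ^ (K - 1) * M

end Pool.Agent.V5helper46.GP
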