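import Pool.Agent.V5helper46.GP.One

/-!
# Project GP: tuples
-/

set_option autoImplicit false

open Pool.Agent.Y118.UL Pool.Agent.Y120.K Pool.Agent.Y120.J
open Pool.Agent.TH21.MS (jj)

namespace Pool.Agent.V5helper46.GP

/-- the absolute value of the invariant -/
def Dat.r (x : Dat) (n : ℕ) : ℚ := (x.a₁ : ℚ) * n / x.a₂ - ((dr x.fl : ℤ) : ℚ) * x.g

/-- the sign of the invariant -/
def Dat.e (x : Dat) : Bool := sg x.s x.fl

theorem exists_dat (a : ℚ) (ha : a ≠ 0) (c : ℤ) : ∃ x : Dat, ∀ n : ℕ, a * n + c = ((si x.e : ℤ) : ℚ) * x.r n := by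
  classical
  obtain ⟨σ, hσ⟩ : ∃ σ : Bool, a = ((si σ : ℤ) : ℚ) * ((a.num.natAbs : ℚ) / a.den) := by
    have h1 : a = (a.num : ℚ) / a.den := (Rat.num_div_den a).symm
    rcases lt_or_gt_of_ne ha with h | h
    · refine ⟨false, ?_⟩
      have h2 : (a.num.natAbs : ℤ) = -a.num := by
        rw [Int.natCast_natAbs, abs_of_neg (Rat.num_neg.2 h)]
      have h3 : ((a.num.natAbs : ℕ) : ℚ) = -(a.num : ℚ) := by
        have := congrArg (fun z : ℤ => (z : ℚ)) h2
        simpa using this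
      rw [h3]
      simp only [si, Bool.false_eq_true, if_false]
      push_cast
      rw [neg_div, neg_mul_neg, one_mul]
      exact h1
    · refine ⟨true, ?_⟩
      have h2 : (a.num.natAbs : ℤ) = a.num := by
        rw [Int.natCast_natAbs, abs_of_pos (Rat.num_pos.2 h)]
      have h3 : ((a.num.natAbs : ℕ) : ℚ) = (a.num : ℚ) := by
        have := congrArg (fun z : ℤ => (z : ℚ)) h2
        simpa using this
      rw [h3]
      simp only [si, if_true]
      push_cast
      rw [one_mul]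
      exact h1
  have hn : 1 ≤ a.num.natAbs := Int.natAbs_pos.2 (Rat.num_ne_zero.2 ha)
  have hd : 1 ≤ a.den := a.den_pos
  have hss : (si σ) * (si σ) = 1 := by
    cases σ <;> simp [si]
  have hssQ : ((si σ : ℤ) : ℚ) * ((si σ : ℤ) : ℚ) = 1 := by exact_mod_cast hss
  obtain ⟨c', hc'⟩ : ∃ c' : ℤ, c' = si σ * c := ⟨_, rfl⟩
  have hc : (c : ℚ) = ((si σ : ℤ) : ℚ) * (c' : ℚ) := by
    rw [hc']
    push_cast
    linear_combination (-(c : ℚ)) * hssQ
  -- the shift
  obtain ⟨s, fl, g, h1, h2, h3⟩ : ∃ (s fl : Bool) (g : ℕ), sg s fl = σ ∧ c' = -(dr fl * (g : ℤ)) ∧ (1 ≤ g ∨ s = true) := by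
    rcases lt_trichotomy c' 0 with h | h | h
    · refine ⟨σ, false, (-c').toNat, rfl, ?_, Or.inl ?_⟩
      · rw [Int.toNat_of_nonneg (by omega)]
        simp [dr]
      · omega
    · cases σ
      · exact ⟨true, true, 0, rfl, by simp [h], Or.inr rfl⟩
      · exact ⟨true, false, 0, rfl, by simp [h], Or.inr rfl⟩
    · refine ⟨!σ, true, c'.toNat, by simp [sg], ?_, Or.inl ?_⟩
      · rw [Int.toNat_of_nonneg (by omega)]
        simp [dr]
      · omega
  refine ⟨⟨s, fl, g, a.num.natAbs, a.den, hn, hd, h3⟩, fun n => ?_⟩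
  have e1 : (Dat.mk s fl g a.num.natAbs a.den hn hd h3).e = σ := h1
  rw [e1]
  unfold Dat.r
  have h2Q : (c' : ℚ) = -(((dr fl : ℤ) : ℚ) * (g : ℚ)) := by exact_mod_cast h2
  rw [hc, h2Q]
  nth_rw 1 [hσ]
  push_cast
  ring

/-- the logarithms of the small integers -/
noncomputable def ext {q : ℕ} (Mx : ℕ) (w : Fin q → ℂ) : Fin (q + Mx) → ℂ :=
  Fin.append w fun j : Fin Mx => ((Real.log (j : ℕ) : ℝ) : ℂ)

/-- the logarithm of an integer with prime factors below `Mx` -/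
lemma log_comb {q : ℕ} {Mx : ℕ} (w : Fin q → ℂ) {n : ℕ} (hn : n ≠ 0) (h : ∀ l : ℕ, l.Prime → l ∣ n → l < Mx) :
    ∃ L : Fin (q + Mx) → ℚ, ((Real.log n : ℝ) : ℂ) = ∑ l, (L l : ℂ) * ext Mx w l := by
  refine ⟨Fin.append (fun _ => 0) fun j : Fin Mx => (n.factorization j : ℚ), ?_⟩
  unfold ext
  rw [Fin.sum_univ_add]
  simp only [Fin.append_left, Fin.append_right]
  have h1 : ∑ x : Fin q, (((0 : ℚ)) : ℂ) * w x = 0 := by simp
  rw [h1, zero_add]
  have h2 : Real.log n = ∑ j : Fin Mx, (n.factorization j : ℝ) * Real.log (j : ℕ) := by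
    rw [Fin.sum_univ_eq_sum_range (fun j : ℕ => (n.factorization j : ℝ) * Real.log (j : ℝ)) Mx]
    have h3 : (n : ℝ) = ∏ l ∈ n.primeFactors, (l : ℝ) ^ n.factorization l := by
      have h4 := Nat.prod_factorization_pow_eq_self hn
      rw [Finsupp.prod, Nat.support_factorization] at h4
      exact_mod_cast h4.symm
    conv_lhs => rw [h3]
    rw [Real.log_prod]
    · simp only [Real.log_pow]
      refine Finset.sum_subset (fun l hl => ?_) fun l _ hl => ?_
      · rw [Finset.mem_range]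
        exact h l (Nat.prime_of_mem_primeFactors hl) (Nat.dvd_of_mem_primeFactors hl)
      · rw [← Nat.support_factorization, Finsupp.notMem_support_iff] at hl
        rw [hl]
        simp
    · intro l hl
      have h5 := (Nat.prime_of_mem_primeFactors hl).pos
      have h6 : (0 : ℝ) < l := by exact_mod_cast h5
      positivity
  rw [h2]
  push_cast
  rfl

/-- the logarithm of a small integer -/
lemma log_small {q : ℕ} {Mx : ℕ} (w : Fin q → ℂ) {n : ℕ} (h : n < Mx) :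
    ∃ L : Fin (q + Mx) → ℚ, ((Real.log n : ℝ) : ℂ) = ∑ l, (L l : ℂ) * ext Mx w l := by
  classical
  refine ⟨fun l => if l = Fin.natAdd q ⟨n, h⟩ then 1 else 0, ?_⟩
  rw [Finset.sum_eq_single (Fin.natAdd q ⟨n, h⟩)]
  · beta_reduce
    rw [if_pos rfl]
    unfold ext
    rw [Fin.append_right]
    simp
  · intro l _ hl
    beta_reduce
    rw [if_neg hl]
    simp
  · intro h
    exact absurd (Finset.mem_univ _) h

/-- the logarithm of the main part of the invariant -/
lemma log_main {q : ℕ} {Mx : ℕ} (w : Fin q → ℂ) (x : Dat) (h1 : x.a₁ < Mx) (h2 : x.a₂ < Mx) {n : ℕ} (hn : n ≠ 0)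
    (h : ∀ l : ℕ, l.Prime → l ∣ n → l < Mx) :
    ∃ L : Fin (q + Mx) → ℚ, ((Real.log ((x.a₁ : ℝ) * n / x.a₂) : ℝ) : ℂ) = ∑ l, (L l : ℂ) * ext Mx w l := by
  obtain ⟨L1, e1⟩ := log_small w h1
  obtain ⟨L2, e2⟩ := log_small w h2
  obtain ⟨L3, e3⟩ := log_comb w hn h
  refine ⟨fun l => L1 l + L3 l - L2 l, ?_⟩
  have p1 : (0 : ℝ) < x.a₁ := by exact_mod_cast x.h₁
  have p2 : (0 : ℝ) < x.a₂ := by exact_mod_cast x.h₂
  have p3 : (0 : ℝ) < n := by exact_mod_cast Nat.pos_of_ne_zero hn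
  rw [Real.log_div (mul_ne_zero p1.ne' p3.ne') p2.ne', Real.log_mul p1.ne' p3.ne']
  rw [Complex.ofReal_sub, Complex.ofReal_add, e1, e2, e3, ← Finset.sum_add_distrib, ← Finset.sum_sub_distrib]
  push_cast
  exact Finset.sum_congr rfl fun l _ => by ring

lemma loglog {X : ℝ} (hX : 16 ≤ X) : 1 ≤ Real.log X ∧ 1 ≤ Real.log (Real.log X) := by
  have h1 : Real.exp 1 ≤ Real.log 16 := by
    have h2 := Real.exp_one_lt_d9
    have h3 := Real.log_two_gt_d9
    have h4 : Real.log 16 = 4 * Real.log 2 := by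
      rw [show (16 : ℝ) = 2 ^ 4 by norm_num, Real.log_pow]
      norm_num
    rw [h4]
    linarith
  have h2 : Real.exp 1 ≤ Real.log X := h1.trans (Real.log_le_log (by norm_num) hX)
  refine ⟨?_, ?_⟩
  · have h3 := Real.add_one_le_exp (1 : ℝ)
    linarith
  · rw [Real.le_log_iff_exp_le (lt_of_lt_of_le (Real.exp_pos 1) h2)]
    exact h2

end Pool.Agent.V5helper46.GP
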