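import Pool.Agent.V5helper46.GP.Stm

/-!
# Project GP: windows for one point, from `NoRel`
-/

set_option autoImplicit false

open Pool.Agent.Y118.UL Pool.Agent.Y120.K

namespace Pool.Agent.V5helper46.GP

/-- windows for one point -/
theorem win1 {B : ℕ} {val : ℕ → ℕ → Fin B → ℂ} (hn : NoRel val) (q D δ : ℕ) : ∃ E : ℕ, ∀ H t : ℕ, (H + 2) ^ E ≤ t →
    ∀ w : Fin q → ℂ, ∃ S : Finset ℕ, S.card ≤ q + 1 ∧ ∀ b, 1 ≤ b → b ≤ H → b ∉ S → ¬ Rel D δ w (val t b) := by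
  classical
  obtain ⟨E, hE⟩ := absFree (υ₁ := Fin q) hn (fun _ : Fin 1 => (2 * Real.pi * Complex.I : ℂ)) Finset.univ (fun j => by
    refine isAlgebraic_algebraMap (⟨2 * Real.pi * Complex.I, Algebra.subset_adjoin ⟨0, by simp, rfl⟩⟩ :
      Algebra.adjoin ℚ ((fun _ : Fin 1 => (2 * Real.pi * Complex.I : ℂ)) '' ((Finset.univ : Finset (Fin 1)) : Set (Fin 1))))) 1 D δ
  refine ⟨E, fun H t ht w => ?_⟩
  obtain ⟨S, hS, h⟩ := hE H t ht w
  refine ⟨S, ?_, fun b hb1 hbH hbS => ?_⟩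
  · rw [Finset.card_univ, Fintype.card_fin, Fintype.card_fin] at hS
    omega
  rintro ⟨K, hK, hKD, P, hP, hP0, u, hu⟩
  let ρ : Option (Fin q) ⊕ Fin B → (Fin 1 ⊕ Fin q) ⊕ Fin 1 × Fin B :=
    Sum.elim (fun o => Sum.inl (o.elim (Sum.inl 0) Sum.inr)) fun j => Sum.inr (0, j)
  have hρ : ∀ y : Fin B → ℂ, (Sum.elim (Sum.elim (fun _ : Fin 1 => (2 * Real.pi * Complex.I : ℂ)) w)
      fun a : Fin 1 × Fin B => y a.2) ∘ ρ = Sum.elim (cs w) y := by
    intro y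
    funext v
    rcases v with (_ | a) | j <;> rfl
  have h1 := h (fun _ => b) (fun a b _ => Subsingleton.elim a b) (fun _ => ⟨hb1, hbH, hbS⟩) K hK hKD
    (MvPolynomial.rename ρ P) ((MvPolynomial.totalDegree_rename_le _ _).trans hP) (by
      rw [MvPolynomial.aeval_rename]
      rw [hρ (val t b)]
      exact hP0) (fun a => u a.2)
  rw [MvPolynomial.aeval_rename, hρ u] at h1
  exact hu h1

end Pool.Agent.V5helper46.GP
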